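import Mathlib
import Pool.Agent.Lib.P325ac.Base
import Pool.Agent.Lib.P325ac.Defs

/-!
# P325ad: matching constant-depth circuits for gap unique games on expanders, definitions
-/

open Finset
open scoped BigOperators Classical

namespace Pool.Agent.P325ad

open Pool.Agent.P325ac (IsProb br esrc etgt MaxDeg shiftVal IsJunta IsCirc sg gr NoShort)

/-! ## Circuits -/

/-- `f` is an input function or is computed by a circuit with at most `s` gates and `h` levels. -/
def CK {X : Type} (inp : (X → Bool) → Prop) (h s : ℕ) (f : X → Bool) : Prop :=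
  inp f ∨ ∃ (G : Type) (_ : Fintype G) (lv : G → ℕ) (val : G → X → Bool) (g : G),
    IsCirc inp lv val ∧ (∀ g', lv g' < h) ∧ Fintype.card G ≤ s ∧ val g = f

/-- The number of true values. -/
noncomputable def cnt {A X : Type} [Fintype A] (F : A → X → Bool) (x : X) : ℕ :=
  (univ.filter (fun a => F a x = true)).card

/-! ## Graphs and quadratic forms -/

section graphs

variable {V E : Type} [Fintype V] [Fintype E]

/-- The degree of the vertex `v` (a loop counts twice). -/
noncomputable def deg (src tgt : E → V) (v : V) : ℕ :=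
  (univ.filter (fun e => src e = v)).card + (univ.filter (fun e => tgt e = v)).card

/-- The quadratic form of the signs `s`. -/
noncomputable def quad (src tgt : E → V) (s : E → ℝ) (x : V → ℝ) : ℝ :=
  ∑ e, (x (src e) - s e * x (tgt e)) ^ 2

/-- The Poincaré inequality with the constant `γ`. -/
def Poinc (src tgt : E → V) (γ : ℝ) : Prop :=
  ∀ x : V → ℝ, γ * ∑ v, (x v - (∑ u, x u) / Fintype.card V) ^ 2 ≤ ∑ e, (x (src e) - x (tgt e)) ^ 2

/-! ## Lazy walks -/

/-- The start of the step `a`: a step is a stay at a vertex or an edge with a direction. -/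
def aS (src tgt : E → V) : V ⊕ (E × Bool) → V
  | Sum.inl v => v
  | Sum.inr (e, true) => src e
  | Sum.inr (e, false) => tgt e

/-- The end of the step `a`. -/
def aT (src tgt : E → V) : V ⊕ (E × Bool) → V
  | Sum.inl v => v
  | Sum.inr (e, true) => tgt e
  | Sum.inr (e, false) => src e

/-- The weight of the step `a`. -/
noncomputable def aw (src tgt : E → V) (D : ℕ) : V ⊕ (E × Bool) → ℝ
  | Sum.inl v => 1 - deg src tgt v / (2 * D)
  | Sum.inr _ => 1 / (2 * D)

/-- The sign of the step `a`. -/
def asg (s : E → ℝ) : V ⊕ (E × Bool) → ℝ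
  | Sum.inl _ => 1
  | Sum.inr p => s p.1

/-- The transition matrix of the signed lazy walk. -/
noncomputable def TM (src tgt : E → V) (D : ℕ) (s : E → ℝ) : Matrix V V ℝ :=
  fun u v => ∑ a, if aS src tgt a = u ∧ aT src tgt a = v then aw src tgt D a * asg s a else 0

/-- The weight of the sequence `a` of `L` steps as a walk from `u` to `v`. -/
noncomputable def ww (src tgt : E → V) (D : ℕ) :
    (L : ℕ) → (Fin L → V ⊕ (E × Bool)) → V → V → ℝ
  | 0, _, u, v => if u = v then 1 else 0
  | L + 1, a, u, v =>
    if aS src tgt (a 0) = u then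
      aw src tgt D (a 0) * ww src tgt D L (Fin.tail a) (aT src tgt (a 0)) v else 0

/-- The signs of the layer `i` of the instance `c`. -/
noncomputable def lsg {k : ℕ} (c : E → Fin k → Bool) (i : Fin k) (e : E) : ℝ := sg (c e i)

end graphs

/-! ## Random permutations -/

/-- The edges `(x, σ i x)`. -/
noncomputable def edg {N D : ℕ} (σ : Fin D → Equiv.Perm (Fin N)) : Finset (Fin N × Fin N) :=
  univ.image (fun p : Fin D × Fin N => (p.2, σ p.1 p.2))

/-- Edge expansion of the union of the permutations `σ i`. -/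
def Exp {N D : ℕ} (σ : Fin D → Equiv.Perm (Fin N)) : Prop :=
  ∀ S T : Finset (Fin N), S.card + T.card ≤ N →
    S.card + T.card ≤
      (univ.filter (fun p : Fin D × Fin N => ¬ (p.2 ∈ S ↔ σ p.1 p.2 ∈ T))).card

/-- The edges of `Ed` that lie on a cycle of length at most `g`. -/
noncomputable def bad {N : ℕ} (Ed : Finset (Fin N × Fin N)) (g : ℕ) : Finset (Fin N × Fin N) :=
  Ed.filter (fun p => ∃ (v : Fin N ⊕ Fin N) (c : (gr Ed).Walk v v), c.IsCycle ∧ c.length ≤ g ∧
    s(Sum.inl p.1, Sum.inr p.2) ∈ c.edges)

end Pool.Agent.P325ad
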