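import Mathlib
import Pool.Agent.Lib.P325ad.Defs

/-!
# P325ad.ApxA: tails of sums of independent bits
-/

open Finset
open scoped BigOperators Classical

namespace Pool.Agent.P325ad

open Pool.Agent.P325ac (IsProb br)

namespace ApxAAux

theorem exp_le_sq {y : ℝ} (hy : |y| ≤ 1) : Real.exp y ≤ 1 + y + y ^ 2 := by
  have h := Real.abs_exp_sub_one_sub_id_le hy
  have h1 := (abs_le.1 h).2
  linarith

theorem key {Ω : Type} [Fintype Ω] (p : Ω → ℝ) (hp : IsProb p) (y : Ω → ℝ) {g0 : ℝ}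
    (hg0 : 0 < g0) (hg1 : g0 ≤ 1) (hy : ∀ o, |y o| ≤ g0 / 2)
    (hm : ∑ o, p o * y o ≤ -(g0 ^ 2 / 2)) (M : ℕ) :
    ∑ ω : Fin M → Ω, ∏ l, (p (ω l) * Real.exp (y (ω l))) ≤ Real.exp (-(g0 ^ 2 / 4 * M)) := by
  have h1 : ∑ ω : Fin M → Ω, ∏ l, (p (ω l) * Real.exp (y (ω l))) =
      (∑ o, p o * Real.exp (y o)) ^ M := by
    have h2 := Finset.prod_univ_sum (fun _ : Fin M => (univ : Finset Ω))
      (fun _ o => p o * Real.exp (y o))
    rw [Fintype.piFinset_univ] at h2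
    rw [← h2]
    simp
  have h3 : ∑ o, p o * Real.exp (y o) ≤ 1 - g0 ^ 2 / 4 := by
    calc ∑ o, p o * Real.exp (y o) ≤ ∑ o, (p o + p o * y o + p o * (g0 ^ 2 / 4)) := by
          refine sum_le_sum (fun o _ => ?_)
          have h4 := exp_le_sq (y := y o) (by have := hy o; linarith)
          have h5 : (y o) ^ 2 ≤ g0 ^ 2 / 4 := by
            have h6 : (y o) ^ 2 ≤ (g0 / 2) ^ 2 := sq_le_sq' (by have := (abs_le.1 (hy o)).1; linarith)
              ((abs_le.1 (hy o)).2)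
            calc (y o) ^ 2 ≤ (g0 / 2) ^ 2 := h6
              _ = g0 ^ 2 / 4 := by ring
          calc p o * Real.exp (y o) ≤ p o * (1 + y o + g0 ^ 2 / 4) :=
                mul_le_mul_of_nonneg_left (by linarith) (hp.1 o)
            _ = _ := by ring
      _ = 1 + (∑ o, p o * y o) + g0 ^ 2 / 4 := by
          rw [sum_add_distrib, sum_add_distrib, ← sum_mul, hp.2, one_mul]
      _ ≤ 1 - g0 ^ 2 / 4 := by linarith
  have h0 : 0 ≤ ∑ o, p o * Real.exp (y o) :=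
    sum_nonneg (fun o _ => mul_nonneg (hp.1 o) (Real.exp_pos _).le)
  rw [h1]
  have h7 : 1 - g0 ^ 2 / 4 ≤ Real.exp (-(g0 ^ 2 / 4)) := by
    have := Real.add_one_le_exp (-(g0 ^ 2 / 4))
    linarith
  calc (∑ o, p o * Real.exp (y o)) ^ M ≤ (Real.exp (-(g0 ^ 2 / 4))) ^ M :=
        pow_le_pow_left₀ h0 (h3.trans h7) M
    _ = Real.exp (-(g0 ^ 2 / 4 * M)) := by
        rw [← Real.exp_nat_mul]
        congr 1
        ring

theorem cnt_eq {Ω : Type} {M : ℕ} (b : Ω → Bool) (ω : Fin M → Ω) :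
    ((univ.filter (fun l => b (ω l) = true)).card : ℝ) = ∑ l, br (b (ω l)) := by
  rw [Finset.card_filter, Nat.cast_sum]
  refine sum_congr rfl (fun l _ => ?_)
  unfold br
  split_ifs <;> simp

theorem br_cases (b : Bool) : br b = 0 ∨ br b = 1 := by
  unfold br
  cases b <;> simp

theorem gen {Ω : Type} [Fintype Ω] (p : Ω → ℝ) (hp : IsProb p) (b : Ω → Bool) (τ g0 s : ℝ)
    (hs : s = 1 ∨ s = -1) (hτ0 : 0 ≤ τ) (hτ1 : τ ≤ 1) (hg0 : 0 < g0) (hg1 : g0 ≤ 1) (M : ℕ)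
    (h : s * (∑ o, p o * br (b o) - τ) ≤ -g0) (P : (Fin M → Ω) → Prop)
    (hP : ∀ ω, P ω → 0 ≤ s * (∑ l, br (b (ω l)) - τ * M)) :
    ∑ ω : Fin M → Ω, (∏ l, p (ω l)) * (if P ω then 1 else 0) ≤ Real.exp (-(g0 ^ 2 / 4 * M)) := by
  have hs2 : s ^ 2 = 1 := by rcases hs with h | h <;> rw [h] <;> norm_num
  have habs : |s| = 1 := by rcases hs with h | h <;> rw [h] <;> norm_num
  refine le_trans ?_ (key p hp (fun o => g0 / 2 * (s * (br (b o) - τ))) hg0 hg1 ?_ ?_ M)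
  · refine sum_le_sum (fun ω _ => ?_)
    rw [prod_mul_distrib, ← Real.exp_sum]
    refine mul_le_mul_of_nonneg_left ?_ (prod_nonneg (fun l _ => hp.1 _))
    have e : ∑ l, g0 / 2 * (s * (br (b (ω l)) - τ)) =
        g0 / 2 * (s * (∑ l, br (b (ω l)) - τ * M)) := by
      rw [← mul_sum, ← mul_sum, sum_sub_distrib, sum_const, card_univ, Fintype.card_fin,
        nsmul_eq_mul, mul_comm τ]
    rw [e]
    split_ifs with hω
    · have h1 := hP ω hω
      have h2 : 0 ≤ g0 / 2 * (s * (∑ l, br (b (ω l)) - τ * M)) :=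
        mul_nonneg (by linarith) h1
      exact Real.one_le_exp h2
    · exact (Real.exp_pos _).le
  · intro o
    rw [abs_mul, abs_mul, habs, one_mul, abs_of_pos (by linarith : (0 : ℝ) < g0 / 2)]
    have h1 : |br (b o) - τ| ≤ 1 := by
      rw [abs_le]
      rcases br_cases (b o) with h | h <;> rw [h] <;> constructor <;> linarith
    calc g0 / 2 * |br (b o) - τ| ≤ g0 / 2 * 1 := mul_le_mul_of_nonneg_left h1 (by linarith)
      _ = g0 / 2 := mul_one _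
  · have e : ∑ o, p o * (g0 / 2 * (s * (br (b o) - τ))) =
        g0 / 2 * (s * (∑ o, p o * br (b o) - τ)) := by
      have h1 : ∀ o, p o * (g0 / 2 * (s * (br (b o) - τ))) =
          g0 / 2 * s * (p o * br (b o)) - g0 / 2 * s * τ * p o := fun o => by ring
      rw [sum_congr rfl (fun o _ => h1 o), sum_sub_distrib, ← mul_sum, ← mul_sum, hp.2]
      ring
    rw [e]
    nlinarith

end ApxAAux

theorem tail_low {Ω : Type} [Fintype Ω] (p : Ω → ℝ) (hp : IsProb p) (b : Ω → Bool) (τ g0 : ℝ)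
    (hτ0 : 0 ≤ τ) (hτ1 : τ ≤ 1) (hg0 : 0 < g0) (hg1 : g0 ≤ 1) (M : ℕ)
    (h : τ + g0 ≤ ∑ o, p o * br (b o)) :
    ∑ ω : Fin M → Ω, (∏ l, p (ω l)) *
      (if ((univ.filter (fun l => b (ω l) = true)).card : ℝ) < τ * M then 1 else 0) ≤
      Real.exp (-(g0 ^ 2 / 4 * M)) := by
  refine ApxAAux.gen p hp b τ g0 (-1) (Or.inr rfl) hτ0 hτ1 hg0 hg1 M (by linarith)
    (fun ω => ((univ.filter (fun l => b (ω l) = true)).card : ℝ) < τ * M) (fun ω hω => ?_)
  rw [ApxAAux.cnt_eq] at hω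
  linarith

theorem tail_high {Ω : Type} [Fintype Ω] (p : Ω → ℝ) (hp : IsProb p) (b : Ω → Bool) (τ g0 : ℝ)
    (hτ0 : 0 ≤ τ) (hτ1 : τ ≤ 1) (hg0 : 0 < g0) (hg1 : g0 ≤ 1) (M : ℕ)
    (h : ∑ o, p o * br (b o) ≤ τ - g0) :
    ∑ ω : Fin M → Ω, (∏ l, p (ω l)) *
      (if τ * M ≤ ((univ.filter (fun l => b (ω l) = true)).card : ℝ) then 1 else 0) ≤
      Real.exp (-(g0 ^ 2 / 4 * M)) := by
  refine ApxAAux.gen p hp b τ g0 1 (Or.inl rfl) hτ0 hτ1 hg0 hg1 M (by linarith)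
    (fun ω => τ * M ≤ ((univ.filter (fun l => b (ω l) = true)).card : ℝ)) (fun ω hω => ?_)
  rw [ApxAAux.cnt_eq] at hω
  linarith

end Pool.Agent.P325ad
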