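import Mathlib
import Pool.Agent.Lib.P325ad.Defs

/-!
# P325ad.ApxB: amplification by an OR of ANDs
-/

open Finset
open scoped BigOperators Classical

namespace Pool.Agent.P325ad

open Pool.Agent.P325ac (IsProb br)

namespace ApxBAux

/-- The product measure. -/
noncomputable def pw {Ω : Type} (p : Ω → ℝ) (J : ℕ) (w : Fin J → Ω) : ℝ := ∏ j, p (w j)

theorem sum_prod {Ω : Type} [Fintype Ω] (J : ℕ) (F : Fin J → Ω → ℝ) :
    ∑ w : Fin J → Ω, ∏ j, F j (w j) = ∏ j, ∑ o, F j o := by
  rw [Finset.prod_univ_sum, Fintype.piFinset_univ]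

theorem pw_nonneg {Ω : Type} {p : Ω → ℝ} (hp : ∀ o, 0 ≤ p o) (J : ℕ) (w : Fin J → Ω) :
    0 ≤ pw p J w := Finset.prod_nonneg fun _ _ => hp _

theorem pw_sum {Ω : Type} [Fintype Ω] {p : Ω → ℝ} (hp : ∑ o, p o = 1) (J : ℕ) :
    ∑ w : Fin J → Ω, pw p J w = 1 := by
  unfold pw
  rw [sum_prod J (fun _ => p), Finset.prod_congr rfl fun _ _ => hp, Finset.prod_const_one]

theorem pw_all {Ω : Type} [Fintype Ω] (p : Ω → ℝ) (J : ℕ) (h : Ω → ℝ) :
    ∑ w : Fin J → Ω, pw p J w * ∏ j, h (w j) = (∑ o, p o * h o) ^ J := by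
  have h1 : ∀ w : Fin J → Ω, pw p J w * ∏ j, h (w j) = ∏ j, (p (w j) * h (w j)) := by
    intro w
    rw [Finset.prod_mul_distrib]
    rfl
  rw [Finset.sum_congr rfl fun w _ => h1 w, sum_prod J (fun _ o => p o * h o),
    Finset.prod_const, Finset.card_univ, Fintype.card_fin]

theorem pw_one {Ω : Type} [Fintype Ω] {p : Ω → ℝ} (hp : ∑ o, p o = 1) (J : ℕ) (h : Ω → ℝ)
    (j0 : Fin J) : ∑ w : Fin J → Ω, pw p J w * h (w j0) = ∑ o, p o * h o := by
  have h1 : ∀ w : Fin J → Ω, pw p J w * h (w j0) =
      ∏ j, (p (w j) * (if j = j0 then h (w j) else 1)) := by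
    intro w
    rw [Finset.prod_mul_distrib, Finset.prod_ite_eq' Finset.univ j0 (fun j => h (w j)),
      if_pos (Finset.mem_univ _)]
    rfl
  rw [Finset.sum_congr rfl fun w _ => h1 w,
    sum_prod J (fun j o => p o * (if j = j0 then h o else 1))]
  have h2 : ∀ j : Fin J, ∑ o, p o * (if j = j0 then h o else 1) =
      if j = j0 then ∑ o, p o * h o else 1 := by
    intro j
    by_cases hj : j = j0
    · simp only [if_pos hj]
    · simp only [if_neg hj, mul_one]
      exact hp
  rw [Finset.prod_congr rfl fun j _ => h2 j, Finset.prod_ite_eq', if_pos (Finset.mem_univ _)]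

end ApxBAux

open ApxBAux

theorem amp {Ω X : Type} [Fintype Ω] [Fintype X] (p : Ω → ℝ) (hp : IsProb p)
    (g : Ω → X → Bool) (Y Z : X → Prop) (J : ℕ) (hJ : 1 ≤ J) (hX : Fintype.card X < 2 ^ J)
    (hY : ∀ x, Y x → ∑ o, p o * br (!(g o x)) ≤ 1 / (4 * J))
    (hZ : ∀ x, Z x → ∑ o, p o * br (g o x) ≤ 1 / 4) :
    ∃ ω : Fin J → Fin J → Ω, (∀ x, Y x → ∃ i, ∀ j, g (ω i j) x = true) ∧
      (∀ x, Z x → ∀ i, ∃ j, g (ω i j) x = false) := by
  have hp0 : ∀ o, 0 ≤ p o := hp.1
  have hp1 : ∑ o, p o = 1 := hp.2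
  have hq0 : ∀ w : Fin J → Ω, 0 ≤ pw p J w := pw_nonneg hp0 J
  have hq1 : ∑ w : Fin J → Ω, pw p J w = 1 := pw_sum hp1 J
  have hr0 : ∀ W : Fin J → Fin J → Ω, 0 ≤ pw (pw p J) J W := pw_nonneg hq0 J
  have hr1 : ∑ W : Fin J → Fin J → Ω, pw (pw p J) J W = 1 := pw_sum hq1 J
  have hJ0 : (0 : ℝ) < J := by exact_mod_cast hJ
  -- the bad events
  let bY : X → (Fin J → Fin J → Ω) → ℝ := fun x W =>
    if Y x ∧ ∀ i, ∃ j, g (W i j) x = false then 1 else 0
  let bZ : X → (Fin J → Fin J → Ω) → ℝ := fun x W =>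
    if Z x ∧ ∃ i, ∀ j, g (W i j) x = true then 1 else 0
  have hbY : ∀ x, ∑ W, pw (pw p J) J W * bY x W ≤ (1 / 4) ^ J := by
    intro x
    by_cases hx : Y x
    · let e : (Fin J → Ω) → ℝ := fun w => if ∃ j, g (w j) x = false then 1 else 0
      have he : ∑ w, pw p J w * e w ≤ 1 / 4 := by
        have h1 : ∀ w : Fin J → Ω, e w ≤ ∑ j, br (!(g (w j) x)) := by
          intro w
          by_cases hw : ∃ j, g (w j) x = false
          · obtain ⟨j, hj⟩ := id hw
            have h2 : e w = br (!(g (w j) x)) := by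
              show (if _ then (1 : ℝ) else 0) = _
              rw [if_pos hw, hj]
              simp [br]
            rw [h2]
            refine Finset.single_le_sum (f := fun j => br (!(g (w j) x))) (fun i _ => ?_)
              (Finset.mem_univ j)
            unfold br
            split <;> norm_num
          · have h2 : e w = 0 := if_neg hw
            rw [h2]
            refine Finset.sum_nonneg fun i _ => ?_
            unfold br
            split <;> norm_num
        calc ∑ w, pw p J w * e w ≤ ∑ w, pw p J w * ∑ j, br (!(g (w j) x)) :=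
              Finset.sum_le_sum fun w _ => mul_le_mul_of_nonneg_left (h1 w) (hq0 w)
          _ = ∑ j : Fin J, ∑ w, pw p J w * br (!(g (w j) x)) := by
              simp only [Finset.mul_sum]
              rw [Finset.sum_comm]
          _ = ∑ j : Fin J, ∑ o, p o * br (!(g o x)) :=
              Finset.sum_congr rfl fun j _ => pw_one hp1 J (fun o => br (!(g o x))) j
          _ ≤ ∑ j : Fin J, 1 / (4 * (J : ℝ)) := Finset.sum_le_sum fun j _ => hY x hx
          _ = 1 / 4 := by
              rw [Finset.sum_const, Finset.card_univ, Fintype.card_fin, nsmul_eq_mul]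
              field_simp
      have he0 : 0 ≤ ∑ w, pw p J w * e w := by
        refine Finset.sum_nonneg fun w _ => mul_nonneg (hq0 w) ?_
        show 0 ≤ (if _ then (1 : ℝ) else 0)
        split <;> norm_num
      have h3 : ∀ W : Fin J → Fin J → Ω, bY x W = ∏ i, e (W i) := by
        intro W
        by_cases hW : ∀ i, ∃ j, g (W i j) x = false
        · show (if _ then (1 : ℝ) else 0) = _
          rw [if_pos ⟨hx, hW⟩, Finset.prod_eq_one]
          intro i _
          exact if_pos (hW i)
        · show (if _ then (1 : ℝ) else 0) = _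
          rw [if_neg (fun h => hW h.2)]
          push Not at hW
          obtain ⟨i, hi⟩ := hW
          refine (Finset.prod_eq_zero (Finset.mem_univ i) ?_).symm
          refine if_neg ?_
          rintro ⟨j, hj⟩
          exact hi j hj
      rw [Finset.sum_congr rfl fun W _ => by rw [h3 W], pw_all (pw p J) J e]
      exact pow_le_pow_left₀ he0 he J
    · have h1 : ∀ W, pw (pw p J) J W * bY x W = 0 := by
        intro W
        have : bY x W = 0 := if_neg (fun h => hx h.1)
        rw [this, mul_zero]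
      rw [Finset.sum_eq_zero fun W _ => h1 W]
      positivity
  have hbZ : ∀ x, ∑ W, pw (pw p J) J W * bZ x W ≤ J * (1 / 4) ^ J := by
    intro x
    by_cases hx : Z x
    · let e : (Fin J → Ω) → ℝ := fun w => ∏ j, br (g (w j) x)
      have hbr0 : ∀ b : Bool, 0 ≤ br b := by
        intro b
        unfold br
        split <;> norm_num
      have he : ∑ w, pw p J w * e w ≤ (1 / 4) ^ J := by
        rw [pw_all p J (fun o => br (g o x))]
        exact pow_le_pow_left₀ (Finset.sum_nonneg fun o _ => mul_nonneg (hp0 o) (hbr0 _))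
          (hZ x hx) J
      have h3 : ∀ W : Fin J → Fin J → Ω, bZ x W ≤ ∑ i, e (W i) := by
        intro W
        have he0 : ∀ w, 0 ≤ e w := fun w => Finset.prod_nonneg fun _ _ => hbr0 _
        by_cases hW : ∃ i, ∀ j, g (W i j) x = true
        · obtain ⟨i, hi⟩ := id hW
          have h4 : bZ x W = e (W i) := by
            show (if _ then (1 : ℝ) else 0) = _
            rw [if_pos ⟨hx, hW⟩]
            refine (Finset.prod_eq_one fun j _ => ?_).symm
            rw [hi j]
            simp [br]
          rw [h4]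
          exact Finset.single_le_sum (f := fun i => e (W i)) (fun i _ => he0 _)
            (Finset.mem_univ i)
        · have h4 : bZ x W = 0 := if_neg (fun h => hW h.2)
          rw [h4]
          exact Finset.sum_nonneg fun i _ => he0 _
      calc ∑ W, pw (pw p J) J W * bZ x W
          ≤ ∑ W, pw (pw p J) J W * ∑ i, e (W i) :=
            Finset.sum_le_sum fun W _ => mul_le_mul_of_nonneg_left (h3 W) (hr0 W)
        _ = ∑ i : Fin J, ∑ W, pw (pw p J) J W * e (W i) := by
            simp only [Finset.mul_sum]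
            rw [Finset.sum_comm]
        _ = ∑ i : Fin J, ∑ w, pw p J w * e w :=
            Finset.sum_congr rfl fun i _ => pw_one hq1 J e i
        _ ≤ ∑ i : Fin J, (1 / 4 : ℝ) ^ J := Finset.sum_le_sum fun i _ => he
        _ = J * (1 / 4) ^ J := by
            rw [Finset.sum_const, Finset.card_univ, Fintype.card_fin, nsmul_eq_mul]
    · have h1 : ∀ W, pw (pw p J) J W * bZ x W = 0 := by
        intro W
        have : bZ x W = 0 := if_neg (fun h => hx h.1)
        rw [this, mul_zero]
      rw [Finset.sum_eq_zero fun W _ => h1 W]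
      positivity
  have hbY0 : ∀ x W, 0 ≤ bY x W := by
    intro x W
    show 0 ≤ (if _ then (1 : ℝ) else 0)
    split <;> norm_num
  have hbZ0 : ∀ x W, 0 ≤ bZ x W := by
    intro x W
    show 0 ≤ (if _ then (1 : ℝ) else 0)
    split <;> norm_num
  have htot : ∑ W, pw (pw p J) J W * ∑ x, (bY x W + bZ x W) < 1 := by
    have h1 : ∑ W, pw (pw p J) J W * ∑ x, (bY x W + bZ x W) =
        ∑ x, (∑ W, pw (pw p J) J W * bY x W + ∑ W, pw (pw p J) J W * bZ x W) := by
      simp only [Finset.mul_sum]
      rw [Finset.sum_comm]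
      refine Finset.sum_congr rfl fun x _ => ?_
      rw [← Finset.sum_add_distrib]
      exact Finset.sum_congr rfl fun W _ => by ring
    have h2 : ∀ x, ∑ W, pw (pw p J) J W * bY x W + ∑ W, pw (pw p J) J W * bZ x W ≤
        (1 / 2) ^ J := by
      intro x
      have h3 : (1 + (J : ℝ)) ≤ 2 ^ J := by
        have : J + 1 ≤ 2 ^ J := Nat.lt_two_pow_self
        have h4 : ((J + 1 : ℕ) : ℝ) ≤ ((2 ^ J : ℕ) : ℝ) := by exact_mod_cast this
        push_cast at h4
        linarith
      have h5 : (1 / 2 : ℝ) ^ J = 2 ^ J * (1 / 4) ^ J := by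
        rw [← mul_pow]
        norm_num
      rw [h5]
      have h6 : (0 : ℝ) ≤ (1 / 4) ^ J := by positivity
      have := mul_le_mul_of_nonneg_right h3 h6
      linarith [hbY x, hbZ x]
    rw [h1]
    calc ∑ x, (∑ W, pw (pw p J) J W * bY x W + ∑ W, pw (pw p J) J W * bZ x W)
        ≤ ∑ x : X, (1 / 2 : ℝ) ^ J := Finset.sum_le_sum fun x _ => h2 x
      _ = (Fintype.card X : ℝ) * (1 / 2) ^ J := by
          rw [Finset.sum_const, Finset.card_univ, nsmul_eq_mul]
      _ < 2 ^ J * (1 / 2) ^ J := by
          apply mul_lt_mul_of_pos_right _ (by positivity)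
          exact_mod_cast hX
      _ = 1 := by
          rw [← mul_pow]
          norm_num
  have hex : ∃ W, ∑ x, (bY x W + bZ x W) < 1 := by
    by_contra hcon
    push Not at hcon
    have : (1 : ℝ) ≤ ∑ W, pw (pw p J) J W * ∑ x, (bY x W + bZ x W) := by
      rw [← hr1]
      refine Finset.sum_le_sum fun W _ => ?_
      exact le_mul_of_one_le_right (hr0 W) (hcon W)
    linarith
  obtain ⟨W, hW⟩ := hex
  have hone : ∀ x, bY x W < 1 ∧ bZ x W < 1 := by
    intro x
    have h1 : bY x W + bZ x W ≤ ∑ x, (bY x W + bZ x W) :=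
      Finset.single_le_sum (f := fun x => bY x W + bZ x W)
        (fun x _ => add_nonneg (hbY0 x W) (hbZ0 x W)) (Finset.mem_univ x)
    exact ⟨by linarith [hbZ0 x W], by linarith [hbY0 x W]⟩
  refine ⟨W, fun x hx => ?_, fun x hx i => ?_⟩
  · by_contra hcon
    push Not at hcon
    have h1 : bY x W = 1 := by
      refine if_pos ⟨hx, fun i => ?_⟩
      obtain ⟨j, hj⟩ := hcon i
      exact ⟨j, by simpa using hj⟩
    have := (hone x).1
    linarith
  · by_contra hcon
    push Not at hcon
    have h1 : bZ x W = 1 := by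
      refine if_pos ⟨hx, i, fun j => ?_⟩
      simpa using hcon j
    have := (hone x).2
    linarith

end Pool.Agent.P325ad
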