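import Mathlib
import Pool.Agent.Lib.P325ad.Defs
import Pool.Agent.Lib.P325ad.ApxA
import Pool.Agent.Lib.P325ad.ApxB

/-!
# P325ad.Apx: approximate counting by OR of ANDs of thresholds of samples
-/

open Finset
open scoped BigOperators Classical

namespace Pool.Agent.P325ad

open Pool.Agent.P325ac (IsProb br)

theorem approx {Ω X : Type} [Fintype Ω] [Fintype X] (p : Ω → ℝ) (hp : IsProb p)
    (g : Ω → X → Bool) (τ g0 : ℝ) (hτ0 : 0 ≤ τ) (hτ1 : τ ≤ 1) (hg0 : 0 < g0) (hg1 : g0 ≤ 1)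
    (M J : ℕ) (hJ : 1 ≤ J) (hX : Fintype.card X < 2 ^ J)
    (hM : 4 * Real.log (4 * J) ≤ g0 ^ 2 * M) :
    ∃ ω : Fin J → Fin J → Fin M → Ω,
      (∀ x, τ + g0 ≤ ∑ o, p o * br (g o x) →
        ∃ i, ∀ j, τ * M ≤ (cnt (fun l => g (ω i j l)) x : ℝ)) ∧
      (∀ x, ∑ o, p o * br (g o x) ≤ τ - g0 →
        ∀ i, ∃ j, (cnt (fun l => g (ω i j l)) x : ℝ) < τ * M) := by
  have hJR : (1 : ℝ) ≤ J := by exact_mod_cast hJ
  have hexp : Real.exp (-(g0 ^ 2 / 4 * M)) ≤ 1 / (4 * J) := by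
    have h1 : -(g0 ^ 2 / 4 * M) ≤ -Real.log (4 * J) := by linarith
    calc Real.exp (-(g0 ^ 2 / 4 * M)) ≤ Real.exp (-Real.log (4 * J)) := Real.exp_le_exp.mpr h1
      _ = 1 / (4 * J) := by
        rw [Real.exp_neg, Real.exp_log (by linarith), one_div]
  have hexp' : Real.exp (-(g0 ^ 2 / 4 * M)) ≤ 1 / 4 := by
    refine hexp.trans ?_
    apply one_div_le_one_div_of_le (by norm_num)
    linarith
  have hp' : IsProb (fun ω : Fin M → Ω => ∏ l, p (ω l)) := by
    refine ⟨fun ω => Finset.prod_nonneg fun l _ => hp.1 _, ?_⟩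
    have := Finset.prod_univ_sum (fun _ : Fin M => (univ : Finset Ω)) (fun _ o => p o)
    rw [Fintype.piFinset_univ] at this
    rw [← this, hp.2]
    simp
  obtain ⟨ω, h1, h2⟩ := amp (fun ω : Fin M → Ω => ∏ l, p (ω l)) hp'
    (fun ω x => decide (τ * M ≤ (cnt (fun l => g (ω l)) x : ℝ)))
    (fun x => τ + g0 ≤ ∑ o, p o * br (g o x)) (fun x => ∑ o, p o * br (g o x) ≤ τ - g0) J hJ hX
    (by
      intro x hx
      refine le_trans (le_of_eq ?_)
        (le_trans (tail_low p hp (fun o => g o x) τ g0 hτ0 hτ1 hg0 hg1 M hx) hexp)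
      refine Finset.sum_congr rfl fun ω _ => ?_
      congr 1
      unfold br cnt
      by_cases hc : τ * (M : ℝ) ≤ ((univ.filter (fun l => g (ω l) x = true)).card : ℝ)
      · rw [if_neg (not_lt.mpr hc)]
        simp [hc]
      · rw [if_pos (not_le.mp hc)]
        simp [hc])
    (by
      intro x hx
      refine le_trans (le_of_eq ?_)
        (le_trans (tail_high p hp (fun o => g o x) τ g0 hτ0 hτ1 hg0 hg1 M hx) hexp')
      refine Finset.sum_congr rfl fun ω _ => ?_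
      congr 1
      unfold br cnt
      by_cases hc : τ * (M : ℝ) ≤ ((univ.filter (fun l => g (ω l) x = true)).card : ℝ)
      · rw [if_pos hc]
        simp [hc]
      · rw [if_neg hc]
        simp [hc])
  refine ⟨ω, ?_, ?_⟩
  · intro x hx
    obtain ⟨i, hi⟩ := h1 x hx
    exact ⟨i, fun j => of_decide_eq_true (hi j)⟩
  · intro x hx i
    obtain ⟨j, hj⟩ := h2 x hx i
    exact ⟨j, not_le.mp (of_decide_eq_false hj)⟩

end Pool.Agent.P325ad
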