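import Mathlib
import Pool.Agent.Lib.P325ad.Defs

/-!
# P325ad.CKa: closure properties of functions with small circuits
-/

open Finset
open scoped BigOperators Classical

namespace Pool.Agent.P325ad

open Pool.Agent.P325ac (IsCirc)

theorem CK.mono {X : Type} {inp : (X → Bool) → Prop} {h h' s s' : ℕ} {f : X → Bool}
    (hf : CK inp h s f) (hh : h ≤ h') (hs : s ≤ s') : CK inp h' s' f := by
  rcases hf with hf | ⟨G, inst, lv, val, g, hc, hlv, hcard, hv⟩
  · exact Or.inl hf
  · exact Or.inr ⟨G, inst, lv, val, g, hc, fun g' => lt_of_lt_of_le (hlv g') hh,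
      le_trans hcard hs, hv⟩

theorem CKaAux.build {X J : Type} [Fintype J] {inp : (X → Bool) → Prop} {h s : ℕ}
    (f : J → X → Bool) (hf : ∀ j, CK inp h s (f j)) (F : X → Bool)
    (hF : (∀ x, F x = true ↔ ∃ j, f j x = true) ∨ (∀ x, F x = true ↔ ∀ j, f j x = true)) :
    CK inp (h + 1) (1 + Fintype.card J * s) F := by
  have key : ∀ j, ∃ (G : Type) (_ : Fintype G) (lv : G → ℕ) (val : G → X → Bool),
      IsCirc inp lv val ∧ (∀ g', lv g' < h) ∧ Fintype.card G ≤ s ∧
        (inp (f j) ∨ ∃ g, val g = f j) := by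
    intro j
    rcases hf j with h1 | ⟨G, inst, lv, val, g, hc, hlv, hcard, hv⟩
    · refine ⟨PEmpty, inferInstance, fun g => g.elim, fun g => g.elim, fun g => g.elim,
        fun g => g.elim, ?_, Or.inl h1⟩
      simp
    · exact ⟨G, inst, lv, val, hc, hlv, hcard, Or.inr ⟨g, hv⟩⟩
  choose G inst lv val hc hlv hcard hv using key
  refine Or.inr ⟨Option (Σ j, G j), inferInstance, fun o => o.elim h (fun p => lv p.1 p.2),
    fun o => o.elim F (fun p => val p.1 p.2), none, ?_, ?_, ?_, rfl⟩
  · intro o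
    rcases o with _ | ⟨j, g⟩
    · refine ⟨Set.range f, ?_, ?_⟩
      · rintro _ ⟨j, rfl⟩
        rcases hv j with h1 | ⟨g, hg⟩
        · exact Or.inl h1
        · exact Or.inr ⟨some ⟨j, g⟩, hlv j g, Or.inl hg.symm⟩
      · rcases hF with h1 | h1
        · left
          intro x
          refine (h1 x).trans ?_
          constructor
          · rintro ⟨j, hj⟩
            exact ⟨f j, ⟨j, rfl⟩, hj⟩
          · rintro ⟨_, ⟨j, rfl⟩, hj⟩
            exact ⟨j, hj⟩
        · right
          intro x
          refine (h1 x).trans ?_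
          constructor
          · rintro h2 _ ⟨j, rfl⟩
            exact h2 j
          · intro h2 j
            exact h2 (f j) ⟨j, rfl⟩
    · obtain ⟨W, hW, h1⟩ := hc j g
      refine ⟨W, ?_, h1⟩
      intro w hw
      rcases hW w hw with h2 | ⟨g', hg', h3⟩
      · exact Or.inl h2
      · exact Or.inr ⟨some ⟨j, g'⟩, hg', h3⟩
  · intro o
    rcases o with _ | ⟨j, g⟩
    · exact Nat.lt_succ_self h
    · exact lt_trans (hlv j g) (Nat.lt_succ_self h)
  · rw [Fintype.card_option, Fintype.card_sigma, add_comm]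
    refine Nat.add_le_add_left ?_ 1
    calc ∑ j, Fintype.card (G j) ≤ ∑ _j : J, s := Finset.sum_le_sum (fun j _ => hcard j)
      _ = Fintype.card J * s := by simp

theorem ck_or {X J : Type} [Fintype J] {inp : (X → Bool) → Prop} {h s : ℕ} (f : J → X → Bool)
    (hf : ∀ j, CK inp h s (f j)) :
    CK inp (h + 1) (1 + Fintype.card J * s) (fun x => decide (∃ j, f j x = true)) :=
  CKaAux.build f hf _ (Or.inl (fun x => by simp))

theorem ck_and {X J : Type} [Fintype J] {inp : (X → Bool) → Prop} {h s : ℕ} (f : J → X → Bool)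
    (hf : ∀ j, CK inp h s (f j)) :
    CK inp (h + 1) (1 + Fintype.card J * s) (fun x => decide (∀ j, f j x = true)) :=
  CKaAux.build f hf _ (Or.inr (fun x => by simp))

/-- An actual circuit. -/
theorem CK.circ {X : Type} {inp : (X → Bool) → Prop} {h s : ℕ} {f : X → Bool}
    (hf : CK inp h s f) (hh : 1 ≤ h) (hs : 1 ≤ s) :
    ∃ (G : Type) (_ : Fintype G) (lv : G → ℕ) (val : G → X → Bool) (g : G),
      IsCirc inp lv val ∧ (∀ g', lv g' < h) ∧ Fintype.card G ≤ s ∧ val g = f := by
  rcases hf with hf | hf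
  · refine ⟨Unit, inferInstance, fun _ => 0, fun _ => f, (), ?_, fun _ => hh, ?_, rfl⟩
    · intro g
      refine ⟨{f}, ?_, Or.inl (fun x => ?_)⟩
      · intro f' hf'
        rw [Set.mem_singleton_iff] at hf'
        rw [hf']
        exact Or.inl hf
      · simp
    · simpa using hs
  · exact hf

end Pool.Agent.P325ad
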