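import Mathlib
import Pool.Agent.Lib.P325ad.Defs
import Pool.Agent.Lib.P325ad.CKa

/-!
# P325ad.CKb: counting by a tree
-/

open Finset
open scoped BigOperators Classical

namespace Pool.Agent.P325ad

namespace CKbAux

theorem dec_irr {p : Prop} (I J : Decidable p) : @decide p I = @decide p J := by
  rw [Subsingleton.elim I J]

theorem ck_congr {X : Type} {inp : (X → Bool) → Prop} {h s : ℕ} {f g : X → Bool}
    (hf : CK inp h s f) (hfg : ∀ x, f x = g x) : CK inp h s g := by
  have : f = g := funext hfg
  rw [← this]
  exact hf

end CKbAux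

open CKbAux

theorem ck_count {X : Type} {inp : (X → Bool) → Prop} (cl : (X → Bool) → Prop)
    (hneg : ∀ f, cl f → cl (fun x => !(f x))) (hff : cl (fun _ => false)) (h0 s0 : ℕ)
    (hs0 : 1 ≤ s0) (hcl : ∀ f, cl f → CK inp h0 s0 f) (r M : ℕ) (i : ℕ) (hM : r ^ i ≤ M)
    (F : Fin (r ^ i) → X → Bool) (hF : ∀ a, cl (F a)) (P : ℕ → Prop) :
    CK inp (h0 + 2 * i) (((r + 2) * (M + 1) ^ r) ^ i * s0)
      (fun x => decide (P (cnt F x))) := by
  have hft : cl (fun _ => true) := by
    have := hneg _ hff
    simpa using this
  induction i generalizing P with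
  | zero =>
    rw [pow_zero, one_mul, Nat.mul_zero, Nat.add_zero]
    have h1 : ∀ x, cnt F x = if F ⟨0, by simp⟩ x = true then 1 else 0 := by
      intro x
      unfold cnt
      have hu : (univ : Finset (Fin (r ^ 0))) = {⟨0, by simp⟩} := by
        ext a
        rw [mem_singleton]
        refine ⟨fun _ => ?_, fun _ => mem_univ _⟩
        have h2 : (a : ℕ) < 1 := lt_of_lt_of_le a.2 (le_of_eq (pow_zero r))
        exact Fin.ext (show (a : ℕ) = 0 by omega)
      rw [hu, filter_singleton]
      split_ifs
      · exact card_singleton _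
      · exact card_empty
    by_cases p1 : P 1
    · by_cases p0 : P 0
      · have : (fun x => decide (P (cnt F x))) = fun _ => true := by
          funext x
          rw [h1]
          split_ifs <;> simp [p1, p0]
        rw [this]
        exact hcl _ hft
      · have : (fun x => decide (P (cnt F x))) = F ⟨0, by simp⟩ := by
          funext x
          rw [h1]
          cases hx : F ⟨0, by simp⟩ x <;> simp [p1, p0]
        rw [this]
        exact hcl _ (hF _)
    · by_cases p0 : P 0
      · have : (fun x => decide (P (cnt F x))) = fun x => !(F ⟨0, by simp⟩ x) := by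
          funext x
          rw [h1]
          cases hx : F ⟨0, by simp⟩ x <;> simp [p1, p0]
        rw [this]
        exact hcl _ (hneg _ (hF _))
      · have : (fun x => decide (P (cnt F x))) = fun _ => false := by
          funext x
          rw [h1]
          split_ifs <;> simp [p1, p0]
        rw [this]
        exact hcl _ hff
  | succ i ih =>
    set e : Fin (r ^ i) × Fin r ≃ Fin (r ^ (i + 1)) :=
      finProdFinEquiv.trans (finCongr (pow_succ r i).symm) with he
    set F' : Fin r → Fin (r ^ i) → X → Bool := fun j b => F (e (b, j)) with hF'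
    have hcnt : ∀ x, cnt F x = ∑ j, cnt (F' j) x := by
      intro x
      unfold cnt
      rw [Finset.card_filter]
      rw [← Equiv.sum_comp e, Fintype.sum_prod_type_right]
      refine Finset.sum_congr rfl fun j _ => ?_
      rw [Finset.card_filter]
    have hle : ∀ j x, cnt (F' j) x ≤ r ^ i := by
      intro j x
      unfold cnt
      exact (card_le_univ _).trans (by simp)
    have hri : ∀ _ : Fin r, r ^ i ≤ M := by
      intro j
      have hr : 1 ≤ r := by have := j.2; omega
      exact (Nat.pow_le_pow_right hr (Nat.le_succ i)).trans hM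
    set S : ℕ := ((r + 2) * (M + 1) ^ r) ^ i * s0 with hS
    have key := ck_or (inp := inp) (h := h0 + 2 * i + 1) (s := 1 + r * S)
      (fun (u : {u : Fin r → Fin (r ^ i + 1) // P (∑ j, (u j : ℕ))}) x =>
        decide (∀ j, decide (cnt (F' j) x = (u.1 j : ℕ)) = true))
      (fun u => by
        have := ck_and (inp := inp) (h := h0 + 2 * i) (s := S)
          (fun (j : Fin r) x => decide (cnt (F' j) x = (u.1 j : ℕ)))
          (fun j => ck_congr (ih (hri j) (F' j) (fun b => hF _) (fun n => n = (u.1 j : ℕ)))
            (fun x => dec_irr _ _))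
        rw [Fintype.card_fin] at this
        exact ck_congr this (fun x => dec_irr _ _))
    have hfun : (fun x => decide (P (cnt F x))) = fun x => decide (∃ u :
        {u : Fin r → Fin (r ^ i + 1) // P (∑ j, (u j : ℕ))},
        decide (∀ j, decide (cnt (F' j) x = (u.1 j : ℕ)) = true) = true) := by
      funext x
      rw [decide_eq_decide]
      constructor
      · intro hP
        refine ⟨⟨fun j => ⟨cnt (F' j) x, by have := hle j x; omega⟩, ?_⟩, ?_⟩
        · rw [hcnt] at hP
          exact hP
        · simp
      · rintro ⟨u, hu⟩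
        simp only [decide_eq_true_eq] at hu
        rw [hcnt, Finset.sum_congr rfl fun j _ => hu j]
        exact u.2
    rw [hfun]
    refine key.mono (by omega) ?_
    have hcard : Fintype.card {u : Fin r → Fin (r ^ i + 1) // P (∑ j, (u j : ℕ))} ≤
        (M + 1) ^ r := by
      refine (Fintype.card_subtype_le _).trans ?_
      rw [Fintype.card_fun, Fintype.card_fin, Fintype.card_fin]
      rcases Nat.eq_zero_or_pos r with hr | hr
      · rw [hr]; simp
      · exact Nat.pow_le_pow_left (by have := hri ⟨0, hr⟩; omega) r
    have hS1 : 1 ≤ S := by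
      rw [hS]
      exact Nat.one_le_iff_ne_zero.mpr (by positivity)
    set W := (M + 1) ^ r with hW
    have hW1 : 1 ≤ W := Nat.one_le_pow _ _ (by omega)
    calc 1 + Fintype.card {u : Fin r → Fin (r ^ i + 1) // P (∑ j, (u j : ℕ))} * (1 + r * S) ≤
        1 + W * (1 + r * S) := by
          apply Nat.add_le_add_left
          exact Nat.mul_le_mul_right _ hcard
      _ ≤ (r + 2) * W * S := by nlinarith [Nat.mul_le_mul hW1 hS1, Nat.mul_le_mul_left W hS1]
      _ = ((r + 2) * W) ^ (i + 1) * s0 := by rw [hS]; ring

end Pool.Agent.P325ad
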