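import Mathlib
import Pool.Agent.Lib.P325ad.Defs
import Pool.Agent.Lib.P325ad.CKa

/-!
# P325ad.CKc: juntas have small circuits with two levels
-/

open Finset
open scoped BigOperators Classical

namespace Pool.Agent.P325ad

open Pool.Agent.P325ac (IsJunta)

theorem ck_junta {E : Type} {k w : ℕ} (f : (E → Fin k → Bool) → Bool) (hf : IsJunta w f) :
    CK (IsJunta 1) 2 (1 + 2 ^ (k * w)) f := by
  obtain ⟨S, hS, hdep⟩ := hf
  -- extension by a constant
  set ext : (S → Fin k → Bool) → (E → Fin k → Bool) :=
    fun a e => if h : e ∈ S then a ⟨e, h⟩ else fun _ => false with hext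
  have hand : ∀ a : {a : S → Fin k → Bool // f (ext a) = true},
      CK (IsJunta 1) 1 1 (fun c : E → Fin k → Bool =>
        decide (∀ e : S, decide (c e = a.1 e) = true)) := by
    intro a
    have h := ck_and (inp := IsJunta 1) (h := 0) (s := 0)
      (fun (e : S) (c : E → Fin k → Bool) => decide (c e = a.1 e)) (fun e => Or.inl
        ⟨{(e : E)}, by simp, fun c c' hc => by simp only [hc e (Finset.mem_singleton_self _)]⟩)
    simpa using h
  have hor := ck_or (inp := IsJunta 1) (h := 1) (s := 1)
    (fun (a : {a : S → Fin k → Bool // f (ext a) = true}) (c : E → Fin k → Bool) =>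
      decide (∀ e : S, decide (c e = a.1 e) = true)) hand
  have hfun : (fun x : E → Fin k → Bool => decide (∃ a : {a : S → Fin k → Bool // f (ext a) = true},
      decide (∀ e : S, decide (x e = a.1 e) = true) = true)) = f := by
    funext c
    by_cases hc : f c = true
    · rw [hc, decide_eq_true_iff]
      have h1 : f (ext fun e => c e) = true := by
        rw [← hc]
        refine hdep _ _ fun e he => ?_
        simp only [hext]
        rw [dif_pos he]
      refine ⟨⟨fun e => c e, h1⟩, ?_⟩
      simp
    · rw [Bool.not_eq_true] at hc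
      rw [hc, decide_eq_false_iff_not]
      rintro ⟨⟨a, ha⟩, h⟩
      rw [decide_eq_true_iff] at h
      have h2 : f c = f (ext a) := by
        refine hdep _ _ fun e he => ?_
        simp only [hext]
        rw [dif_pos he]
        exact of_decide_eq_true (h ⟨e, he⟩)
      rw [h2, ha] at hc
      exact absurd hc (by simp)
  rw [hfun] at hor
  refine hor.mono le_rfl ?_
  rw [mul_one]
  refine Nat.add_le_add_left ?_ 1
  refine (Fintype.card_subtype_le _).trans ?_
  rw [Fintype.card_fun, Fintype.card_fun, Fintype.card_bool, Fintype.card_fin, Fintype.card_coe,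
    ← pow_mul]
  exact Nat.pow_le_pow_right (by norm_num) (Nat.mul_le_mul_left k hS)

end Pool.Agent.P325ad
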