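import Mathlib
import Pool.Agent.Lib.P325ad.Defs

/-!
# P325ad.Chg: the Cheeger inequality
-/

open Finset
open scoped BigOperators Classical

namespace Pool.Agent.P325ad

variable {V E : Type} [Fintype V] [Fintype E]

namespace ChgAux

/-- The layer argument: the cut inequality for nonnegative functions of small support. -/
theorem cut (src tgt : E → V) (φ : ℝ)
    (hexp : ∀ A : Finset V, 2 * A.card ≤ Fintype.card V →
      φ * A.card ≤ (univ.filter (fun e => ¬ (src e ∈ A ↔ tgt e ∈ A))).card) :
    ∀ (n : ℕ) (w : V → ℝ), (∀ v, 0 ≤ w v) → (univ.filter (fun v => 0 < w v)).card ≤ n →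
      2 * (univ.filter (fun v => 0 < w v)).card ≤ Fintype.card V →
      φ * ∑ v, w v ≤ ∑ e, |w (src e) - w (tgt e)| := by
  intro n
  induction n with
  | zero =>
    intro w hw hn _
    have h0 : ∀ v, w v = 0 := by
      intro v
      have : (univ.filter (fun v => 0 < w v)) = ∅ := by
        rw [← Finset.card_eq_zero]; omega
      by_contra hne
      have hv : v ∈ univ.filter (fun v => 0 < w v) := by
        simp only [mem_filter, mem_univ, true_and]
        exact lt_of_le_of_ne (hw v) (Ne.symm hne)
      rw [this] at hv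
      simp at hv
    simp [h0]
  | succ n ih =>
    intro w hw hn h2
    set A : Finset V := univ.filter (fun v => 0 < w v) with hA
    by_cases hne : A.Nonempty
    · obtain ⟨a, haA, hamin⟩ := Finset.exists_min_image A w hne
      set m : ℝ := w a with hm
      have hmpos : 0 < m := by
        have := haA
        rw [hA, mem_filter] at this
        exact this.2
      set w' : V → ℝ := fun v => if v ∈ A then w v - m else 0 with hw'
      have hmem : ∀ v, v ∈ A ↔ 0 < w v := by
        intro v; rw [hA, mem_filter]; simp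
      have hnot : ∀ v, v ∉ A → w v = 0 := by
        intro v hv
        rw [hmem] at hv
        exact le_antisymm (not_lt.mp hv) (hw v)
      have hw'0 : ∀ v, 0 ≤ w' v := by
        intro v
        simp only [hw']
        split_ifs with h
        · have := hamin v h
          linarith
        · exact le_refl _
      have hsub : (univ.filter (fun v => 0 < w' v)) ⊆ A.erase a := by
        intro v hv
        rw [mem_filter] at hv
        have hv2 := hv.2
        simp only [hw'] at hv2
        split_ifs at hv2 with h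
        · rw [mem_erase]
          refine ⟨?_, h⟩
          rintro rfl
          simp [hm] at hv2
        · exact absurd hv2 (lt_irrefl _)
      have hcard : (univ.filter (fun v => 0 < w' v)).card ≤ A.card - 1 := by
        have := Finset.card_le_card hsub
        rwa [Finset.card_erase_of_mem haA] at this
      have hApos : 0 < A.card := Finset.card_pos.mpr hne
      have ih' := ih w' hw'0 (by omega) (by omega)
      have hex := hexp A h2
      have hsum : ∑ v, w v = ∑ v, w' v + m * A.card := by
        have : ∀ v, w v = w' v + (if v ∈ A then m else 0) := by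
          intro v
          simp only [hw']
          split_ifs with h
          · ring
          · rw [hnot v h]; ring
        rw [Finset.sum_congr rfl (fun v _ => this v), Finset.sum_add_distrib]
        congr 1
        rw [← Finset.sum_filter]
        simp [mul_comm]
      have hedge : ∀ e, |w (src e) - w (tgt e)| =
          |w' (src e) - w' (tgt e)| + (if ¬ (src e ∈ A ↔ tgt e ∈ A) then m else 0) := by
        intro e
        by_cases h1 : src e ∈ A <;> by_cases h3 : tgt e ∈ A
        · simp only [hw', h1, h3, if_true, iff_self, not_true, if_false, add_zero]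
          congr 1
          ring
        · have e1 : w (tgt e) = 0 := hnot _ h3
          have e2 := hamin _ h1
          simp only [hw', h1, h3, if_true, if_false, e1, sub_zero, iff_false, not_true,
            not_false_iff]
          rw [abs_of_nonneg (hw _), abs_of_nonneg (by linarith)]
          ring
        · have e1 : w (src e) = 0 := hnot _ h1
          have e2 := hamin _ h3
          simp only [hw', h1, h3, if_true, if_false, e1, zero_sub, false_iff, not_true,
            not_false_iff]
          rw [abs_neg, abs_neg, abs_of_nonneg (hw _), abs_of_nonneg (by linarith)]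
          ring
        · have e1 : w (src e) = 0 := hnot _ h1
          have e2 : w (tgt e) = 0 := hnot _ h3
          simp [hw', h1, h3, e1, e2]
      have hesum : ∑ e, |w (src e) - w (tgt e)| = ∑ e, |w' (src e) - w' (tgt e)| +
          m * (univ.filter (fun e => ¬ (src e ∈ A ↔ tgt e ∈ A))).card := by
        rw [Finset.sum_congr rfl (fun e _ => hedge e), Finset.sum_add_distrib]
        congr 1
        rw [← Finset.sum_filter]
        simp [mul_comm]
      rw [hsum, hesum]
      nlinarith [mul_le_mul_of_nonneg_left hex hmpos.le]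
    · rw [Finset.not_nonempty_iff_eq_empty] at hne
      exact ih w hw (by rw [← hA, hne]; simp) (by rw [← hA, hne]; simp)

/-- The degree sum. -/
theorem degsum (src tgt : E → V) (g : V → ℝ) :
    ∑ e, (g (src e) + g (tgt e)) = ∑ v, (deg src tgt v : ℝ) * g v := by
  have h1 : ∀ h : E → V, ∑ e, g (h e) =
      ∑ v, ((univ.filter (fun e => h e = v)).card : ℝ) * g v := by
    intro h
    have : ∀ e, g (h e) = ∑ v, if h e = v then g v else 0 := by
      intro e
      simp
    rw [Finset.sum_congr rfl (fun e _ => this e), Finset.sum_comm]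
    refine Finset.sum_congr rfl (fun v _ => ?_)
    rw [← Finset.sum_filter]
    simp
  rw [Finset.sum_add_distrib, h1 src, h1 tgt, ← Finset.sum_add_distrib]
  refine Finset.sum_congr rfl (fun v _ => ?_)
  unfold deg
  push_cast
  ring

/-- The Cheeger inequality for nonnegative functions of small support. -/
theorem half (src tgt : E → V) (D : ℕ) (hdeg : ∀ v, deg src tgt v ≤ D) (φ : ℝ)
    (hφ : 0 ≤ φ)
    (hexp : ∀ A : Finset V, 2 * A.card ≤ Fintype.card V →
      φ * A.card ≤ (univ.filter (fun e => ¬ (src e ∈ A ↔ tgt e ∈ A))).card)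
    (g : V → ℝ) (hg : ∀ v, 0 ≤ g v)
    (h2 : 2 * (univ.filter (fun v => 0 < g v)).card ≤ Fintype.card V) :
    φ ^ 2 * ∑ v, g v ^ 2 ≤ 2 * D * ∑ e, (g (src e) - g (tgt e)) ^ 2 := by
  have hset : (univ.filter (fun v => 0 < g v ^ 2)) = (univ.filter (fun v => 0 < g v)) := by
    ext v
    simp only [mem_filter, mem_univ, true_and]
    constructor
    · intro h
      rcases (hg v).lt_or_eq with h' | h'
      · exact h'
      · rw [← h'] at h; simp at h
    · intro h; positivity
  have hc := cut src tgt φ hexp (Fintype.card V) (fun v => g v ^ 2) (fun v => sq_nonneg _)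
    (Finset.card_le_univ _) (by rw [hset]; exact h2)
  set G : ℝ := ∑ v, g v ^ 2 with hG
  set Q : ℝ := ∑ e, (g (src e) - g (tgt e)) ^ 2 with hQ
  have hG0 : 0 ≤ G := Finset.sum_nonneg (fun v _ => sq_nonneg _)
  have hQ0 : 0 ≤ Q := Finset.sum_nonneg (fun v _ => sq_nonneg _)
  have hR : ∑ e, (g (src e) + g (tgt e)) ^ 2 ≤ 2 * D * G := by
    have h1 : ∑ e, (g (src e) + g (tgt e)) ^ 2 ≤ ∑ e, 2 * (g (src e) ^ 2 + g (tgt e) ^ 2) := by
      refine Finset.sum_le_sum (fun e _ => ?_)
      nlinarith [sq_nonneg (g (src e) - g (tgt e))]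
    refine h1.trans ?_
    rw [← Finset.mul_sum, degsum src tgt (fun v => g v ^ 2), mul_assoc]
    refine mul_le_mul_of_nonneg_left ?_ (by norm_num)
    rw [hG, Finset.mul_sum]
    refine Finset.sum_le_sum (fun v _ => ?_)
    refine mul_le_mul_of_nonneg_right ?_ (sq_nonneg _)
    exact_mod_cast hdeg v
  have hcs : (∑ e, |g (src e) - g (tgt e)| * |g (src e) + g (tgt e)|) ^ 2 ≤
      Q * ∑ e, (g (src e) + g (tgt e)) ^ 2 := by
    have := Finset.sum_mul_sq_le_sq_mul_sq univ (fun e => |g (src e) - g (tgt e)|)
      (fun e => |g (src e) + g (tgt e)|)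
    simpa only [sq_abs] using this
  have habs : ∑ e, |g (src e) ^ 2 - g (tgt e) ^ 2| =
      ∑ e, |g (src e) - g (tgt e)| * |g (src e) + g (tgt e)| := by
    refine Finset.sum_congr rfl (fun e _ => ?_)
    rw [← abs_mul]
    congr 1
    ring
  have hc' : φ * G ≤ ∑ e, |g (src e) - g (tgt e)| * |g (src e) + g (tgt e)| := by
    rw [← habs]; exact hc
  have hsq : (φ * G) ^ 2 ≤ Q * (2 * D * G) := by
    calc (φ * G) ^ 2 ≤ (∑ e, |g (src e) - g (tgt e)| * |g (src e) + g (tgt e)|) ^ 2 :=
          pow_le_pow_left₀ (mul_nonneg hφ hG0) hc' 2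
      _ ≤ Q * ∑ e, (g (src e) + g (tgt e)) ^ 2 := hcs
      _ ≤ Q * (2 * D * G) := mul_le_mul_of_nonneg_left hR hQ0
  rcases hG0.lt_or_eq with hpos | hz
  · have : (φ ^ 2 * G) * G ≤ (2 * D * Q) * G := by nlinarith
    exact le_of_mul_le_mul_right this hpos
  · rw [← hz]
    have : (0 : ℝ) ≤ 2 * D * Q := by positivity
    simpa using this

/-- The median. -/
theorem median (x : V → ℝ) [Nonempty V] :
    ∃ t : ℝ, 2 * (univ.filter (fun v => t < x v)).card ≤ Fintype.card V ∧
      2 * (univ.filter (fun v => x v < t)).card ≤ Fintype.card V := by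
  set S : Finset V := univ.filter
    (fun v => 2 * (univ.filter (fun u => x v < x u)).card ≤ Fintype.card V) with hS
  have hSne : S.Nonempty := by
    obtain ⟨a, _, ha⟩ := Finset.exists_max_image (univ : Finset V) x univ_nonempty
    refine ⟨a, ?_⟩
    rw [hS, mem_filter]
    refine ⟨mem_univ _, ?_⟩
    have : (univ.filter (fun u => x a < x u)) = ∅ := by
      ext u
      simp only [mem_filter, mem_univ, true_and, notMem_empty, iff_false, not_lt]
      exact ha u (mem_univ _)
    rw [this]; simp
  obtain ⟨a, haS, hamin⟩ := Finset.exists_min_image S x hSne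
  refine ⟨x a, ?_, ?_⟩
  · rw [hS, mem_filter] at haS
    exact haS.2
  · by_contra hcon
    rw [not_le] at hcon
    have hne : (univ.filter (fun v => x v < x a)).Nonempty := by
      rw [← Finset.card_pos]; omega
    obtain ⟨b, hbm, hbmax⟩ := Finset.exists_max_image _ x hne
    have hb : x b < x a := by
      rw [mem_filter] at hbm; exact hbm.2
    have hbS : b ∈ S := by
      rw [hS, mem_filter]
      refine ⟨mem_univ _, ?_⟩
      have hsub : (univ.filter (fun u => x b < x u)) ⊆ (univ.filter (fun v => x v < x a))ᶜ := by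
        intro u hu
        rw [mem_filter] at hu
        rw [mem_compl, mem_filter]
        rintro ⟨_, hu2⟩
        have := hbmax u (by rw [mem_filter]; exact ⟨mem_univ _, hu2⟩)
        linarith [hu.2]
      have h1 := Finset.card_le_card hsub
      rw [Finset.card_compl] at h1
      omega
    have := hamin b hbS
    linarith

/-- The mean minimises the sum of squares. -/
theorem mean_le (x : V → ℝ) (t : ℝ) :
    ∑ v, (x v - (∑ u, x u) / Fintype.card V) ^ 2 ≤ ∑ v, (x v - t) ^ 2 := by
  rcases isEmpty_or_nonempty V with hV | hV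
  · simp
  obtain ⟨n, hn⟩ : ∃ n : ℝ, n = ((Fintype.card V : ℕ) : ℝ) := ⟨_, rfl⟩
  rw [← hn]
  have hn0 : 0 < n := by
    rw [hn]; exact_mod_cast Fintype.card_pos
  set a : ℝ := (∑ u, x u) / n with ha
  have hs : ∑ u, x u = n * a := by rw [ha]; field_simp
  have key : ∑ v, (x v - t) ^ 2 = ∑ v, (x v - a) ^ 2 + n * (a - t) ^ 2 := by
    have h1 : ∀ v, (x v - t) ^ 2 = (x v - a) ^ 2 + (2 * (a - t) * (x v - a) + (a - t) ^ 2) := by
      intro v; ring
    rw [Finset.sum_congr rfl (fun v _ => h1 v), Finset.sum_add_distrib, Finset.sum_add_distrib,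
      ← Finset.mul_sum, Finset.sum_sub_distrib, hs]
    simp only [Finset.sum_const, card_univ, nsmul_eq_mul, ← hn]
    ring
  rw [key]
  have : 0 ≤ n * (a - t) ^ 2 := by positivity
  linarith

end ChgAux

theorem cheeger (src tgt : E → V) (D : ℕ) (hD : 1 ≤ D) (hdeg : ∀ v, deg src tgt v ≤ D) (φ : ℝ)
    (hφ : 0 ≤ φ)
    (hexp : ∀ A : Finset V, 2 * A.card ≤ Fintype.card V →
      φ * A.card ≤ (univ.filter (fun e => ¬ (src e ∈ A ↔ tgt e ∈ A))).card) :
    Poinc src tgt (φ ^ 2 / (2 * D)) := by
  intro x
  have hDpos : (0 : ℝ) < 2 * D := by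
    have : (1 : ℝ) ≤ D := by exact_mod_cast hD
    linarith
  rcases isEmpty_or_nonempty V with hV | hV
  · simp only [univ_eq_empty, sum_empty, mul_zero]
    exact Finset.sum_nonneg (fun e _ => sq_nonneg _)
  obtain ⟨t, ht1, ht2⟩ := ChgAux.median x
  set f : V → ℝ := fun v => max (x v - t) 0 with hf
  set g : V → ℝ := fun v => max (t - x v) 0 with hg
  have hf0 : ∀ v, 0 ≤ f v := fun v => le_max_right _ _
  have hg0 : ∀ v, 0 ≤ g v := fun v => le_max_right _ _
  have hfs : (univ.filter (fun v => 0 < f v)) = (univ.filter (fun v => t < x v)) := by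
    ext v
    simp only [mem_filter, mem_univ, true_and, hf, lt_max_iff, lt_irrefl, or_false, sub_pos]
  have hgs : (univ.filter (fun v => 0 < g v)) = (univ.filter (fun v => x v < t)) := by
    ext v
    simp only [mem_filter, mem_univ, true_and, hg, lt_max_iff, lt_irrefl, or_false, sub_pos]
  have h1 := ChgAux.half src tgt D hdeg φ hφ hexp f hf0 (by rw [hfs]; exact ht1)
  have h2 := ChgAux.half src tgt D hdeg φ hφ hexp g hg0 (by rw [hgs]; exact ht2)
  have hsplit : ∀ v, (x v - t) ^ 2 = f v ^ 2 + g v ^ 2 := by
    intro v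
    simp only [hf, hg]
    rcases le_total (x v) t with h | h
    · rw [max_eq_right (by linarith), max_eq_left (by linarith)]; ring
    · rw [max_eq_left (by linarith), max_eq_right (by linarith)]; ring
  have hedge : ∀ e, (f (src e) - f (tgt e)) ^ 2 + (g (src e) - g (tgt e)) ^ 2 ≤
      (x (src e) - x (tgt e)) ^ 2 := by
    intro e
    simp only [hf, hg]
    rcases le_total (x (src e)) t with h | h <;> rcases le_total (x (tgt e)) t with h' | h'
    · rw [max_eq_right (by linarith), max_eq_left (by linarith : 0 ≤ t - x (src e)),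
        max_eq_right (by linarith), max_eq_left (by linarith : 0 ≤ t - x (tgt e))]
      nlinarith
    · rw [max_eq_right (by linarith), max_eq_left (by linarith : 0 ≤ t - x (src e)),
        max_eq_left (by linarith), max_eq_right (by linarith : t - x (tgt e) ≤ 0)]
      nlinarith [mul_nonneg (sub_nonneg.mpr h) (sub_nonneg.mpr h')]
    · rw [max_eq_left (by linarith : 0 ≤ x (src e) - t), max_eq_right (by linarith),
        max_eq_right (by linarith : t - x (src e) ≤ 0), max_eq_left (by linarith)]
      nlinarith [mul_nonneg (sub_nonneg.mpr h) (sub_nonneg.mpr h')]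
    · rw [max_eq_left (by linarith : 0 ≤ x (src e) - t), max_eq_left (by linarith),
        max_eq_right (by linarith : t - x (src e) ≤ 0), max_eq_right (by linarith)]
      nlinarith
  have hm := ChgAux.mean_le x t
  have hS : ∑ v, (x v - t) ^ 2 = ∑ v, f v ^ 2 + ∑ v, g v ^ 2 := by
    rw [Finset.sum_congr rfl (fun v _ => hsplit v), Finset.sum_add_distrib]
  have hE : ∑ e, (f (src e) - f (tgt e)) ^ 2 + ∑ e, (g (src e) - g (tgt e)) ^ 2 ≤
      ∑ e, (x (src e) - x (tgt e)) ^ 2 := by
    rw [← Finset.sum_add_distrib]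
    exact Finset.sum_le_sum (fun e _ => hedge e)
  rw [div_mul_eq_mul_div, div_le_iff₀ hDpos]
  calc φ ^ 2 * ∑ v, (x v - (∑ u, x u) / Fintype.card V) ^ 2
      ≤ φ ^ 2 * ∑ v, (x v - t) ^ 2 := mul_le_mul_of_nonneg_left hm (sq_nonneg _)
    _ = φ ^ 2 * ∑ v, f v ^ 2 + φ ^ 2 * ∑ v, g v ^ 2 := by rw [hS]; ring
    _ ≤ 2 * D * ∑ e, (f (src e) - f (tgt e)) ^ 2 +
        2 * D * ∑ e, (g (src e) - g (tgt e)) ^ 2 := add_le_add h1 h2
    _ = 2 * D * (∑ e, (f (src e) - f (tgt e)) ^ 2 +
        ∑ e, (g (src e) - g (tgt e)) ^ 2) := by ring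
    _ ≤ 2 * D * ∑ e, (x (src e) - x (tgt e)) ^ 2 :=
        mul_le_mul_of_nonneg_left hE hDpos.le
    _ = (∑ e, (x (src e) - x (tgt e)) ^ 2) * (2 * D) := by ring

end Pool.Agent.P325ad
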