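import Mathlib
import Pool.Agent.Lib.P325ad.Defs

/-!
# P325ad.CntF: the number of permutations with prescribed values, coincidences
-/

open Finset
open scoped BigOperators Classical

namespace Pool.Agent.P325ad

namespace CntFAux

/-- the permutations with the prescribed values `P` -/
noncomputable def FF {N D : ℕ} (P : Finset (Fin D × Fin N × Fin N)) :
    Finset (Fin D → Equiv.Perm (Fin N)) :=
  univ.filter (fun σ : Fin D → Equiv.Perm (Fin N) => ∀ t ∈ P, σ t.1 t.2.1 = t.2.2)

lemma mem_FF {N D : ℕ} {P : Finset (Fin D × Fin N × Fin N)} {σ : Fin D → Equiv.Perm (Fin N)} :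
    σ ∈ FF P ↔ ∀ t ∈ P, σ t.1 t.2.1 = t.2.2 := by
  simp [FF]

lemma step {N D : ℕ} (P : Finset (Fin D × Fin N × Fin N)) (t : Fin D × Fin N × Fin N)
    (ht : t ∉ P) : (FF (insert t P)).card * (N - P.card) ≤ (FF P).card := by
  obtain ⟨i0, x0, y0⟩ := t
  by_cases hx : ∃ z, (i0, x0, z) ∈ P
  · obtain ⟨z, hz⟩ := hx
    have h0 : FF (insert (i0, x0, y0) P) = ∅ := by
      rw [Finset.eq_empty_iff_forall_notMem]
      intro σ hσ
      rw [mem_FF] at hσ
      have h1 := hσ _ (Finset.mem_insert_self _ _)
      have h2 := hσ _ (Finset.mem_insert_of_mem hz)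
      simp only at h1 h2
      apply ht
      rw [← h1, h2]
      exact hz
    rw [h0]
    simp
  · set dom : Finset (Fin N) := P.image (fun t => t.2.1) with hdom
    have hcard : N - P.card ≤ (univ \ (P.filter (fun t => t.1 = i0)).image
        (fun t => t.2.1) : Finset (Fin N)).card := by
      rw [Finset.card_sdiff_of_subset (Finset.subset_univ _), Finset.card_univ, Fintype.card_fin]
      have h1 : ((P.filter (fun t => t.1 = i0)).image (fun t => t.2.1)).card ≤ P.card :=
        Finset.card_image_le.trans (Finset.card_filter_le _ _)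
      omega
    set U : Finset (Fin N) := univ \ (P.filter (fun t => t.1 = i0)).image (fun t => t.2.1) with hU
    have hUmem : ∀ y ∈ U, ∀ z, (i0, y, z) ∉ P := by
      intro y hy z hz
      rw [hU, Finset.mem_sdiff] at hy
      apply hy.2
      rw [Finset.mem_image]
      exact ⟨(i0, y, z), Finset.mem_filter.mpr ⟨hz, rfl⟩, rfl⟩
    have hle : (U ×ˢ FF (insert (i0, x0, y0) P)).card ≤ (FF P).card := by
      apply Finset.card_le_card_of_injOn
        (fun p => Function.update p.2 i0 ((Equiv.swap x0 p.1).trans (p.2 i0)))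
      · rintro ⟨y, σ⟩ hp
        rw [Finset.mem_coe, Finset.mem_product] at hp
        obtain ⟨hy, hσ⟩ := hp
        rw [mem_FF] at hσ
        rw [Finset.mem_coe, mem_FF]
        rintro ⟨i, x, z⟩ hxz
        simp only
        by_cases hi : i = i0
        · subst hi
          rw [Function.update_self, Equiv.trans_apply, Equiv.swap_apply_of_ne_of_ne]
          · exact hσ _ (Finset.mem_insert_of_mem hxz)
          · rintro rfl
            exact hx ⟨z, hxz⟩
          · rintro rfl
            exact hUmem _ hy z hxz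
        · rw [Function.update_of_ne hi]
          exact hσ _ (Finset.mem_insert_of_mem hxz)
      · rintro ⟨y, σ⟩ hp ⟨y', σ'⟩ hp' heq
        rw [Finset.mem_coe, Finset.mem_product] at hp hp'
        simp only at heq
        have h1 := mem_FF.mp hp.2 _ (Finset.mem_insert_self _ _)
        have h1' := mem_FF.mp hp'.2 _ (Finset.mem_insert_self _ _)
        simp only at h1 h1'
        have h2 := congrFun heq i0
        rw [Function.update_self, Function.update_self] at h2
        have h3 : y = y' := by
          have e1 : ((Equiv.swap x0 y).trans (σ i0)) y = y0 := by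
            rw [Equiv.trans_apply, Equiv.swap_apply_right, h1]
          have e2 : ((Equiv.swap x0 y').trans (σ' i0)) y' = y0 := by
            rw [Equiv.trans_apply, Equiv.swap_apply_right, h1']
          rw [← h2] at e2
          exact (Equiv.injective _) (e1.trans e2.symm)
        subst h3
        have h4 : σ i0 = σ' i0 := by
          ext x
          have := congrArg (fun τ : Equiv.Perm (Fin N) => τ (Equiv.swap x0 y x)) h2
          simp only [Equiv.trans_apply, Equiv.swap_apply_self] at this
          rw [this]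
        have h5 : σ = σ' := by
          funext i
          by_cases hi : i = i0
          · rw [hi]; exact h4
          · have := congrFun heq i
            rwa [Function.update_of_ne hi, Function.update_of_ne hi] at this
        rw [h5]
    rw [Finset.card_product] at hle
    calc _ = (N - P.card) * (FF (insert (i0, x0, y0) P)).card := mul_comm _ _
      _ ≤ U.card * (FF (insert (i0, x0, y0) P)).card := Nat.mul_le_mul_right _ hcard
      _ ≤ _ := hle

lemma card_all (N D : ℕ) :
    (univ : Finset (Fin D → Equiv.Perm (Fin N))).card = N.factorial ^ D := by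
  rw [Finset.card_univ, Fintype.card_fun, Fintype.card_perm, Fintype.card_fin, Fintype.card_fin]

lemma main {N D : ℕ} (m : ℕ) (P : Finset (Fin D × Fin N × Fin N)) (hP : P.card ≤ m) :
    (FF P).card * (N - m) ^ P.card ≤ N.factorial ^ D := by
  induction P using Finset.induction_on with
  | empty =>
    rw [Finset.card_empty, pow_zero, mul_one, ← card_all N D]
    exact Finset.card_le_card (Finset.subset_univ _)
  | insert t P ht ih =>
    rw [Finset.card_insert_of_notMem ht] at hP ⊢
    have h1 := ih (by omega)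
    have h2 := step P t ht
    calc (FF (insert t P)).card * (N - m) ^ (P.card + 1) =
        (FF (insert t P)).card * (N - m) * (N - m) ^ P.card := by rw [pow_succ]; ring
      _ ≤ (FF (insert t P)).card * (N - P.card) * (N - m) ^ P.card := by
          apply Nat.mul_le_mul_right
          apply Nat.mul_le_mul_left
          omega
      _ ≤ (FF P).card * (N - m) ^ P.card := Nat.mul_le_mul_right _ h2
      _ ≤ _ := h1

/-- repeated edges -/
noncomputable def rep {N D : ℕ} (σ : Fin D → Equiv.Perm (Fin N)) : Finset (Fin D × Fin N) :=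
  univ.filter (fun p => ∃ i' < p.1, σ i' p.2 = σ p.1 p.2)

lemma card_le_edg {N D : ℕ} (σ : Fin D → Equiv.Perm (Fin N)) :
    D * N ≤ (edg σ).card + (rep σ).card := by
  have h1 : (univ \ rep σ).card ≤ (edg σ).card := by
    apply Finset.card_le_card_of_injOn (fun p => (p.2, σ p.1 p.2))
    · intro p _
      rw [Finset.mem_coe, edg, Finset.mem_image]
      exact ⟨p, Finset.mem_univ _, rfl⟩
    · rintro ⟨i, x⟩ hp ⟨i', x'⟩ hp' heq
      simp only [Prod.mk.injEq] at heq
      obtain ⟨rfl, h2⟩ := heq
      rw [Finset.mem_coe, Finset.mem_sdiff, rep, Finset.mem_filter] at hp hp'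
      rcases lt_trichotomy i i' with h | h | h
      · exact absurd ⟨Finset.mem_univ _, i, h, h2⟩ hp'.2
      · rw [h]
      · exact absurd ⟨Finset.mem_univ _, i', h, h2.symm⟩ hp.2
  have h2 : (univ \ rep σ).card = D * N - (rep σ).card := by
    rw [Finset.card_sdiff_of_subset (Finset.subset_univ _), Finset.card_univ, Fintype.card_prod,
      Fintype.card_fin, Fintype.card_fin]
  omega

lemma card_pair {N D : ℕ} {i i' : Fin D} (hne : i' ≠ i) (x : Fin N) :
    (univ.filter (fun σ : Fin D → Equiv.Perm (Fin N) => σ i' x = σ i x)).card * (N - 2) ^ 2 ≤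
      N * N.factorial ^ D := by
  have h1 : (univ.filter (fun σ : Fin D → Equiv.Perm (Fin N) => σ i' x = σ i x)) ⊆
      univ.biUnion (fun y : Fin N => FF {(i', x, y), (i, x, y)}) := by
    intro σ hσ
    rw [Finset.mem_filter] at hσ
    rw [Finset.mem_biUnion]
    refine ⟨σ i x, Finset.mem_univ _, ?_⟩
    rw [mem_FF]
    intro t ht
    rw [Finset.mem_insert, Finset.mem_singleton] at ht
    rcases ht with rfl | rfl
    · exact hσ.2
    · rfl
  have h2 : ∀ y : Fin N, (FF ({(i', x, y), (i, x, y)} : Finset (Fin D × Fin N × Fin N))).card *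
      (N - 2) ^ 2 ≤ N.factorial ^ D := by
    intro y
    have hc : ({(i', x, y), (i, x, y)} : Finset (Fin D × Fin N × Fin N)).card = 2 := by
      rw [Finset.card_pair]
      intro h
      exact hne (congrArg Prod.fst h)
    have := main 2 ({(i', x, y), (i, x, y)} : Finset (Fin D × Fin N × Fin N)) hc.le
    rwa [hc] at this
  calc _ ≤ (∑ y : Fin N, (FF ({(i', x, y), (i, x, y)} :
        Finset (Fin D × Fin N × Fin N))).card) * (N - 2) ^ 2 := by
        apply Nat.mul_le_mul_right
        exact (Finset.card_le_card h1).trans Finset.card_biUnion_le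
    _ = ∑ y : Fin N, (FF ({(i', x, y), (i, x, y)} :
        Finset (Fin D × Fin N × Fin N))).card * (N - 2) ^ 2 := by rw [Finset.sum_mul]
    _ ≤ ∑ _y : Fin N, N.factorial ^ D := Finset.sum_le_sum (fun y _ => h2 y)
    _ = N * N.factorial ^ D := by simp

lemma sum_rep {N D : ℕ} :
    2 * ((∑ σ : Fin D → Equiv.Perm (Fin N), (rep σ).card) * (N - 2) ^ 2) ≤
      D ^ 2 * (N * (N * N.factorial ^ D)) := by
  have h1 : ∑ σ : Fin D → Equiv.Perm (Fin N), (rep σ).card =
      ∑ p : Fin D × Fin N, (univ.filter (fun σ : Fin D → Equiv.Perm (Fin N) =>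
        ∃ i' < p.1, σ i' p.2 = σ p.1 p.2)).card := by
    simp only [rep, Finset.card_filter]
    exact Finset.sum_comm
  have h2 : ∀ p : Fin D × Fin N, (univ.filter (fun σ : Fin D → Equiv.Perm (Fin N) =>
        ∃ i' < p.1, σ i' p.2 = σ p.1 p.2)).card * (N - 2) ^ 2 ≤
        (p.1 : ℕ) * (N * N.factorial ^ D) := by
    intro p
    have h3 : (univ.filter (fun σ : Fin D → Equiv.Perm (Fin N) =>
        ∃ i' < p.1, σ i' p.2 = σ p.1 p.2)) ⊆ (Finset.Iio p.1).biUnion (fun i' =>
        univ.filter (fun σ : Fin D → Equiv.Perm (Fin N) => σ i' p.2 = σ p.1 p.2)) := by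
      intro σ hσ
      rw [Finset.mem_filter] at hσ
      obtain ⟨-, i', hi', h⟩ := hσ
      rw [Finset.mem_biUnion]
      exact ⟨i', Finset.mem_Iio.mpr hi', Finset.mem_filter.mpr ⟨Finset.mem_univ _, h⟩⟩
    calc _ ≤ (∑ i' ∈ Finset.Iio p.1, (univ.filter (fun σ : Fin D → Equiv.Perm (Fin N) =>
          σ i' p.2 = σ p.1 p.2)).card) * (N - 2) ^ 2 := by
          apply Nat.mul_le_mul_right
          exact (Finset.card_le_card h3).trans Finset.card_biUnion_le
      _ = ∑ i' ∈ Finset.Iio p.1, (univ.filter (fun σ : Fin D → Equiv.Perm (Fin N) =>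
          σ i' p.2 = σ p.1 p.2)).card * (N - 2) ^ 2 := by rw [Finset.sum_mul]
      _ ≤ ∑ _i' ∈ Finset.Iio p.1, N * N.factorial ^ D :=
          Finset.sum_le_sum (fun i' hi' => card_pair (Finset.mem_Iio.mp hi').ne p.2)
      _ = _ := by rw [Finset.sum_const, Fin.card_Iio, smul_eq_mul]
  have h4 : 2 * ∑ i : Fin D, (i : ℕ) ≤ D ^ 2 := by
    rw [Fin.sum_univ_eq_sum_range (fun i => i) D, mul_comm, Finset.sum_range_id_mul_two, pow_two]
    exact Nat.mul_le_mul_left _ (Nat.sub_le _ _)
  rw [h1, Finset.sum_mul]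
  calc _ ≤ 2 * ∑ p : Fin D × Fin N, (p.1 : ℕ) * (N * N.factorial ^ D) :=
        Nat.mul_le_mul_left _ (Finset.sum_le_sum (fun p _ => h2 p))
    _ = (2 * ∑ i : Fin D, (i : ℕ)) * (N * (N * N.factorial ^ D)) := by
        rw [Fintype.sum_prod_type]
        simp only [Finset.sum_const, Finset.card_univ, Fintype.card_fin, smul_eq_mul]
        rw [← Finset.mul_sum, ← Finset.sum_mul]
        ring
    _ ≤ _ := Nat.mul_le_mul_right _ h4

end CntFAux

theorem cnt_fix {N D : ℕ} (P : Finset (Fin D × Fin N × Fin N)) :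
    (univ.filter (fun σ : Fin D → Equiv.Perm (Fin N) => ∀ t ∈ P, σ t.1 t.2.1 = t.2.2)).card *
      (N - P.card) ^ P.card ≤ N.factorial ^ D :=
  CntFAux.main P.card P le_rfl

theorem edg_card_most {N D : ℕ} (hN : 4 ≤ N) :
    (univ.filter (fun σ : Fin D → Equiv.Perm (Fin N) =>
      (edg σ).card + 8 * D ^ 2 < D * N)).card * 4 ≤ N.factorial ^ D := by
  set A := (univ.filter (fun σ : Fin D → Equiv.Perm (Fin N) =>
      (edg σ).card + 8 * D ^ 2 < D * N)) with hA
  have h1 : A.card * (8 * D ^ 2) ≤ ∑ σ : Fin D → Equiv.Perm (Fin N), (CntFAux.rep σ).card := by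
    calc A.card * (8 * D ^ 2) = ∑ _σ ∈ A, 8 * D ^ 2 := by rw [Finset.sum_const, smul_eq_mul]
      _ ≤ ∑ σ ∈ A, (CntFAux.rep σ).card := by
          apply Finset.sum_le_sum
          intro σ hσ
          rw [hA, Finset.mem_filter] at hσ
          have := CntFAux.card_le_edg σ
          omega
      _ ≤ _ := Finset.sum_le_sum_of_subset (Finset.subset_univ _)
  have h2 := CntFAux.sum_rep (N := N) (D := D)
  have hN2 : N * N ≤ 4 * (N - 2) ^ 2 := by
    obtain ⟨M, rfl⟩ : ∃ M, N = M + 2 := ⟨N - 2, by omega⟩
    simp only [Nat.add_sub_cancel]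
    nlinarith
  rcases Nat.eq_zero_or_pos D with rfl | hD
  · have : A = ∅ := by
      rw [hA, Finset.filter_eq_empty_iff]
      intro σ _
      simp
    rw [this]
    simp
  · have hpos : 0 < D ^ 2 * (N - 2) ^ 2 := by
      have : 0 < N - 2 := by omega
      positivity
    have h3 : A.card * 4 * (4 * (D ^ 2 * (N - 2) ^ 2)) ≤
        N.factorial ^ D * (4 * (D ^ 2 * (N - 2) ^ 2)) := by
      calc A.card * 4 * (4 * (D ^ 2 * (N - 2) ^ 2)) =
          2 * ((A.card * (8 * D ^ 2)) * (N - 2) ^ 2) := by ring
        _ ≤ 2 * ((∑ σ : Fin D → Equiv.Perm (Fin N), (CntFAux.rep σ).card) * (N - 2) ^ 2) :=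
            Nat.mul_le_mul_left _ (Nat.mul_le_mul_right _ h1)
        _ ≤ D ^ 2 * (N * (N * N.factorial ^ D)) := h2
        _ = N.factorial ^ D * (D ^ 2 * (N * N)) := by ring
        _ ≤ N.factorial ^ D * (D ^ 2 * (4 * (N - 2) ^ 2)) :=
            Nat.mul_le_mul_left _ (Nat.mul_le_mul_left _ hN2)
        _ = _ := by ring
    exact Nat.le_of_mul_le_mul_right h3 (by omega)

end Pool.Agent.P325ad
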