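import Mathlib
import Pool.Agent.Lib.P325ad.Defs

/-!
# P325ad.CycA: short cycles as cyclic sequences
-/

open Finset
open scoped BigOperators Classical

namespace Pool.Agent.P325ad

open Pool.Agent.P325ac (gr NoShort)

/-- The injective cyclic sequences of length `n + 1` of vertices with consecutive ones adjacent. -/
noncomputable def cyc {N : ℕ} (Ed : Finset (Fin N × Fin N)) (n : ℕ) :
    Finset (Fin (n + 1) → Fin N ⊕ Fin N) :=
  univ.filter (fun s => Function.Injective s ∧ ∀ j, (gr Ed).Adj (s j) (s (j + 1)))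

namespace CycAAux

theorem gr_mono {N : ℕ} {A B : Finset (Fin N × Fin N)} (h : A ⊆ B) : gr A ≤ gr B := by
  intro u v huv
  rcases huv with ⟨p, hp, h1, h2⟩ | ⟨p, hp, h1, h2⟩
  · exact Or.inl ⟨p, h hp, h1, h2⟩
  · exact Or.inr ⟨p, h hp, h1, h2⟩

theorem exists_seq {N : ℕ} {Ed : Finset (Fin N × Fin N)} {v : Fin N ⊕ Fin N}
    (c : (gr Ed).Walk v v) (hc : c.IsCycle) (p : Fin N × Fin N)
    (hp : s(Sum.inl p.1, Sum.inr p.2) ∈ c.edges) (n : ℕ) (hn : c.length = n + 1) :
    ∃ s ∈ cyc Ed n, ∃ j : Fin (n + 1), s(Sum.inl p.1, Sum.inr p.2) = s(s j, s (j + 1)) := by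
  have hnext : ∀ j : Fin (n + 1), c.getVert ((j + 1 : Fin (n + 1)) : ℕ) =
      c.getVert ((j : ℕ) + 1) := by
    intro j
    by_cases hj : (j : ℕ) = n
    · have h1 : (j + 1 : Fin (n + 1)) = 0 := by
        have : j = Fin.last n := Fin.ext hj
        rw [this]
        exact Fin.last_add_one n
      have h2 : c.getVert ((0 : Fin (n + 1)) : ℕ) = v := SimpleGraph.Walk.getVert_zero c
      have h3 : c.getVert (n + 1) = v := hn ▸ SimpleGraph.Walk.getVert_length c
      rw [h1, hj, h2, h3]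
    · have h1 : ((j + 1 : Fin (n + 1)) : ℕ) = (j : ℕ) + 1 :=
        Fin.val_add_one_of_lt' (by have := j.2; omega)
      rw [h1]
  refine ⟨fun j => c.getVert j, ?_, ?_⟩
  · unfold cyc
    rw [mem_filter]
    refine ⟨mem_univ _, ?_, ?_⟩
    · intro a b hab
      have h1 := hc.getVert_injOn'
      have h2 := h1 (show (a : ℕ) ≤ c.length - 1 by have := a.2; omega)
        (show (b : ℕ) ≤ c.length - 1 by have := b.2; omega) hab
      exact Fin.ext h2
    · intro j
      show (gr Ed).Adj (c.getVert j) (c.getVert ((j + 1 : Fin (n + 1)) : ℕ))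
      rw [hnext]
      exact c.adj_getVert_succ (by have := j.2; omega)
  · obtain ⟨i, hi, he⟩ := (c.mk_mem_edges_iff_exists).mp hp
    refine ⟨⟨i, by omega⟩, ?_⟩
    show s(Sum.inl p.1, Sum.inr p.2) = s(c.getVert i,
      c.getVert (((⟨i, by omega⟩ : Fin (n + 1)) + 1 : Fin (n + 1)) : ℕ))
    rw [hnext]
    exact he.symm

theorem pair_inj {N : ℕ} {p q : Fin N × Fin N}
    (h : (s(Sum.inl p.1, Sum.inr p.2) : Sym2 (Fin N ⊕ Fin N)) = s(Sum.inl q.1, Sum.inr q.2)) :
    p = q := by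
  rw [Sym2.eq_iff] at h
  rcases h with ⟨h1, h2⟩ | ⟨h1, h2⟩
  · exact Prod.ext (Sum.inl_injective h1) (Sum.inr_injective h2)
  · exact absurd h1 (by simp)

end CycAAux

open CycAAux

theorem bad_card {N : ℕ} (Ed : Finset (Fin N × Fin N)) (g : ℕ) :
    (bad Ed g).card ≤ ∑ n ∈ Finset.Ico 2 g, (n + 1) * (cyc Ed n).card := by
  have h1 : bad Ed g ⊆ (Finset.Ico 2 g).biUnion (fun n => ((cyc Ed n).biUnion (fun s =>
      (univ : Finset (Fin (n + 1))).biUnion (fun j =>
        univ.filter (fun p : Fin N × Fin N =>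
          s(Sum.inl p.1, Sum.inr p.2) = s(s j, s (j + 1))))))) := by
    intro p hp
    unfold bad at hp
    rw [mem_filter] at hp
    obtain ⟨hpE, v, c, hc, hl, he⟩ := hp
    have h3 := hc.three_le_length
    obtain ⟨n, hn⟩ : ∃ n, c.length = n + 1 := ⟨c.length - 1, by omega⟩
    obtain ⟨s, hs, j, hj⟩ := exists_seq c hc p he n hn
    rw [mem_biUnion]
    refine ⟨n, mem_Ico.mpr ⟨by omega, by omega⟩, ?_⟩
    rw [mem_biUnion]
    refine ⟨s, hs, ?_⟩
    rw [mem_biUnion]
    exact ⟨j, mem_univ _, mem_filter.mpr ⟨mem_univ _, hj⟩⟩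
  refine (card_le_card h1).trans (card_biUnion_le.trans (sum_le_sum fun n _ => ?_))
  refine card_biUnion_le.trans ?_
  calc ∑ s ∈ cyc Ed n, ((univ : Finset (Fin (n + 1))).biUnion (fun j =>
        univ.filter (fun p : Fin N × Fin N =>
          s(Sum.inl p.1, Sum.inr p.2) = s(s j, s (j + 1))))).card ≤
      ∑ _s ∈ cyc Ed n, (n + 1) := by
        refine sum_le_sum fun s _ => card_biUnion_le.trans ?_
        calc ∑ j : Fin (n + 1), (univ.filter (fun p : Fin N × Fin N =>
          s(Sum.inl p.1, Sum.inr p.2) = s(s j, s (j + 1)))).card ≤ ∑ _j : Fin (n + 1), 1 := by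
              refine sum_le_sum fun j _ => card_le_one.mpr ?_
              intro a ha b hb
              rw [mem_filter] at ha hb
              exact pair_inj (ha.2.trans hb.2.symm)
          _ = n + 1 := by simp
    _ = (n + 1) * (cyc Ed n).card := by rw [sum_const, smul_eq_mul, mul_comm]

theorem bad_noShort {N : ℕ} (Ed : Finset (Fin N × Fin N)) (g : ℕ) :
    NoShort (gr (Ed \ bad Ed g)) g := by
  intro v c hc
  by_contra hcon
  have hl : c.length ≤ g := not_lt.mp hcon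
  have hle : gr (Ed \ bad Ed g) ≤ gr Ed := gr_mono sdiff_subset
  have hadj := c.adj_getVert_succ (i := 0) (by have := hc.three_le_length; omega)
  have hmem : s(c.getVert 0, c.getVert (0 + 1)) ∈ c.edges :=
    (c.mk_mem_edges_iff_exists).mpr ⟨0, by have := hc.three_le_length; omega, rfl⟩
  obtain ⟨p, hp, hpe⟩ : ∃ p ∈ Ed \ bad Ed g,
      (s(Sum.inl p.1, Sum.inr p.2) : Sym2 (Fin N ⊕ Fin N)) =
        s(c.getVert 0, c.getVert (0 + 1)) := by
    rcases hadj with ⟨p, hp, h1, h2⟩ | ⟨p, hp, h1, h2⟩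
    · exact ⟨p, hp, by rw [h1, h2]⟩
    · exact ⟨p, hp, by rw [h1, h2, Sym2.eq_swap]⟩
  rw [← hpe] at hmem
  rw [mem_sdiff] at hp
  apply hp.2
  unfold bad
  rw [mem_filter]
  refine ⟨hp.1, v, c.mapLe hle, (SimpleGraph.Walk.isCycle_mapLe hle).mpr hc, ?_, ?_⟩
  · rw [SimpleGraph.Walk.length_mapLe]
    exact hl
  · rw [SimpleGraph.Walk.edges_mapLe_eq_edges]
    exact hmem

end Pool.Agent.P325ad
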