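import Mathlib
import Pool.Agent.Lib.P325ad.Defs
import Pool.Agent.Lib.P325ad.CycA
import Pool.Agent.Lib.P325ad.CntF

/-!
# P325ad.CycB: the number of short cycles of a random graph
-/

open Finset
open scoped BigOperators Classical

namespace Pool.Agent.P325ad

namespace CycBAux

theorem fin_two {n : ℕ} (hn : 2 ≤ n) (k : Fin (n + 1)) : k ≠ k + 1 + 1 := by
  intro h
  have h1 : (1 + 1 : Fin (n + 1)) = 0 := by
    have h2 : k + 0 = k + (1 + 1) := by rw [add_zero, ← add_assoc]; exact h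
    exact (add_left_cancel h2).symm
  have h3 := congrArg Fin.val h1
  rw [Fin.val_add, Fin.val_zero, Fin.val_one', Nat.mod_eq_of_lt (by omega : 1 < n + 1),
    Nat.mod_eq_of_lt (by omega : 1 + 1 < n + 1)] at h3
  omega

theorem one {N D n : ℕ} (hn : 2 ≤ n) {s : Fin (n + 1) → Fin N ⊕ Fin N}
    (hs : Function.Injective s) :
    (univ.filter (fun σ : Fin D → Equiv.Perm (Fin N) =>
      ∀ j, (Pool.Agent.P325ac.gr (edg σ)).Adj (s j) (s (j + 1)))).card *
        (N - (n + 1)) ^ (n + 1) ≤ D ^ (n + 1) * N.factorial ^ D := by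
  by_cases hex : ∃ σ : Fin D → Equiv.Perm (Fin N),
      ∀ j, (Pool.Agent.P325ac.gr (edg σ)).Adj (s j) (s (j + 1))
  · obtain ⟨σ₀, h₀⟩ := hex
    have h1 : ∀ j, ∃ p : Fin N × Fin N, (s j = Sum.inl p.1 ∧ s (j + 1) = Sum.inr p.2) ∨
        (s j = Sum.inr p.2 ∧ s (j + 1) = Sum.inl p.1) := by
      intro j
      rcases h₀ j with ⟨p, _, h2⟩ | ⟨p, _, h2⟩
      · exact ⟨p, Or.inl h2⟩
      · exact ⟨p, Or.inr h2⟩
    choose e he using h1
    have hinj : Function.Injective e := by
      intro j k hjk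
      rcases he j with ⟨a1, a2⟩ | ⟨a1, a2⟩ <;> rcases he k with ⟨b1, b2⟩ | ⟨b1, b2⟩
      · exact hs (by rw [a1, b1, hjk])
      · exfalso
        have c1 : j = k + 1 := hs (by rw [a1, b2, hjk])
        have c2 : j + 1 = k := hs (by rw [a2, b1, hjk])
        rw [c1] at c2
        exact fin_two hn k c2.symm
      · exfalso
        have c1 : j = k + 1 := hs (by rw [a1, b2, hjk])
        have c2 : j + 1 = k := hs (by rw [a2, b1, hjk])
        rw [c1] at c2
        exact fin_two hn k c2.symm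
      · exact hs (by rw [a1, b1, hjk])
    have hsub : (univ.filter (fun σ : Fin D → Equiv.Perm (Fin N) =>
        ∀ j, (Pool.Agent.P325ac.gr (edg σ)).Adj (s j) (s (j + 1)))) ⊆
        (univ : Finset (Fin (n + 1) → Fin D)).biUnion (fun i =>
          univ.filter (fun σ : Fin D → Equiv.Perm (Fin N) =>
            ∀ t ∈ univ.image (fun j : Fin (n + 1) => (i j, e j)), σ t.1 t.2.1 = t.2.2)) := by
      intro σ hσ
      have hσ := (mem_filter.1 hσ).2
      have h2 : ∀ j, ∃ i : Fin D, σ i (e j).1 = (e j).2 := by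
        intro j
        have h3 : e j ∈ edg σ := by
          rcases hσ j with ⟨p, hp, q1, q2⟩ | ⟨p, hp, q1, q2⟩ <;> rcases he j with ⟨b1, b2⟩ | ⟨b1, b2⟩
          · rw [q1] at b1
            rw [q2] at b2
            have : p = e j := Prod.ext (Sum.inl.inj b1) (Sum.inr.inj b2)
            rw [← this]; exact hp
          · rw [q1] at b1
            exact absurd b1 (by simp)
          · rw [q1] at b1
            exact absurd b1 (by simp)
          · rw [q1] at b1
            rw [q2] at b2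
            have : p = e j := Prod.ext (Sum.inl.inj b2) (Sum.inr.inj b1)
            rw [← this]; exact hp
        unfold edg at h3
        obtain ⟨⟨i, x⟩, -, hq⟩ := mem_image.1 h3
        refine ⟨i, ?_⟩
        rw [← hq]
      choose i hi using h2
      refine mem_biUnion.2 ⟨i, mem_univ _, mem_filter.2 ⟨mem_univ _, ?_⟩⟩
      intro t ht
      obtain ⟨j, -, rfl⟩ := mem_image.1 ht
      exact hi j
    have hcard : ∀ i : Fin (n + 1) → Fin D,
        (univ.image (fun j : Fin (n + 1) => (i j, e j))).card = n + 1 := by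
      intro i
      rw [card_image_of_injective _ (fun j k hjk => hinj (Prod.ext_iff.1 hjk).2), card_univ,
        Fintype.card_fin]
    calc (univ.filter (fun σ : Fin D → Equiv.Perm (Fin N) =>
        ∀ j, (Pool.Agent.P325ac.gr (edg σ)).Adj (s j) (s (j + 1)))).card *
          (N - (n + 1)) ^ (n + 1)
        ≤ (∑ i : Fin (n + 1) → Fin D, (univ.filter (fun σ : Fin D → Equiv.Perm (Fin N) =>
            ∀ t ∈ univ.image (fun j : Fin (n + 1) => (i j, e j)), σ t.1 t.2.1 = t.2.2)).card) *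
          (N - (n + 1)) ^ (n + 1) :=
          Nat.mul_le_mul_right _ ((card_le_card hsub).trans card_biUnion_le)
      _ = ∑ i : Fin (n + 1) → Fin D, (univ.filter (fun σ : Fin D → Equiv.Perm (Fin N) =>
            ∀ t ∈ univ.image (fun j : Fin (n + 1) => (i j, e j)), σ t.1 t.2.1 = t.2.2)).card *
          (N - (n + 1)) ^ (n + 1) := sum_mul _ _ _
      _ ≤ ∑ i : Fin (n + 1) → Fin D, N.factorial ^ D := by
          refine sum_le_sum (fun i _ => ?_)
          have h5 := cnt_fix (univ.image (fun j : Fin (n + 1) => (i j, e j)))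
          rw [hcard i] at h5
          exact h5
      _ = D ^ (n + 1) * N.factorial ^ D := by
          rw [sum_const, card_univ, smul_eq_mul]
          simp
  · have h2 : (univ.filter (fun σ : Fin D → Equiv.Perm (Fin N) =>
        ∀ j, (Pool.Agent.P325ac.gr (edg σ)).Adj (s j) (s (j + 1)))) = ∅ := by
      refine filter_eq_empty_iff.2 (fun σ _ h => hex ⟨σ, h⟩)
    rw [h2, card_empty, zero_mul]
    exact Nat.zero_le _

theorem two_pow {N m : ℕ} (h : 2 * m ^ 2 ≤ N) : N ^ m ≤ 2 * (N - m) ^ m := by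
  rcases Nat.eq_zero_or_pos m with rfl | hm
  · simp
  have hN : m ≤ N := by nlinarith
  have hN0 : (0 : ℝ) < N := Nat.cast_pos.2 (by omega)
  have h1 : (1 : ℝ) + m * (-((m : ℝ) / N)) ≤ (1 + -((m : ℝ) / N)) ^ m := by
    apply one_add_mul_le_pow
    have : (m : ℝ) / N ≤ 1 := by
      rw [div_le_one hN0]
      exact_mod_cast hN
    linarith
  have h2 : (m : ℝ) * (m / N) ≤ 1 / 2 := by
    rw [← mul_div_assoc, div_le_iff₀ hN0]
    have : (2 : ℝ) * (m : ℝ) ^ 2 ≤ N := by exact_mod_cast h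
    nlinarith
  have h3 : (1 : ℝ) / 2 ≤ (1 + -((m : ℝ) / N)) ^ m := by linarith
  have h4 : ((N - m : ℕ) : ℝ) = N * (1 + -((m : ℝ) / N)) := by
    rw [Nat.cast_sub hN]
    field_simp
    ring
  have h5 : (N : ℝ) ^ m ≤ 2 * ((N - m : ℕ) : ℝ) ^ m := by
    rw [h4, mul_pow]
    have : (0 : ℝ) < (N : ℝ) ^ m := by positivity
    nlinarith
  exact_mod_cast h5

theorem geo {b : ℕ} (hb : 2 ≤ b) (g : ℕ) : ∑ n ∈ Ico 2 g, b ^ (n + 1) ≤ 2 * b ^ g := by
  have h : ∀ g, (∑ n ∈ range g, b ^ (n + 1)) + 2 ≤ 2 * b ^ g := by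
    intro g
    induction g with
    | zero => simp
    | succ g ih =>
      rw [sum_range_succ]
      have h1 : 2 * b ^ g ≤ b ^ (g + 1) := by
        rw [pow_succ, mul_comm]
        exact Nat.mul_le_mul_left _ hb
      omega
  have h2 : ∑ n ∈ Ico 2 g, b ^ (n + 1) ≤ ∑ n ∈ range g, b ^ (n + 1) := by
    refine sum_le_sum_of_subset (fun x hx => ?_)
    exact mem_range.2 (mem_Ico.1 hx).2
  have := h g
  omega

end CycBAux

theorem cyc_sum {N D n : ℕ} (hn : 2 ≤ n) :
    (∑ σ : Fin D → Equiv.Perm (Fin N), (cyc (edg σ) n).card) * (N - (n + 1)) ^ (n + 1) ≤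
      (2 * N) ^ (n + 1) * D ^ (n + 1) * N.factorial ^ D := by
  have h1 : ∑ σ : Fin D → Equiv.Perm (Fin N), (cyc (edg σ) n).card =
      ∑ s : Fin (n + 1) → Fin N ⊕ Fin N, (univ.filter (fun σ : Fin D → Equiv.Perm (Fin N) =>
        Function.Injective s ∧
          ∀ j, (Pool.Agent.P325ac.gr (edg σ)).Adj (s j) (s (j + 1)))).card := by
    unfold cyc
    simp only [card_filter]
    exact sum_comm
  rw [h1, sum_mul]
  calc ∑ s : Fin (n + 1) → Fin N ⊕ Fin N, (univ.filter (fun σ : Fin D → Equiv.Perm (Fin N) =>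
        Function.Injective s ∧
          ∀ j, (Pool.Agent.P325ac.gr (edg σ)).Adj (s j) (s (j + 1)))).card *
            (N - (n + 1)) ^ (n + 1)
      ≤ ∑ s : Fin (n + 1) → Fin N ⊕ Fin N, D ^ (n + 1) * N.factorial ^ D := by
        refine sum_le_sum (fun s _ => ?_)
        by_cases hs : Function.Injective s
        · simp only [hs, true_and]
          exact CycBAux.one hn hs
        · simp only [hs, false_and, filter_false, card_empty, zero_mul]
          exact Nat.zero_le _
    _ = (2 * N) ^ (n + 1) * D ^ (n + 1) * N.factorial ^ D := by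
        rw [sum_const, card_univ, smul_eq_mul]
        simp only [Fintype.card_fun, Fintype.card_sum, Fintype.card_fin]
        ring

theorem bad_most {N D g : ℕ} (hD : 1 ≤ D) (hg : 2 * g ^ 2 ≤ N) (hg1 : 1 ≤ g) :
    (univ.filter (fun σ : Fin D → Equiv.Perm (Fin N) =>
      16 * g * (2 * D) ^ g < (bad (edg σ) g).card)).card * 4 ≤ N.factorial ^ D := by
  have hc : ∀ n ∈ Ico 2 g, ∑ σ : Fin D → Equiv.Perm (Fin N), (cyc (edg σ) n).card ≤
      2 * (2 * D) ^ (n + 1) * N.factorial ^ D := by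
    intro n hn
    have hn' := mem_Ico.1 hn
    have h1 := cyc_sum (N := N) (D := D) hn'.1
    have h2 : 2 * (n + 1) ^ 2 ≤ N := by
      have : (n + 1) ^ 2 ≤ g ^ 2 := Nat.pow_le_pow_left (by omega) 2
      omega
    have h3 := CycBAux.two_pow h2
    have hpos : 0 < (N - (n + 1)) ^ (n + 1) := by
      apply Nat.pow_pos
      have : n + 1 < 2 * (n + 1) ^ 2 := by nlinarith
      omega
    refine Nat.le_of_mul_le_mul_right ?_ hpos
    refine h1.trans ?_
    calc (2 * N) ^ (n + 1) * D ^ (n + 1) * N.factorial ^ D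
        = N ^ (n + 1) * ((2 * D) ^ (n + 1) * N.factorial ^ D) := by
          rw [mul_pow, mul_pow]; ring
      _ ≤ (2 * (N - (n + 1)) ^ (n + 1)) * ((2 * D) ^ (n + 1) * N.factorial ^ D) :=
          Nat.mul_le_mul_right _ h3
      _ = _ := by ring
  have hsum : ∑ σ : Fin D → Equiv.Perm (Fin N), (bad (edg σ) g).card ≤
      4 * g * (2 * D) ^ g * N.factorial ^ D := by
    calc ∑ σ : Fin D → Equiv.Perm (Fin N), (bad (edg σ) g).card
        ≤ ∑ σ : Fin D → Equiv.Perm (Fin N), ∑ n ∈ Ico 2 g, (n + 1) * (cyc (edg σ) n).card :=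
          sum_le_sum (fun σ _ => bad_card (edg σ) g)
      _ = ∑ n ∈ Ico 2 g, (n + 1) * ∑ σ : Fin D → Equiv.Perm (Fin N), (cyc (edg σ) n).card := by
          rw [sum_comm]
          exact sum_congr rfl (fun n _ => (mul_sum _ _ _).symm)
      _ ≤ ∑ n ∈ Ico 2 g, g * (2 * (2 * D) ^ (n + 1) * N.factorial ^ D) := by
          refine sum_le_sum (fun n hn => Nat.mul_le_mul ?_ (hc n hn))
          have := (mem_Ico.1 hn).2
          omega
      _ = 2 * g * N.factorial ^ D * ∑ n ∈ Ico 2 g, (2 * D) ^ (n + 1) := by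
          rw [mul_sum]
          exact sum_congr rfl (fun n _ => by ring)
      _ ≤ 2 * g * N.factorial ^ D * (2 * (2 * D) ^ g) :=
          Nat.mul_le_mul_left _ (CycBAux.geo (by omega) g)
      _ = _ := by ring
  have hmk : (univ.filter (fun σ : Fin D → Equiv.Perm (Fin N) =>
      16 * g * (2 * D) ^ g < (bad (edg σ) g).card)).card * (16 * g * (2 * D) ^ g) ≤
        ∑ σ : Fin D → Equiv.Perm (Fin N), (bad (edg σ) g).card := by
    calc (univ.filter (fun σ : Fin D → Equiv.Perm (Fin N) =>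
        16 * g * (2 * D) ^ g < (bad (edg σ) g).card)).card * (16 * g * (2 * D) ^ g)
        = ∑ σ ∈ univ.filter (fun σ : Fin D → Equiv.Perm (Fin N) =>
            16 * g * (2 * D) ^ g < (bad (edg σ) g).card), 16 * g * (2 * D) ^ g := by
          rw [sum_const, smul_eq_mul]
      _ ≤ ∑ σ ∈ univ.filter (fun σ : Fin D → Equiv.Perm (Fin N) =>
            16 * g * (2 * D) ^ g < (bad (edg σ) g).card), (bad (edg σ) g).card :=
          sum_le_sum (fun σ hσ => (mem_filter.1 hσ).2.le)
      _ ≤ _ := sum_le_sum_of_subset (filter_subset _ _)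
  have hpos : 0 < 4 * g * (2 * D) ^ g := by
    have : 0 < (2 * D) ^ g := Nat.pow_pos (by omega)
    positivity
  refine Nat.le_of_mul_le_mul_right ?_ hpos
  calc (univ.filter (fun σ : Fin D → Equiv.Perm (Fin N) =>
      16 * g * (2 * D) ^ g < (bad (edg σ) g).card)).card * 4 * (4 * g * (2 * D) ^ g)
      = (univ.filter (fun σ : Fin D → Equiv.Perm (Fin N) =>
          16 * g * (2 * D) ^ g < (bad (edg σ) g).card)).card * (16 * g * (2 * D) ^ g) := by ring
    _ ≤ 4 * g * (2 * D) ^ g * N.factorial ^ D := hmk.trans hsum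
    _ = _ := by ring

end Pool.Agent.P325ad
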