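import Mathlib
import Pool.Agent.Lib.P325ad.Defs

/-!
# P325ad.Hyp: images of sets under random permutations
-/

open Finset
open scoped BigOperators Classical

namespace Pool.Agent.P325ad

namespace HypAux

/-- The permutations which map `U` into `T`. -/
noncomputable def F {N : ℕ} (T U : Finset (Fin N)) : Finset (Equiv.Perm (Fin N)) :=
  univ.filter (fun π => ∀ x ∈ U, π x ∈ T)

lemma mem_F {N : ℕ} {T U : Finset (Fin N)} {π : Equiv.Perm (Fin N)} :
    π ∈ F T U ↔ ∀ x ∈ U, π x ∈ T := by
  simp [F]

lemma card_swap {N : ℕ} (T U : Finset (Fin N)) {x y : Fin N} (hx : x ∉ U) (hy : y ∉ U) :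
    (F T (insert y U)).card = (F T (insert x U)).card := by
  refine Finset.card_equiv (Equiv.mulRight (Equiv.swap x y)) (fun π => ?_)
  rw [mem_F, mem_F]
  have key : ∀ z ∈ U, (π * Equiv.swap x y) z = π z := by
    intro z hz
    rw [Equiv.Perm.mul_apply, Equiv.swap_apply_of_ne_of_ne]
    · rintro rfl; exact hx hz
    · rintro rfl; exact hy hz
  constructor
  · intro h z hz
    rw [Equiv.coe_mulRight]
    rcases Finset.mem_insert.1 hz with rfl | hz
    · rw [Equiv.Perm.mul_apply, Equiv.swap_apply_left]
      exact h y (Finset.mem_insert_self _ _)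
    · rw [key z hz]
      exact h z (Finset.mem_insert_of_mem hz)
  · intro h z hz
    rcases Finset.mem_insert.1 hz with rfl | hz
    · have := h x (Finset.mem_insert_self _ _)
      rwa [Equiv.coe_mulRight, Equiv.Perm.mul_apply, Equiv.swap_apply_left] at this
    · have := h z (Finset.mem_insert_of_mem hz)
      rwa [Equiv.coe_mulRight, key z hz] at this

lemma step {N : ℕ} (T U : Finset (Fin N)) {x : Fin N} (hx : x ∉ U) :
    (N - U.card) * (F T (insert x U)).card = (F T U).card * (T.card - U.card) := by
  have h1 : ∑ y ∈ Uᶜ, (F T (insert y U)).card = (N - U.card) * (F T (insert x U)).card := by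
    rw [Finset.sum_congr rfl (fun y hy => card_swap T U hx (Finset.mem_compl.1 hy)),
      Finset.sum_const, Finset.card_compl, Fintype.card_fin, smul_eq_mul]
  have h2 : ∀ y, (F T (insert y U)).card = ∑ π ∈ F T U, if π y ∈ T then 1 else 0 := by
    intro y
    rw [← Finset.card_filter]
    congr 1
    ext π
    rw [Finset.mem_filter, mem_F, mem_F]
    constructor
    · intro h
      exact ⟨fun z hz => h z (Finset.mem_insert_of_mem hz), h y (Finset.mem_insert_self _ _)⟩
    · rintro ⟨h, h'⟩ z hz
      rcases Finset.mem_insert.1 hz with rfl | hz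
      · exact h'
      · exact h z hz
  have h3 : ∀ π ∈ F T U, (∑ y ∈ Uᶜ, if π y ∈ T then 1 else 0) = T.card - U.card := by
    intro π hπ
    rw [mem_F] at hπ
    rw [← Finset.card_filter]
    have e1 : (Finset.univ.filter (fun y => π y ∈ T)).card = T.card := by
      refine Finset.card_equiv π (fun y => ?_)
      simp
    have e2 : Uᶜ.filter (fun y => π y ∈ T) = (Finset.univ.filter (fun y => π y ∈ T)) \ U := by
      ext y
      simp only [Finset.mem_filter, Finset.mem_compl, Finset.mem_sdiff, Finset.mem_univ,
        true_and]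
      tauto
    rw [e2, Finset.card_sdiff_of_subset, e1]
    intro z hz
    simp [hπ z hz]
  rw [← h1, Finset.sum_congr rfl (fun y _ => h2 y), Finset.sum_comm,
    Finset.sum_congr rfl h3, Finset.sum_const, smul_eq_mul]

lemma into {N : ℕ} (T U : Finset (Fin N)) :
    (F T U).card * N ^ U.card ≤ N.factorial * T.card ^ U.card := by
  induction U using Finset.induction_on with
  | empty =>
    have : F T ∅ = univ := by
      ext π; simp [mem_F]
    rw [this]
    simp [Fintype.card_perm]
  | insert x U hx ih =>
    have hs := step T U hx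
    have hU : U.card < N := by
      have h1 : (insert x U).card ≤ N := by
        simpa using Finset.card_le_univ (insert x U)
      rw [Finset.card_insert_of_notMem hx] at h1
      omega
    have hT : T.card ≤ N := by simpa using Finset.card_le_univ T
    have h4 : (T.card - U.card) * N ≤ T.card * (N - U.card) := by
      rcases le_total T.card U.card with h | h
      · rw [Nat.sub_eq_zero_of_le h]; simp
      · rw [Nat.sub_mul, Nat.mul_sub]
        have : T.card * U.card ≤ U.card * N := by
          rw [mul_comm U.card]; exact Nat.mul_le_mul_right _ hT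
        omega
    rw [Finset.card_insert_of_notMem hx]
    have hpos : 0 < N - U.card := by omega
    refine Nat.le_of_mul_le_mul_left ?_ hpos
    calc (N - U.card) * ((F T (insert x U)).card * N ^ (U.card + 1))
        = ((N - U.card) * (F T (insert x U)).card) * N ^ (U.card + 1) := by ring
      _ = ((F T U).card * N ^ U.card) * ((T.card - U.card) * N) := by rw [hs]; ring
      _ ≤ (N.factorial * T.card ^ U.card) * (T.card * (N - U.card)) :=
          Nat.mul_le_mul ih h4
      _ = (N - U.card) * (N.factorial * T.card ^ (U.card + 1)) := by ring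

end HypAux

theorem perm_into {N : ℕ} (U T : Finset (Fin N)) :
    (univ.filter (fun π : Equiv.Perm (Fin N) => ∀ x ∈ U, π x ∈ T)).card * N ^ U.card ≤
      N.factorial * T.card ^ U.card := by
  have := HypAux.into T U
  unfold HypAux.F at this
  convert this

theorem perm_mgf {N : ℕ} (hN : 1 ≤ N) (S T : Finset (Fin N)) (u : ℝ) (hu : 0 ≤ u) :
    ∑ π : Equiv.Perm (Fin N), (1 + u) ^ (S.filter (fun x => π x ∈ T)).card ≤
      N.factorial * (1 + u * T.card / N) ^ S.card := by
  have hN0 : (0 : ℝ) < N := by exact_mod_cast hN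
  have e1 : ∀ A : Finset (Fin N), ∀ v : ℝ,
      (1 + v) ^ A.card = ∑ U ∈ A.powerset, v ^ U.card := by
    intro A v
    rw [add_comm, ← Finset.sum_pow_mul_eq_add_pow]
    simp
  have e2 : ∀ π : Equiv.Perm (Fin N), (1 + u) ^ (S.filter (fun x => π x ∈ T)).card =
      ∑ U ∈ S.powerset, if π ∈ HypAux.F T U then u ^ U.card else 0 := by
    intro π
    rw [e1, ← Finset.sum_filter]
    refine Finset.sum_congr ?_ (fun _ _ => rfl)
    ext U
    simp only [Finset.mem_powerset, Finset.mem_filter, HypAux.mem_F]
    constructor
    · intro h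
      exact ⟨fun x hx => (Finset.mem_filter.1 (h hx)).1,
        fun x hx => (Finset.mem_filter.1 (h hx)).2⟩
    · rintro ⟨h, h'⟩ x hx
      exact Finset.mem_filter.2 ⟨h hx, h' x hx⟩
  rw [Finset.sum_congr rfl (fun π _ => e2 π), Finset.sum_comm]
  have e3 : ∀ U ∈ S.powerset,
      (∑ π : Equiv.Perm (Fin N), if π ∈ HypAux.F T U then u ^ U.card else 0) ≤
        N.factorial * (u * T.card / N) ^ U.card := by
    intro U _
    rw [← Finset.sum_filter, Finset.sum_const, nsmul_eq_mul]
    have e4 : univ.filter (fun π => π ∈ HypAux.F T U) = HypAux.F T U := by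
      ext π; simp
    rw [e4]
    have h5 : ((HypAux.F T U).card : ℝ) * (N : ℝ) ^ U.card ≤
        N.factorial * (T.card : ℝ) ^ U.card := by
      exact_mod_cast HypAux.into T U
    have hNU : (0 : ℝ) < (N : ℝ) ^ U.card := pow_pos hN0 _
    rw [div_pow, mul_pow, ← mul_div_assoc, le_div_iff₀ hNU]
    have hu' : 0 ≤ u ^ U.card := pow_nonneg hu _
    calc ((HypAux.F T U).card : ℝ) * u ^ U.card * (N : ℝ) ^ U.card
        = u ^ U.card * (((HypAux.F T U).card : ℝ) * (N : ℝ) ^ U.card) := by ring
      _ ≤ u ^ U.card * (N.factorial * (T.card : ℝ) ^ U.card) :=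
          mul_le_mul_of_nonneg_left h5 hu'
      _ = N.factorial * (u ^ U.card * (T.card : ℝ) ^ U.card) := by ring
  refine (Finset.sum_le_sum e3).trans (le_of_eq ?_)
  rw [← Finset.mul_sum, e1]

end Pool.Agent.P325ad
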