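import Mathlib
import Pool.Agent.Lib.P325ad.Defs
import Pool.Agent.Lib.P325ad.Hyp

/-!
# P325ad.ExpP: unions of random permutations expand
-/

open Finset
open scoped BigOperators Classical

namespace Pool.Agent.P325ad

namespace ExpPAux

variable {N D : ℕ}

theorem card_pre (T : Finset (Fin N)) (π : Equiv.Perm (Fin N)) :
    (univ.filter (fun x => π x ∈ T)).card = T.card := by
  have : (univ.filter (fun x => π x ∈ T)) = T.map π.symm.toEmbedding := by
    ext y
    simp
  rw [this, Finset.card_map]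

theorem per_perm (S T : Finset (Fin N)) (π : Equiv.Perm (Fin N)) :
    (univ.filter (fun x => ¬ (x ∈ S ↔ π x ∈ T))).card + 2 * (S.filter (fun x => π x ∈ T)).card =
      S.card + T.card := by
  have h1 : (S.filter (fun x => π x ∈ T)).card + (S.filter (fun x => ¬ π x ∈ T)).card = S.card :=
    Finset.card_filter_add_card_filter_not _
  have h2 := card_pre T π
  have h3 : (univ.filter (fun x => ¬ (x ∈ S ↔ π x ∈ T))) =
      (S.filter (fun x => ¬ π x ∈ T)) ∪ ((univ.filter (fun x => π x ∈ T)) \ (S.filter (fun x => π x ∈ T))) := by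
    ext x
    simp only [Finset.mem_filter, Finset.mem_univ, true_and, Finset.mem_union, Finset.mem_sdiff]
    tauto
  have h4 : (S.filter (fun x => π x ∈ T)) ⊆ (univ.filter (fun x => π x ∈ T)) := by
    intro x hx
    simp only [Finset.mem_filter, Finset.mem_univ, true_and] at hx ⊢
    exact hx.2
  have h5 := Finset.card_sdiff_add_card_eq_card h4
  rw [h3, Finset.card_union_of_disjoint]
  · omega
  · rw [Finset.disjoint_left]
    intro x hx
    simp only [Finset.mem_filter, Finset.mem_univ, true_and, Finset.mem_sdiff] at hx ⊢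
    tauto

/-- the failure for the sets `S, T` -/
def Fl (S T : Finset (Fin N)) (σ : Fin D → Equiv.Perm (Fin N)) : Prop :=
  (univ.filter (fun p : Fin D × Fin N => ¬ (p.2 ∈ S ↔ σ p.1 p.2 ∈ T))).card < S.card + T.card

/-- the first hundred indices -/
noncomputable def I (D : ℕ) : Finset (Fin D) := univ.filter (fun i => (i : ℕ) < 100)

theorem card_I (hD : 100 ≤ D) : (I D).card = 100 := by
  have : I D = (univ : Finset (Fin 100)).map (Fin.castLEEmb hD) := by
    ext i
    simp only [I, Finset.mem_filter, Finset.mem_univ, true_and, Finset.mem_map]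
    constructor
    · intro h
      exact ⟨⟨i, h⟩, by ext; simp⟩
    · rintro ⟨j, rfl⟩
      simp
  rw [this, Finset.card_map]
  simp

/-- the number of hits -/
noncomputable def e (S T : Finset (Fin N)) (σ : Fin D → Equiv.Perm (Fin N)) : ℕ :=
  ∑ i ∈ I D, (S.filter (fun x => σ i x ∈ T)).card

theorem card_pairs (S T : Finset (Fin N)) (σ : Fin D → Equiv.Perm (Fin N)) :
    (univ.filter (fun p : Fin D × Fin N => ¬ (p.2 ∈ S ↔ σ p.1 p.2 ∈ T))).card =
      ∑ i : Fin D, (univ.filter (fun x => ¬ (x ∈ S ↔ σ i x ∈ T))).card := by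
  rw [Finset.card_filter, ← Finset.univ_product_univ, Finset.sum_product]
  refine Finset.sum_congr rfl fun i _ => ?_
  rw [Finset.card_filter]

theorem fl_e (hD : 100 ≤ D) (S T : Finset (Fin N)) (σ : Fin D → Equiv.Perm (Fin N)) (h : Fl S T σ) :
    99 * (S.card + T.card) < 2 * e S T σ := by
  have h1 : ∑ i ∈ I D, (univ.filter (fun x => ¬ (x ∈ S ↔ σ i x ∈ T))).card ≤
      ∑ i : Fin D, (univ.filter (fun x => ¬ (x ∈ S ↔ σ i x ∈ T))).card :=
    Finset.sum_le_sum_of_subset (Finset.subset_univ _)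
  have h2 : ∑ i ∈ I D, (univ.filter (fun x => ¬ (x ∈ S ↔ σ i x ∈ T))).card + 2 * e S T σ =
      100 * (S.card + T.card) := by
    unfold e
    rw [Finset.mul_sum, ← Finset.sum_add_distrib, Finset.sum_congr rfl (fun i _ => per_perm S T (σ i)),
      Finset.sum_const, card_I hD, smul_eq_mul]
  unfold Fl at h
  rw [card_pairs] at h
  omega

theorem e_le (hD : 100 ≤ D) (S T : Finset (Fin N)) (σ : Fin D → Equiv.Perm (Fin N)) :
    e S T σ ≤ 100 * S.card := by
  unfold e
  calc _ ≤ ∑ i ∈ I D, S.card := Finset.sum_le_sum fun i _ => Finset.card_filter_le _ _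
    _ = _ := by rw [Finset.sum_const, card_I hD, smul_eq_mul]

/-- exponential moment -/
theorem mgf (hD : 100 ≤ D) (hN : 1 ≤ N) (S T : Finset (Fin N)) (u : ℝ) (hu : 0 ≤ u) :
    ∑ σ : Fin D → Equiv.Perm (Fin N), (1 + u) ^ e S T σ ≤
      (N.factorial : ℝ) ^ D * (1 + u * T.card / N) ^ (100 * S.card) := by
  have h0 : ∀ σ : Fin D → Equiv.Perm (Fin N), (1 + u) ^ e S T σ =
      ∏ i, (if i ∈ I D then (1 + u) ^ (S.filter (fun x => σ i x ∈ T)).card else 1) := by
    intro σ
    rw [Finset.prod_ite_mem, Finset.univ_inter, Finset.prod_pow_eq_pow_sum]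
    rfl
  have h1 : ∑ σ : Fin D → Equiv.Perm (Fin N), (1 + u) ^ e S T σ =
      ∏ i : Fin D, ∑ π : Equiv.Perm (Fin N),
        (if i ∈ I D then (1 + u) ^ (S.filter (fun x => π x ∈ T)).card else 1) := by
    rw [Finset.prod_univ_sum, Fintype.piFinset_univ]
    exact Finset.sum_congr rfl fun σ _ => h0 σ
  rw [h1]
  have h2 : ∀ i : Fin D, ∑ π : Equiv.Perm (Fin N),
        (if i ∈ I D then (1 + u) ^ (S.filter (fun x => π x ∈ T)).card else 1) ≤
      (N.factorial : ℝ) * (if i ∈ I D then (1 + u * T.card / N) ^ S.card else 1) := by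
    intro i
    by_cases hi : i ∈ I D
    · simp only [hi, if_true]
      exact perm_mgf hN S T u hu
    · simp only [hi, if_false, Finset.sum_const, Finset.card_univ, Fintype.card_perm, Fintype.card_fin]
      simp
  calc _ ≤ ∏ i : Fin D, ((N.factorial : ℝ) * (if i ∈ I D then (1 + u * T.card / N) ^ S.card else 1)) := by
        refine Finset.prod_le_prod (fun i _ => ?_) (fun i _ => h2 i)
        refine Finset.sum_nonneg fun π _ => ?_
        split_ifs
        · positivity
        · norm_num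
    _ = _ := by
        rw [Finset.prod_mul_distrib, Finset.prod_const, Finset.card_univ, Fintype.card_fin,
          Finset.prod_ite_mem, Finset.univ_inter, Finset.prod_const, card_I hD, ← pow_mul, mul_comm S.card 100]

/-- Markov -/
theorem markov (hD : 100 ≤ D) (hN : 1 ≤ N) (S T : Finset (Fin N)) (hab : S.card ≤ T.card) (hT : 0 < T.card) :
    ((univ.filter (fun σ : Fin D → Equiv.Perm (Fin N) => Fl S T σ)).card : ℝ) *
      (100 * N / T.card) ^ (99 * S.card) ≤ (N.factorial : ℝ) ^ D * 101 ^ (100 * S.card) := by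
  have hNr : (0 : ℝ) < N := by exact_mod_cast hN
  have hTr : (0 : ℝ) < T.card := by exact_mod_cast hT
  have hu : (0 : ℝ) ≤ 100 * N / T.card := by positivity
  have h1 := mgf hD hN S T (100 * N / T.card) hu
  have e1 : (1 : ℝ) + 100 * N / T.card * T.card / N = 101 := by
    field_simp
    norm_num
  rw [e1] at h1
  refine le_trans ?_ h1
  calc _ = ∑ σ ∈ univ.filter (fun σ : Fin D → Equiv.Perm (Fin N) => Fl S T σ),
        (100 * (N : ℝ) / T.card) ^ (99 * S.card) := by
        rw [Finset.sum_const, nsmul_eq_mul]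
    _ ≤ ∑ σ ∈ univ.filter (fun σ : Fin D → Equiv.Perm (Fin N) => Fl S T σ),
        (1 + 100 * (N : ℝ) / T.card) ^ e S T σ := by
        refine Finset.sum_le_sum fun σ hσ => ?_
        have h2 := fl_e hD S T σ (Finset.mem_filter.1 hσ).2
        calc _ ≤ (1 + 100 * (N : ℝ) / T.card) ^ (99 * S.card) :=
              pow_le_pow_left₀ hu (by linarith) _
          _ ≤ _ := pow_le_pow_right₀ (by linarith) (by omega)
    _ ≤ _ := by
        refine Finset.sum_le_sum_of_subset_of_nonneg (Finset.subset_univ _) fun σ _ _ => by positivity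


theorem exp_nat_le (b : ℕ) : Real.exp b ≤ 3 ^ b := by
  rw [← Real.exp_one_pow]
  exact pow_le_pow_left₀ (Real.exp_pos _).le (by linarith [Real.exp_one_lt_d9]) _

theorem numeric (a b : ℕ) (ha : 1 ≤ a) (hab : a ≤ b) (hb : b ≤ 2 * a) (hN : 3 * b ≤ 2 * N) :
    ((N.choose a : ℝ) * N.choose b) * (101 ^ (100 * a) * ((b : ℝ) / (100 * N)) ^ (99 * a)) ≤
      (1 / 10 ^ 4 : ℝ) ^ (a + b) := by
  have hN0 : 0 < N := by omega
  have hNr : (0 : ℝ) < N := by exact_mod_cast hN0
  have hbr : (0 : ℝ) < b := by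
    have : 0 < b := by omega
    exact_mod_cast this
  have h1 : (N.choose a : ℝ) ≤ (N : ℝ) ^ a / (a.factorial : ℝ) := Nat.choose_le_pow_div a N
  have h2 : (N.choose b : ℝ) ≤ (N : ℝ) ^ b / (b.factorial : ℝ) := Nat.choose_le_pow_div b N
  have hq : (b : ℝ) / N ≤ 2 / 3 := by
    rw [div_le_div_iff₀ hNr (by norm_num)]
    have : (3 : ℝ) * b ≤ 2 * N := by exact_mod_cast hN
    linarith
  have hq0 : (0 : ℝ) ≤ (b : ℝ) / N := by positivity
  have e1 : (b : ℝ) ^ a / (a.factorial : ℝ) ≤ 9 ^ a := by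
    calc _ ≤ Real.exp b := Real.pow_div_factorial_le_exp _ hbr.le _
      _ ≤ 3 ^ b := exp_nat_le b
      _ ≤ 3 ^ (2 * a) := pow_le_pow_right₀ (by norm_num) hb
      _ = 9 ^ a := by rw [pow_mul]; norm_num
  have e2 : (b : ℝ) ^ b / (b.factorial : ℝ) ≤ 9 ^ a := by
    calc _ ≤ Real.exp b := Real.pow_div_factorial_le_exp _ hbr.le _
      _ ≤ 3 ^ b := exp_nat_le b
      _ ≤ 3 ^ (2 * a) := pow_le_pow_right₀ (by norm_num) hb
      _ = 9 ^ a := by rw [pow_mul]; norm_num
  have e3 : ((b : ℝ) / N) ^ (98 * a - b) ≤ (2 / 3) ^ (96 * a) := by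
    calc _ ≤ (2 / 3 : ℝ) ^ (98 * a - b) := pow_le_pow_left₀ hq0 hq _
      _ ≤ _ := pow_le_pow_of_le_one (by norm_num) (by norm_num) (by omega)
  have split : ((b : ℝ) / (100 * N)) ^ (99 * a) =
      ((b : ℝ) ^ a / (N : ℝ) ^ a) * ((b : ℝ) ^ b / (N : ℝ) ^ b) * ((b : ℝ) / N) ^ (98 * a - b) /
        (100 ^ 99) ^ a := by
    have hx : (b : ℝ) / (100 * N) = (b : ℝ) / N / 100 := by field_simp
    rw [hx, div_pow ((b : ℝ) / N) 100, ← div_pow (b : ℝ) N a, ← div_pow (b : ℝ) N b, ← pow_mul, ← pow_add,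
      ← pow_add]
    congr 2
    omega
  have h5 : (0 : ℝ) ≤ 101 ^ (100 * a) * ((b : ℝ) / (100 * N)) ^ (99 * a) := by positivity
  calc _ ≤ ((N : ℝ) ^ a / (a.factorial : ℝ) * ((N : ℝ) ^ b / (b.factorial : ℝ))) *
        (101 ^ (100 * a) * ((b : ℝ) / (100 * N)) ^ (99 * a)) := by
        refine mul_le_mul_of_nonneg_right ?_ h5
        exact mul_le_mul h1 h2 (by positivity) (by positivity)
    _ = ((b : ℝ) ^ a / (a.factorial : ℝ)) * ((b : ℝ) ^ b / (b.factorial : ℝ)) *
        ((101 ^ 100 / 100 ^ 99 : ℝ) ^ a * ((b : ℝ) / N) ^ (98 * a - b)) := by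
        rw [split, pow_mul, div_pow (101 ^ 100 : ℝ)]
        have : (N : ℝ) ^ a ≠ 0 := by positivity
        have : (N : ℝ) ^ b ≠ 0 := by positivity
        have : (a.factorial : ℝ) ≠ 0 := by positivity
        have : (b.factorial : ℝ) ≠ 0 := by positivity
        have : ((100 ^ 99 : ℝ)) ^ a ≠ 0 := by positivity
        generalize ((b : ℝ) / N) ^ (98 * a - b) = Z
        generalize ((100 ^ 99 : ℝ)) ^ a = Y at *
        generalize ((101 ^ 100 : ℝ)) ^ a = X
        field_simp
    _ ≤ (9 ^ a * 9 ^ a) * (272 ^ a * (2 / 3) ^ (96 * a)) := by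
        refine mul_le_mul (mul_le_mul e1 e2 (by positivity) (by positivity)) ?_ (by positivity) (by positivity)
        refine mul_le_mul ?_ e3 (by positivity) (by positivity)
        exact pow_le_pow_left₀ (by positivity) (by norm_num) _
    _ = (9 * 9 * (272 * (2 / 3) ^ 96)) ^ a := by
        rw [mul_pow, mul_pow, mul_pow, ← pow_mul]
    _ ≤ ((1 / 10 ^ 4 : ℝ) ^ 3) ^ a := pow_le_pow_left₀ (by positivity) (by norm_num) _
    _ = (1 / 10 ^ 4 : ℝ) ^ (3 * a) := by rw [pow_mul]
    _ ≤ _ := pow_le_pow_of_le_one (by norm_num) (by norm_num) (by omega)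

theorem bound_le (hD : 100 ≤ D) (S T : Finset (Fin N)) (hST : S.card + T.card ≤ N) (hab : S.card ≤ T.card) :
    ((univ.filter (fun σ : Fin D → Equiv.Perm (Fin N) => Fl S T σ)).card : ℝ) *
      (N.choose S.card * N.choose T.card) ≤
      (N.factorial : ℝ) ^ D * (if S.card = 0 ∨ T.card = 0 then 0 else (1 / 10 ^ 4 : ℝ) ^ (S.card + T.card)) := by
  by_cases hne : ∃ σ : Fin D → Equiv.Perm (Fin N), Fl S T σ
  · obtain ⟨σ, hσ⟩ := hne
    have h1 := fl_e hD S T σ hσ
    have h2 := e_le hD S T σ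
    have ha : 1 ≤ S.card := by omega
    have hb : S.card ≠ 0 ∧ T.card ≠ 0 := by omega
    have hb2 : T.card ≤ 2 * S.card := by omega
    have hN3 : 3 * T.card ≤ 2 * N := by omega
    have hN1 : 1 ≤ N := by omega
    rw [if_neg (by omega)]
    have h3 := markov hD hN1 S T hab (by omega)
    have h4 := numeric (N := N) S.card T.card ha hab hb2 hN3
    have hNr : (0 : ℝ) < N := by exact_mod_cast hN1
    have hTr : (0 : ℝ) < T.card := by
      have : 0 < T.card := by omega
      exact_mod_cast this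
    set F : ℝ := ((univ.filter (fun σ : Fin D → Equiv.Perm (Fin N) => Fl S T σ)).card : ℝ) with hF
    have hF0 : 0 ≤ F := by positivity
    have e1 : (100 * (N : ℝ) / T.card) ^ (99 * S.card) * ((T.card : ℝ) / (100 * N)) ^ (99 * S.card) = 1 := by
      rw [← mul_pow]
      have : 100 * (N : ℝ) / T.card * ((T.card : ℝ) / (100 * N)) = 1 := by field_simp
      rw [this, one_pow]
    calc F * (N.choose S.card * N.choose T.card)
        = (F * (100 * (N : ℝ) / T.card) ^ (99 * S.card)) *
          (((T.card : ℝ) / (100 * N)) ^ (99 * S.card) * (N.choose S.card * N.choose T.card)) := by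
          calc _ = F * (N.choose S.card * N.choose T.card) * 1 := by ring
            _ = _ := by rw [← e1]; ring
      _ ≤ ((N.factorial : ℝ) ^ D * 101 ^ (100 * S.card)) *
          (((T.card : ℝ) / (100 * N)) ^ (99 * S.card) * (N.choose S.card * N.choose T.card)) :=
          mul_le_mul_of_nonneg_right h3 (by positivity)
      _ = (N.factorial : ℝ) ^ D * (((N.choose S.card : ℝ) * N.choose T.card) *
          (101 ^ (100 * S.card) * ((T.card : ℝ) / (100 * N)) ^ (99 * S.card))) := by ring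
      _ ≤ _ := mul_le_mul_of_nonneg_left h4 (by positivity)
  · push Not at hne
    rw [Finset.filter_false_of_mem (fun σ _ => hne σ)]
    simp only [Finset.card_empty, Nat.cast_zero, zero_mul]
    split_ifs <;> positivity

theorem fl_symm (S T : Finset (Fin N)) (σ : Fin D → Equiv.Perm (Fin N)) :
    Fl S T σ ↔ Fl T S (fun i => (σ i)⁻¹) := by
  unfold Fl
  rw [add_comm T.card]
  have : (univ.filter (fun p : Fin D × Fin N => ¬ (p.2 ∈ S ↔ σ p.1 p.2 ∈ T))).card =
      (univ.filter (fun p : Fin D × Fin N => ¬ (p.2 ∈ T ↔ (σ p.1)⁻¹ p.2 ∈ S))).card := by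
    refine Finset.card_bij (fun p _ => (p.1, σ p.1 p.2)) ?_ ?_ ?_
    · rintro ⟨i, x⟩ hx
      have ei : (σ i)⁻¹ (σ i x) = x := by simp
      simp only [Finset.mem_filter, Finset.mem_univ, true_and, ei] at hx ⊢
      tauto
    · rintro ⟨i, x⟩ _ ⟨j, y⟩ _ h
      simp only [Prod.mk.injEq] at h
      obtain ⟨rfl, h⟩ := h
      simpa using h
    · rintro ⟨i, x⟩ hx
      refine ⟨(i, (σ i)⁻¹ x), ?_, by simp⟩
      have ei : σ i ((σ i)⁻¹ x) = x := by simp
      simp only [Finset.mem_filter, Finset.mem_univ, true_and, ei] at hx ⊢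
      tauto
  rw [this]

theorem card_symm (S T : Finset (Fin N)) :
    (univ.filter (fun σ : Fin D → Equiv.Perm (Fin N) => Fl S T σ)).card =
      (univ.filter (fun σ : Fin D → Equiv.Perm (Fin N) => Fl T S σ)).card := by
  refine Finset.card_bij (fun σ _ i => (σ i)⁻¹) ?_ ?_ ?_
  · intro σ hσ
    simp only [Finset.mem_filter, Finset.mem_univ, true_and] at hσ ⊢
    exact (fl_symm S T σ).1 hσ
  · intro σ _ τ _ h
    funext i
    have := congrFun h i
    simpa using this
  · intro σ hσ
    refine ⟨fun i => (σ i)⁻¹, ?_, by simp⟩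
    simp only [Finset.mem_filter, Finset.mem_univ, true_and] at hσ ⊢
    rw [fl_symm]
    simpa using hσ

/-- the weight -/
noncomputable def wt (N a : ℕ) : ℝ := if a = 0 then 0 else (1 / 10 ^ 4 : ℝ) ^ a / N.choose a

theorem wt_nonneg (N a : ℕ) : 0 ≤ wt N a := by
  unfold wt
  split_ifs <;> positivity

theorem bound (hD : 100 ≤ D) (S T : Finset (Fin N)) (hST : S.card + T.card ≤ N) :
    ((univ.filter (fun σ : Fin D → Equiv.Perm (Fin N) => Fl S T σ)).card : ℝ) ≤
      (N.factorial : ℝ) ^ D * (wt N S.card * wt N T.card) := by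
  have hS : (0 : ℝ) < N.choose S.card := by
    exact_mod_cast Nat.choose_pos (by omega)
  have hT : (0 : ℝ) < N.choose T.card := by
    exact_mod_cast Nat.choose_pos (by omega)
  have key : ((univ.filter (fun σ : Fin D → Equiv.Perm (Fin N) => Fl S T σ)).card : ℝ) *
      (N.choose S.card * N.choose T.card) ≤
      (N.factorial : ℝ) ^ D * (if S.card = 0 ∨ T.card = 0 then 0 else (1 / 10 ^ 4 : ℝ) ^ (S.card + T.card)) := by
    rcases le_total S.card T.card with h | h
    · exact bound_le hD S T hST h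
    · have := bound_le hD T S (by omega) h
      rw [card_symm, mul_comm (N.choose S.card : ℝ), add_comm S.card]
      refine this.trans (le_of_eq ?_)
      congr 1
      by_cases h1 : S.card = 0 <;> by_cases h2 : T.card = 0 <;> simp [h1, h2]
  have e : wt N S.card * wt N T.card = (if S.card = 0 ∨ T.card = 0 then 0 else (1 / 10 ^ 4 : ℝ) ^ (S.card + T.card)) /
      (N.choose S.card * N.choose T.card) := by
    unfold wt
    by_cases h1 : S.card = 0
    · simp [h1]
    · by_cases h2 : T.card = 0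
      · simp [h2]
      · simp only [h1, h2, if_false, or_self]
        rw [pow_add, div_mul_div_comm]
  rw [e, ← mul_div_assoc, le_div_iff₀ (mul_pos hS hT)]
  exact key

theorem sum_wt (N : ℕ) : ∑ S : Finset (Fin N), wt N S.card ≤ 1 / 2 := by
  have h1 : ∑ S : Finset (Fin N), wt N S.card = ∑ a ∈ range (N + 1), (N.choose a) • wt N a := by
    rw [← Finset.powerset_univ, Finset.sum_powerset_apply_card]
    simp
  have h2 : ∑ a ∈ range (N + 1), (N.choose a) • wt N a ≤ ∑ a ∈ range N, (1 / 10 ^ 4 : ℝ) ^ (a + 1) := by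
    rw [Finset.sum_range_succ']
    have : (N.choose 0) • wt N 0 = 0 := by simp [wt]
    rw [this, add_zero]
    refine Finset.sum_le_sum fun a ha => ?_
    have : (0 : ℝ) < N.choose (a + 1) := by
      exact_mod_cast Nat.choose_pos (by have := Finset.mem_range.1 ha; omega)
    unfold wt
    rw [if_neg (by omega), nsmul_eq_mul, mul_div_cancel₀ _ this.ne']
  have h3 : ∑ a ∈ range N, (1 / 10 ^ 4 : ℝ) ^ (a + 1) ≤ 1 / 2 := by
    have : ∑ a ∈ range N, (1 / 10 ^ 4 : ℝ) ^ (a + 1) = (1 / 10 ^ 4 : ℝ) * ∑ a ∈ range N, (1 / 10 ^ 4 : ℝ) ^ a := by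
      rw [Finset.mul_sum]
      exact Finset.sum_congr rfl fun a _ => by ring
    rw [this, geom_sum_eq (by norm_num)]
    have h4 : (0 : ℝ) ≤ (1 / 10 ^ 4 : ℝ) ^ N := by positivity
    generalize (1 / 10 ^ 4 : ℝ) ^ N = t at h4
    norm_num
    linarith
  rw [h1]
  exact h2.trans h3

end ExpPAux

open ExpPAux in
theorem exp_most {N D : ℕ} (hD : 100 ≤ D) :
    (univ.filter (fun σ : Fin D → Equiv.Perm (Fin N) => ¬ Exp σ)).card * 4 ≤
      N.factorial ^ D := by
  have h1 : (univ.filter (fun σ : Fin D → Equiv.Perm (Fin N) => ¬ Exp σ)) ⊆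
      (univ : Finset (Finset (Fin N) × Finset (Fin N))).biUnion (fun p =>
        univ.filter (fun σ : Fin D → Equiv.Perm (Fin N) => p.1.card + p.2.card ≤ N ∧ Fl p.1 p.2 σ)) := by
    intro σ hσ
    simp only [Finset.mem_filter, Finset.mem_univ, true_and, Finset.mem_biUnion] at hσ ⊢
    simp only [Exp, not_forall, not_le] at hσ
    obtain ⟨S, T, h2, h3⟩ := hσ
    exact ⟨(S, T), h2, h3⟩
  have h2 : ((univ.filter (fun σ : Fin D → Equiv.Perm (Fin N) => ¬ Exp σ)).card : ℝ) ≤
      ∑ p : Finset (Fin N) × Finset (Fin N), (N.factorial : ℝ) ^ D * (wt N p.1.card * wt N p.2.card) := by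
    calc _ ≤ (((univ : Finset (Finset (Fin N) × Finset (Fin N))).biUnion (fun p =>
        univ.filter (fun σ : Fin D → Equiv.Perm (Fin N) =>
          p.1.card + p.2.card ≤ N ∧ Fl p.1 p.2 σ))).card : ℝ) := by
          exact_mod_cast Finset.card_le_card h1
      _ ≤ ∑ p : Finset (Fin N) × Finset (Fin N), ((univ.filter (fun σ : Fin D → Equiv.Perm (Fin N) =>
          p.1.card + p.2.card ≤ N ∧ Fl p.1 p.2 σ)).card : ℝ) := by
          exact_mod_cast Finset.card_biUnion_le
      _ ≤ _ := by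
          refine Finset.sum_le_sum fun p _ => ?_
          by_cases h : p.1.card + p.2.card ≤ N
          · simp only [h, true_and]
            exact bound hD p.1 p.2 h
          · simp only [h, false_and, Finset.filter_false, Finset.card_empty, Nat.cast_zero]
            have := wt_nonneg N p.1.card
            have := wt_nonneg N p.2.card
            positivity
  have h3 : ∑ p : Finset (Fin N) × Finset (Fin N), (N.factorial : ℝ) ^ D * (wt N p.1.card * wt N p.2.card) ≤
      (N.factorial : ℝ) ^ D * (1 / 4) := by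
    rw [← Finset.mul_sum]
    refine mul_le_mul_of_nonneg_left ?_ (by positivity)
    have h7 : ∑ p : Finset (Fin N) × Finset (Fin N), wt N p.1.card * wt N p.2.card =
        (∑ S : Finset (Fin N), wt N S.card) * ∑ S : Finset (Fin N), wt N S.card := by
      rw [Finset.sum_mul_sum, Fintype.sum_prod_type]
    rw [h7]
    have h5 := sum_wt N
    have h6 : 0 ≤ ∑ S : Finset (Fin N), wt N S.card := Finset.sum_nonneg fun S _ => wt_nonneg N _
    nlinarith
  have h4 : (((univ.filter (fun σ : Fin D → Equiv.Perm (Fin N) => ¬ Exp σ)).card * 4 : ℕ) : ℝ) ≤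
      ((N.factorial ^ D : ℕ) : ℝ) := by
    push_cast
    linarith
  exact_mod_cast h4

end Pool.Agent.P325ad
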