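import Mathlib
import Pool.Agent.Lib.P325ad.Defs
import Pool.Agent.Lib.P325ad.Chg
import Pool.Agent.Lib.P325ad.ExpP
import Pool.Agent.Lib.P325ad.CntF
import Pool.Agent.Lib.P325ad.CycA
import Pool.Agent.Lib.P325ad.CycB

/-!
# P325ad.Host: expanders with few short cycles
-/

open Finset
open scoped BigOperators Classical

namespace Pool.Agent.P325ad

open Pool.Agent.P325ac (esrc etgt MaxDeg gr NoShort)

namespace HostAux

theorem edg_maxDeg {N D : ℕ} (σ : Fin D → Equiv.Perm (Fin N)) : MaxDeg (edg σ) D := by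
  constructor
  · intro i
    have h1 : (edg σ).filter (fun p => p.1 = i) ⊆
        univ.image (fun d : Fin D => (i, σ d i)) := by
      intro p hp
      rw [mem_filter] at hp
      obtain ⟨hp1, hp2⟩ := hp
      unfold edg at hp1
      rw [mem_image] at hp1
      obtain ⟨⟨d, x⟩, -, rfl⟩ := hp1
      simp only at hp2
      rw [mem_image]
      exact ⟨d, mem_univ _, by rw [hp2]⟩
    exact (card_le_card h1).trans (card_image_le.trans (by simp))
  · intro j
    have h1 : (edg σ).filter (fun p => p.2 = j) ⊆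
        univ.image (fun d : Fin D => ((σ d).symm j, j)) := by
      intro p hp
      rw [mem_filter] at hp
      obtain ⟨hp1, hp2⟩ := hp
      unfold edg at hp1
      rw [mem_image] at hp1
      obtain ⟨⟨d, x⟩, -, rfl⟩ := hp1
      simp only at hp2
      rw [mem_image]
      exact ⟨d, mem_univ _, by rw [← hp2, Equiv.symm_apply_apply]⟩
    exact (card_le_card h1).trans (card_image_le.trans (by simp))

theorem deg_le {N D : ℕ} {Ed : Finset (Fin N × Fin N)} (h : MaxDeg Ed D)
    (v : Fin N ⊕ Fin N) : deg (esrc Ed) (etgt Ed) v ≤ D := by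
  unfold deg
  rcases v with i | j
  · have h2 : ∀ I : DecidablePred (fun e : {p // p ∈ Ed} => etgt Ed e = Sum.inl i),
        (@Finset.filter _ (fun e : {p // p ∈ Ed} => etgt Ed e = Sum.inl i) I univ).card = 0 := by
      intro I
      rw [card_eq_zero, filter_eq_empty_iff]
      intro e _ he
      unfold etgt at he
      exact absurd he (by simp)
    rw [h2, add_zero]
    refine le_trans ?_ (h.1 i)
    refine card_le_card_of_injOn (fun e => e.1) ?_ ?_
    · intro e he
      rw [coe_filter, Set.mem_ofPred_eq] at he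
      rw [coe_filter, Set.mem_ofPred_eq]
      refine ⟨e.2, ?_⟩
      have := he.2
      unfold esrc at this
      exact Sum.inl_injective this
    · intro e _ e' _ hee
      exact Subtype.ext hee
  · have h2 : ∀ I : DecidablePred (fun e : {p // p ∈ Ed} => esrc Ed e = Sum.inr j),
        (@Finset.filter _ (fun e : {p // p ∈ Ed} => esrc Ed e = Sum.inr j) I univ).card = 0 := by
      intro I
      rw [card_eq_zero, filter_eq_empty_iff]
      intro e _ he
      unfold esrc at he
      exact absurd he (by simp)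
    rw [h2, zero_add]
    refine le_trans ?_ (h.2 j)
    refine card_le_card_of_injOn (fun e => e.1) ?_ ?_
    · intro e he
      rw [coe_filter, Set.mem_ofPred_eq] at he
      rw [coe_filter, Set.mem_ofPred_eq]
      refine ⟨e.2, ?_⟩
      have := he.2
      unfold etgt at this
      exact Sum.inr_injective this
    · intro e _ e' _ hee
      exact Subtype.ext hee

theorem mem_edg {N D : ℕ} (σ : Fin D → Equiv.Perm (Fin N)) (d : Fin D) (x : Fin N) :
    (x, σ d x) ∈ edg σ := by
  unfold edg
  rw [mem_image]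
  exact ⟨(d, x), mem_univ _, rfl⟩

theorem poinc_of_exp {N D : ℕ} (hD : 1 ≤ D) (σ : Fin D → Equiv.Perm (Fin N)) (h : Exp σ) :
    Poinc (esrc (edg σ)) (etgt (edg σ)) (1 / (2 * (D : ℝ) ^ 3)) := by
  have hDR : (1 : ℝ) ≤ D := by exact_mod_cast hD
  have key := cheeger (esrc (edg σ)) (etgt (edg σ)) D hD (deg_le (edg_maxDeg σ)) (1 / D)
    (by positivity) (by
      intro A hA
      set S : Finset (Fin N) := univ.filter (fun x => Sum.inl x ∈ A) with hS
      set T : Finset (Fin N) := univ.filter (fun y => Sum.inr y ∈ A) with hT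
      have hcard : A.card = S.card + T.card := by
        rw [hS, hT, ← card_toLeft_add_card_toRight (u := A)]
        congr 1
        · congr 1
          ext x
          simp
        · congr 1
          ext x
          simp
      have hV : Fintype.card (Fin N ⊕ Fin N) = 2 * N := by
        rw [Fintype.card_sum, Fintype.card_fin]; ring
      rw [hV] at hA
      have h1 := h S T (by omega)
      obtain ⟨B, hB⟩ : ∃ B : Finset {p // p ∈ edg σ}, B = univ.filter
          (fun e : {p // p ∈ edg σ} => ¬ (esrc (edg σ) e ∈ A ↔ etgt (edg σ) e ∈ A)) := ⟨_, rfl⟩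
      have h2 : (univ.filter (fun p : Fin D × Fin N => ¬ (p.2 ∈ S ↔ σ p.1 p.2 ∈ T))).card ≤
          D * B.card := by
        rw [hB]
        set F : Fin D × Fin N → {p // p ∈ edg σ} :=
          fun p => ⟨(p.2, σ p.1 p.2), mem_edg σ p.1 p.2⟩ with hF
        have h3 : ((univ.filter (fun p : Fin D × Fin N => ¬ (p.2 ∈ S ↔ σ p.1 p.2 ∈ T))).image
            F) ⊆ univ.filter (fun e : {p // p ∈ edg σ} =>
            ¬ (esrc (edg σ) e ∈ A ↔ etgt (edg σ) e ∈ A)) := by
          intro e he
          rw [mem_image] at he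
          obtain ⟨p, hp, rfl⟩ := he
          rw [mem_filter] at hp ⊢
          refine ⟨mem_univ _, ?_⟩
          have := hp.2
          rw [hS, hT] at this
          simpa [esrc, etgt, hF] using this
        refine le_trans (card_le_mul_card_image (f := F) _ D ?_) (Nat.mul_le_mul_left D
          (card_le_card h3))
        intro e _
        have h4 : ({p ∈ univ.filter (fun p : Fin D × Fin N => ¬ (p.2 ∈ S ↔ σ p.1 p.2 ∈ T)) |
            F p = e} : Finset (Fin D × Fin N)) ⊆ univ.image (fun d : Fin D => (d, e.1.1)) := by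
          intro p hp
          rw [mem_filter] at hp
          rw [mem_image]
          refine ⟨p.1, mem_univ _, ?_⟩
          have := hp.2
          rw [hF] at this
          rw [← this]
        exact (card_le_card h4).trans (card_image_le.trans (by simp))
      have h5 : ∀ I : DecidablePred (fun e : {p // p ∈ edg σ} =>
            ¬ (esrc (edg σ) e ∈ A ↔ etgt (edg σ) e ∈ A)),
            (A.card : ℝ) ≤ (@Finset.filter _ (fun e : {p // p ∈ edg σ} =>
            ¬ (esrc (edg σ) e ∈ A ↔ etgt (edg σ) e ∈ A)) I univ).card * D := by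
        intro I
        have hI : @Finset.filter _ (fun e : {p // p ∈ edg σ} =>
            ¬ (esrc (edg σ) e ∈ A ↔ etgt (edg σ) e ∈ A)) I univ = B := by
          rw [hB]
          exact congrArg (fun I' => (@Finset.filter _ (fun e : {p // p ∈ edg σ} =>
            ¬ (esrc (edg σ) e ∈ A ↔ etgt (edg σ) e ∈ A)) I' univ)) (Subsingleton.elim I _)
        rw [hI, hcard, mul_comm]
        exact_mod_cast h1.trans h2
      rw [div_mul_eq_mul_div, one_mul, div_le_iff₀ (by linarith)]
      exact h5 _)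
  have : (1 / (D : ℝ)) ^ 2 / (2 * D) = 1 / (2 * (D : ℝ) ^ 3) := by
    have : (D : ℝ) ≠ 0 := by positivity
    field_simp
  rw [this] at key
  exact key

theorem pow_big {r D : ℕ} (hr : 1 ≤ r) (hD : 100 ≤ D) : 1024 * r ^ 2 ≤ (2 * D) ^ (4 * r) := by
  have h1 : (200 : ℕ) ^ (4 * r) ≤ (2 * D) ^ (4 * r) := Nat.pow_le_pow_left (by omega) _
  refine le_trans ?_ h1
  clear h1
  induction r, hr using Nat.le_induction with
  | base => norm_num
  | succ n hn ih =>
    have h2 : (200 : ℕ) ^ (4 * (n + 1)) = 200 ^ (4 * n) * 200 ^ 4 := by rw [← pow_add]; ring_nf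
    rw [h2]
    have h3 : (n + 1) ^ 2 ≤ 4 * n ^ 2 := by nlinarith
    calc 1024 * (n + 1) ^ 2 ≤ 1024 * (4 * n ^ 2) := by omega
      _ = (1024 * n ^ 2) * 4 := by ring
      _ ≤ 200 ^ (4 * n) * 200 ^ 4 := Nat.mul_le_mul ih (by norm_num)

end HostAux

open HostAux

theorem hosts (D : ℕ) (hD : 100 ≤ D) (N : ℕ) (hN : (2 * D) ^ 8 ≤ N) :
    ∃ Ed : Finset (Fin N × Fin N), MaxDeg Ed D ∧
      Poinc (esrc Ed) (etgt Ed) (1 / (2 * (D : ℝ) ^ 3)) ∧ D * N ≤ 2 * Ed.card ∧
      ∃ Bd ⊆ Ed, Bd.card ^ 2 ≤ N ∧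
        NoShort (gr (Ed \ Bd)) (2 * Nat.log ((2 * D) ^ 8) N) := by
  set r := Nat.log ((2 * D) ^ 8) N with hr
  have hb1 : 1 < (2 * D) ^ 8 := Nat.one_lt_pow (by norm_num) (by omega)
  have hr1 : 1 ≤ r := Nat.log_pos hb1 hN
  have hN0 : N ≠ 0 := by
    have : 1 < N := lt_of_lt_of_le hb1 hN
    omega
  have hpow : ((2 * D) ^ 8) ^ r ≤ N := Nat.pow_log_le_self _ hN0
  have hX : ((2 * D) ^ 8) ^ r = (2 * D) ^ (4 * r) * (2 * D) ^ (4 * r) := by
    rw [← pow_mul, ← pow_add]
    congr 1
    ring
  have hbig := pow_big hr1 hD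
  set X := (2 * D) ^ (4 * r) with hXdef
  have hX1 : 1 ≤ X := Nat.one_le_pow _ _ (by omega)
  have hXX : X * X ≤ N := by rw [← hX]; exact hpow
  have hXN : X ≤ N := le_trans (Nat.le_mul_of_pos_left X hX1) hXX
  have hg2 : 2 * (2 * r) ^ 2 ≤ N := by
    have : 2 * (2 * r) ^ 2 ≤ 1024 * r ^ 2 := by nlinarith
    omega
  have hN16 : 16 * D ≤ N := by
    have h1 : (2 * D) ^ 2 ≤ (2 * D) ^ 8 := Nat.pow_le_pow_right (by omega) (by norm_num)
    have h2 : 16 * D ≤ (2 * D) ^ 2 := by nlinarith
    omega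
  have e1 := exp_most (N := N) (D := D) hD
  have e2 := edg_card_most (N := N) (D := D) (by omega)
  have e3 := bad_most (N := N) (D := D) (g := 2 * r) (by omega) hg2 (by omega)
  have hall : Fintype.card (Fin D → Equiv.Perm (Fin N)) = N.factorial ^ D := by
    rw [Fintype.card_fun, Fintype.card_perm, Fintype.card_fin, Fintype.card_fin]
  have hpos : 0 < N.factorial ^ D := pow_pos (Nat.factorial_pos N) D
  obtain ⟨σ, h1, h2, h3⟩ : ∃ σ : Fin D → Equiv.Perm (Fin N), Exp σ ∧
      ¬ ((edg σ).card + 8 * D ^ 2 < D * N) ∧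
      ¬ (16 * (2 * r) * (2 * D) ^ (2 * r) < (bad (edg σ) (2 * r)).card) := by
    by_contra hcon
    push Not at hcon
    have hcov : (univ : Finset (Fin D → Equiv.Perm (Fin N))) ⊆
        (univ.filter (fun σ => ¬ Exp σ)) ∪
        ((univ.filter (fun σ => (edg σ).card + 8 * D ^ 2 < D * N)) ∪
        (univ.filter (fun σ => 16 * (2 * r) * (2 * D) ^ (2 * r) <
          (bad (edg σ) (2 * r)).card))) := by
      intro σ _
      rw [mem_union, mem_union, mem_filter, mem_filter, mem_filter]
      by_cases c1 : Exp σ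
      · by_cases c2 : (edg σ).card + 8 * D ^ 2 < D * N
        · exact Or.inr (Or.inl ⟨mem_univ _, c2⟩)
        · exact Or.inr (Or.inr ⟨mem_univ _, hcon σ c1 (not_lt.mp c2)⟩)
      · exact Or.inl ⟨mem_univ _, c1⟩
    have hc := card_le_card hcov
    rw [card_univ, hall] at hc
    have hu1 := card_union_le (univ.filter (fun σ : Fin D → Equiv.Perm (Fin N) => ¬ Exp σ))
        ((univ.filter (fun σ => (edg σ).card + 8 * D ^ 2 < D * N)) ∪
        (univ.filter (fun σ => 16 * (2 * r) * (2 * D) ^ (2 * r) <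
          (bad (edg σ) (2 * r)).card)))
    have hu2 := card_union_le
      (univ.filter (fun σ : Fin D → Equiv.Perm (Fin N) => (edg σ).card + 8 * D ^ 2 < D * N))
        (univ.filter (fun σ => 16 * (2 * r) * (2 * D) ^ (2 * r) <
          (bad (edg σ) (2 * r)).card))
    omega
  refine ⟨edg σ, edg_maxDeg σ, poinc_of_exp (by omega) σ h1, ?_, bad (edg σ) (2 * r),
    filter_subset _ _, ?_, bad_noShort (edg σ) (2 * r)⟩
  · have : 16 * D ^ 2 ≤ D * N := by nlinarith
    omega
  · push Not at h3
    have h4 : (16 * (2 * r) * (2 * D) ^ (2 * r)) ^ 2 = 1024 * r ^ 2 * X := by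
      rw [hXdef]
      have : (2 * D) ^ (4 * r) = ((2 * D) ^ (2 * r)) ^ 2 := by
        rw [← pow_mul]; congr 1; ring
      rw [this]
      ring
    calc (bad (edg σ) (2 * r)).card ^ 2 ≤ (16 * (2 * r) * (2 * D) ^ (2 * r)) ^ 2 :=
          Nat.pow_le_pow_left h3 2
      _ = 1024 * r ^ 2 * X := h4
      _ ≤ X * X := Nat.mul_le_mul_right X hbig
      _ ≤ N := hXX

end Pool.Agent.P325ad
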