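import Mathlib
import Pool.Agent.Lib.P325ad.Defs
import Pool.Agent.Lib.P325ac.Circ

/-!
# P325ad.LowA: instances on a subgraph
-/

open Finset
open scoped BigOperators Classical

namespace Pool.Agent.P325ad

open Pool.Agent.P325ac (IsProb br esrc etgt MaxDeg shiftVal IsJunta IsCirc)

/-- The instance on `Ed` that agrees with `c` on `Ed'` and is zero elsewhere. -/
noncomputable def extI {N k : ℕ} (Ed Ed' : Finset (Fin N × Fin N))
    (c : {p // p ∈ Ed'} → Fin k → Bool) : {p // p ∈ Ed} → Fin k → Bool :=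
  fun e j => if h : e.1 ∈ Ed' then c ⟨e.1, h⟩ j else false

namespace LowAAux

theorem card_sub {N : ℕ} (Ed : Finset (Fin N × Fin N)) (P : Fin N × Fin N → Prop) :
    ((univ : Finset {p // p ∈ Ed}).filter (fun e => P e.1)).card = (Ed.filter P).card := by
  rw [← Finset.card_map ⟨Subtype.val, Subtype.val_injective⟩]
  congr 1
  ext p
  simp only [Finset.mem_map, Finset.mem_filter, Finset.mem_univ, true_and,
    Function.Embedding.coeFn_mk]
  constructor
  · rintro ⟨e, he, rfl⟩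
    exact ⟨e.2, he⟩
  · rintro ⟨h1, h2⟩
    exact ⟨⟨p, h1⟩, h2, rfl⟩

theorem val_ge {N k : ℕ} (Ed : Finset (Fin N × Fin N)) (c : {p // p ∈ Ed} → Fin k → Bool)
    (z : Fin N ⊕ Fin N → Fin k → Bool) :
    (((univ : Finset {p // p ∈ Ed}).filter
      (fun e => ∀ i, xor (z (esrc Ed e) i) (c e i) = z (etgt Ed e) i)).card : ℝ) ≤
      shiftVal (esrc Ed) (etgt Ed) k c * Ed.card := by
  have hle : (((univ : Finset {p // p ∈ Ed}).filter
      (fun e => ∀ i, xor (z (esrc Ed e) i) (c e i) = z (etgt Ed e) i)).card : ℝ) / Ed.card ≤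
      shiftVal (esrc Ed) (etgt Ed) k c := by
    have h : (((univ : Finset {p // p ∈ Ed}).filter
        (fun e => ∀ i, xor (z (esrc Ed e) i) (c e i) = z (etgt Ed e) i)).card : ℝ) /
        Fintype.card {p // p ∈ Ed} ≤ shiftVal (esrc Ed) (etgt Ed) k c :=
      le_ciSup (Set.finite_range (fun z : Fin N ⊕ Fin N → Fin k → Bool =>
      (((univ : Finset {p // p ∈ Ed}).filter
        (fun e => ∀ i, xor (z (esrc Ed e) i) (c e i) = z (etgt Ed e) i)).card : ℝ) /
        Fintype.card {p // p ∈ Ed})).bddAbove z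
    rwa [Fintype.card_coe] at h
  rcases Nat.eq_zero_or_pos Ed.card with h0 | h0
  · have h1 : ((univ : Finset {p // p ∈ Ed}).filter
        (fun e => ∀ i, xor (z (esrc Ed e) i) (c e i) = z (etgt Ed e) i)).card ≤ Ed.card := by
      refine (Finset.card_filter_le _ _).trans ?_
      rw [Finset.card_univ, Fintype.card_coe]
    rw [h0] at h1 ⊢
    rw [Nat.le_zero.1 h1]
    simp
  · have h2 : (0 : ℝ) < Ed.card := Nat.cast_pos.2 h0
    exact (div_le_iff₀ h2).1 hle

theorem val_eq {N k : ℕ} (Ed : Finset (Fin N × Fin N)) (c : {p // p ∈ Ed} → Fin k → Bool) :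
    ∃ z : Fin N ⊕ Fin N → Fin k → Bool,
      shiftVal (esrc Ed) (etgt Ed) k c * Ed.card ≤ (((univ : Finset {p // p ∈ Ed}).filter
        (fun e => ∀ i, xor (z (esrc Ed e) i) (c e i) = z (etgt Ed e) i)).card : ℝ) := by
  obtain ⟨z, hz⟩ := exists_eq_ciSup_of_finite (f := fun z : Fin N ⊕ Fin N → Fin k → Bool =>
      (((univ : Finset {p // p ∈ Ed}).filter
        (fun e => ∀ i, xor (z (esrc Ed e) i) (c e i) = z (etgt Ed e) i)).card : ℝ) /
        Fintype.card {p // p ∈ Ed})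
  refine ⟨z, ?_⟩
  have hz' : shiftVal (esrc Ed) (etgt Ed) k c = (((univ : Finset {p // p ∈ Ed}).filter
        (fun e => ∀ i, xor (z (esrc Ed e) i) (c e i) = z (etgt Ed e) i)).card : ℝ) / Ed.card := by
    rw [← Fintype.card_coe Ed]
    exact hz.symm
  rw [hz']
  rcases Nat.eq_zero_or_pos Ed.card with h0 | h0
  · rw [h0]
    simp
  · have h2 : (Ed.card : ℝ) ≠ 0 := Nat.cast_ne_zero.2 h0.ne'
    rw [div_mul_cancel₀ _ h2]

/-- The constraint of the pair `p`. -/
def con {N k : ℕ} (Ed' : Finset (Fin N × Fin N)) (c : {p // p ∈ Ed'} → Fin k → Bool)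
    (z : Fin N ⊕ Fin N → Fin k → Bool) (p : Fin N × Fin N) : Prop :=
  ∀ i, xor (z (Sum.inl p.1) i) (if h : p ∈ Ed' then c ⟨p, h⟩ i else false) = z (Sum.inr p.2) i

theorem sat_small {N k : ℕ} (Ed' : Finset (Fin N × Fin N)) (c : {p // p ∈ Ed'} → Fin k → Bool)
    (z : Fin N ⊕ Fin N → Fin k → Bool) :
    ((univ : Finset {p // p ∈ Ed'}).filter
      (fun e => ∀ i, xor (z (esrc Ed' e) i) (c e i) = z (etgt Ed' e) i)).card =
      (Ed'.filter (con Ed' c z)).card := by
  rw [← card_sub]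
  congr 1
  refine Finset.filter_congr fun e _ => ?_
  unfold con
  rw [show (∀ i, xor (z (esrc Ed' e) i) (c e i) = z (etgt Ed' e) i) ↔
    ∀ i, xor (z (Sum.inl e.1.1) i) (c e i) = z (Sum.inr e.1.2) i from Iff.rfl]
  refine forall_congr' fun i => ?_
  rw [dif_pos e.2]

theorem sat_big {N k : ℕ} (Ed Ed' : Finset (Fin N × Fin N)) (c : {p // p ∈ Ed'} → Fin k → Bool)
    (z : Fin N ⊕ Fin N → Fin k → Bool) :
    ((univ : Finset {p // p ∈ Ed}).filter
      (fun e => ∀ i, xor (z (esrc Ed e) i) (extI Ed Ed' c e i) = z (etgt Ed e) i)).card =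
      (Ed.filter (con Ed' c z)).card := by
  rw [← card_sub]
  congr 1
  ext e
  rw [Finset.mem_filter, Finset.mem_filter]
  exact Iff.rfl

theorem circ_mono {X G : Type} {inp inp' : (X → Bool) → Prop} {lv : G → ℕ}
    {val : G → X → Bool} (h : ∀ f, inp f → inp' f) (hc : IsCirc inp lv val) :
    IsCirc inp' lv val := by
  intro g
  obtain ⟨W, hW, h2⟩ := hc g
  exact ⟨W, fun f hf => (hW f hf).imp (h f) id, h2⟩

end LowAAux

open LowAAux

theorem extI_ge {N k : ℕ} (Ed Ed' : Finset (Fin N × Fin N)) (hsub : Ed' ⊆ Ed)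
    (c : {p // p ∈ Ed'} → Fin k → Bool) :
    shiftVal (esrc Ed') (etgt Ed') k c * Ed'.card ≤
      shiftVal (esrc Ed) (etgt Ed) k (extI Ed Ed' c) * Ed.card := by
  obtain ⟨z, hz⟩ := val_eq Ed' c
  refine hz.trans (le_trans ?_ (val_ge Ed (extI Ed Ed' c) z))
  rw [sat_small, sat_big]
  exact Nat.cast_le.2 (Finset.card_le_card (Finset.filter_subset_filter _ hsub))

theorem extI_le {N k : ℕ} (Ed Ed' : Finset (Fin N × Fin N)) (hsub : Ed' ⊆ Ed)
    (c : {p // p ∈ Ed'} → Fin k → Bool) :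
    shiftVal (esrc Ed) (etgt Ed) k (extI Ed Ed' c) * Ed.card ≤
      shiftVal (esrc Ed') (etgt Ed') k c * Ed'.card + (Ed \ Ed').card := by
  obtain ⟨z, hz⟩ := val_eq Ed (extI Ed Ed' c)
  have h1 := val_ge Ed' c z
  rw [sat_big] at hz
  rw [sat_small] at h1
  have h2 : (Ed.filter (con Ed' c z)).card ≤
      (Ed'.filter (con Ed' c z)).card + (Ed \ Ed').card := by
    refine le_trans (Finset.card_le_card ?_) (Finset.card_union_le _ _)
    intro p hp
    rw [Finset.mem_filter] at hp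
    by_cases h : p ∈ Ed'
    · exact Finset.mem_union_left _ (Finset.mem_filter.2 ⟨h, hp.2⟩)
    · exact Finset.mem_union_right _ (Finset.mem_sdiff.2 ⟨hp.1, h⟩)
  have h3 : ((Ed.filter (con Ed' c z)).card : ℝ) ≤
      (Ed'.filter (con Ed' c z)).card + (Ed \ Ed').card := by
    exact_mod_cast h2
  linarith

theorem extI_circ {N k w : ℕ} {G : Type} (Ed Ed' : Finset (Fin N × Fin N)) {lv : G → ℕ}
    {val : G → ({p // p ∈ Ed} → Fin k → Bool) → Bool} (h : IsCirc (IsJunta w) lv val) :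
    IsCirc (IsJunta w) lv (fun g c => val g (extI Ed Ed' c)) := by
  refine circ_mono ?_ (h.subst (extI Ed Ed'))
  rintro f' ⟨f, ⟨S, hS, hf⟩, rfl⟩
  refine ⟨S.biUnion (fun e => if h : e.1 ∈ Ed' then {⟨e.1, h⟩} else ∅), ?_, ?_⟩
  · refine le_trans Finset.card_biUnion_le (le_trans (Finset.sum_le_card_nsmul _ _ 1 ?_) ?_)
    · intro e _
      split_ifs
      · simp
      · simp
    · simpa using hS
  · intro c c' hcc
    refine hf _ _ fun e he => ?_
    funext j
    unfold extI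
    by_cases h1 : e.1 ∈ Ed'
    · rw [dif_pos h1, dif_pos h1, hcc ⟨e.1, h1⟩]
      refine Finset.mem_biUnion.2 ⟨e, he, ?_⟩
      rw [dif_pos h1]
      exact Finset.mem_singleton_self _
    · rw [dif_neg h1, dif_neg h1]

/-- Push forward of probability weights. -/
theorem push {X Y : Type} [Fintype X] [Fintype Y] (φ : X → Y) (μ : X → ℝ) (hμ : IsProb μ) :
    ∃ ν : Y → ℝ, IsProb ν ∧ (∀ y, ν y ≠ 0 → ∃ x, μ x ≠ 0 ∧ φ x = y) ∧
      ∀ F : Y → ℝ, ∑ y, ν y * F y = ∑ x, μ x * F (φ x) := by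
  have hF : ∀ F : Y → ℝ, ∑ y, (∑ x, if φ x = y then μ x else 0) * F y = ∑ x, μ x * F (φ x) := by
    intro F
    have h1 : ∀ y, (∑ x, if φ x = y then μ x else 0) * F y =
        ∑ x, if φ x = y then μ x * F (φ x) else 0 := by
      intro y
      rw [Finset.sum_mul]
      refine Finset.sum_congr rfl fun x _ => ?_
      by_cases h : φ x = y
      · rw [if_pos h, if_pos h, h]
      · rw [if_neg h, if_neg h, zero_mul]
    rw [Finset.sum_congr rfl fun y _ => h1 y, Finset.sum_comm]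
    refine Finset.sum_congr rfl fun x _ => ?_
    rw [Finset.sum_ite_eq Finset.univ (φ x), if_pos (Finset.mem_univ _)]
  refine ⟨fun y => ∑ x, if φ x = y then μ x else 0, ⟨?_, ?_⟩, ?_, hF⟩
  · intro y
    refine Finset.sum_nonneg fun x _ => ?_
    split_ifs
    · exact hμ.1 x
    · exact le_rfl
  · have h2 := hF (fun _ => 1)
    simp only [mul_one] at h2
    exact h2.trans hμ.2
  · intro y hy
    obtain ⟨x, _, hx⟩ := Finset.exists_ne_zero_of_sum_ne_zero hy
    refine ⟨x, ?_, ?_⟩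
    · intro h0
      apply hx
      rw [h0]
      simp
    · by_contra h0
      exact hx (if_neg h0)

end Pool.Agent.P325ad
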