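import Mathlib
import Pool.Agent.Lib.P325ad.Defs
import Pool.Agent.Lib.P325ad.LowA
import Pool.Agent.Lib.P325ac.Main

/-!
# P325ad.LowB: the lower bound on graphs with few short cycles
-/

open Finset
open scoped BigOperators

namespace Pool.Agent.P325ad

open Pool.Agent.P325ac (IsProb br esrc etgt MaxDeg shiftVal IsJunta IsCirc gr NoShort)

namespace LowBAux

theorem br_nonneg (b : Bool) : 0 ≤ br b := by unfold br; split_ifs <;> norm_num

theorem br_le_one (b : Bool) : br b ≤ 1 := by unfold br; split_ifs <;> norm_num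

theorem diff_le_one {X : Type} [Fintype X] (μ1 μ0 : X → ℝ) (h1 : IsProb μ1) (h0 : IsProb μ0)
    (f : X → Bool) : |∑ c, μ1 c * br (f c) - ∑ c, μ0 c * br (f c)| ≤ 1 := by
  have key : ∀ μ : X → ℝ, IsProb μ → 0 ≤ ∑ c, μ c * br (f c) ∧ ∑ c, μ c * br (f c) ≤ 1 := by
    intro μ hμ
    refine ⟨Finset.sum_nonneg fun c _ => mul_nonneg (hμ.1 c) (br_nonneg _), ?_⟩
    rw [← hμ.2]
    refine Finset.sum_le_sum fun c _ => ?_
    calc μ c * br (f c) ≤ μ c * 1 := mul_le_mul_of_nonneg_left (br_le_one _) (hμ.1 c)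
      _ = μ c := mul_one _
  have a1 := key μ1 h1
  have a0 := key μ0 h0
  rw [abs_le]
  constructor <;> linarith [a1.1, a1.2, a0.1, a0.2]

/-- The constants of `core` with `ε / 2` and `d = (2 D) ^ 4` are bounded by `(B / ε) ^ B`. -/
theorem const_le {k D B : ℕ} (hk : 1 ≤ k) (hB1 : 3276800 * k ≤ B)
    (hB2 : 2 * (2 * D) ^ 4 + 2 ≤ B) {ε : ℝ} (hε : 0 < ε) (hε1 : ε < 1) :
    5 * ((5 * k + 2 / (ε / 2) + 1) *
      (1024 * (((1 + (1 - (ε / 2) / k)) / (1 - (1 - (ε / 2) / k))) ^ ((2 * D) ^ 4)) ^ 2 *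
        (32 / ((ε / 2) / k)))) ≤ ((B : ℝ) / ε) ^ B := by
  have hkR : (1 : ℝ) ≤ k := by exact_mod_cast hk
  have hBR : 3276800 * (k : ℝ) ≤ B := by exact_mod_cast hB1
  set Y : ℝ := (B : ℝ) / ε with hY
  have hYB : (B : ℝ) ≤ Y := by
    rw [hY, le_div_iff₀ hε]
    nlinarith
  have hY1 : 1 ≤ Y := by linarith
  have hkY : 3276800 * (k : ℝ) / ε ≤ Y := by
    rw [hY]
    exact div_le_div_of_nonneg_right hBR hε.le
  have hke : 0 < (k : ℝ) / ε := by positivity
  have hke1 : 1 ≤ (k : ℝ) / ε := by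
    rw [le_div_iff₀ hε]; linarith
  have a1 : 5 * (k : ℝ) + 2 / (ε / 2) + 1 ≤ 10 * (k / ε) := by
    have e1 : 2 / (ε / 2) = 4 * (1 / ε) := by field_simp; ring
    have e2 : 1 / ε ≤ k / ε := div_le_div_of_nonneg_right hkR hε.le
    have e3 : (k : ℝ) ≤ k / ε := by
      rw [le_div_iff₀ hε]; nlinarith
    rw [e1]
    linarith
  have a2 : (1 + (1 - (ε / 2) / k)) / (1 - (1 - (ε / 2) / k)) ≤ 4 * (k / ε) := by
    have e1 : 1 - (1 - (ε / 2) / (k : ℝ)) = ε / 2 / k := by ring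
    have e2 : 1 + (1 - (ε / 2) / (k : ℝ)) ≤ 2 := by
      have : 0 < ε / 2 / (k : ℝ) := by positivity
      linarith
    rw [e1, div_le_iff₀ (by positivity)]
    have e3 : 4 * ((k : ℝ) / ε) * (ε / 2 / k) = 2 := by field_simp; ring
    rw [e3]
    exact e2
  have a3 : 0 ≤ (1 + (1 - (ε / 2) / k)) / (1 - (1 - (ε / 2) / (k : ℝ))) := by
    have e1 : 1 - (1 - (ε / 2) / (k : ℝ)) = ε / 2 / k := by ring
    rw [e1]
    have e2 : ε / 2 / (k : ℝ) ≤ 1 := by
      rw [div_le_one (by linarith)]; linarith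
    apply div_nonneg (by linarith) (by positivity)
  have a4 : 32 / ((ε / 2) / k) = 64 * ((k : ℝ) / ε) := by field_simp; ring
  have a5 : (((1 + (1 - (ε / 2) / k)) / (1 - (1 - (ε / 2) / (k : ℝ)))) ^ ((2 * D) ^ 4)) ^ 2 ≤
      Y ^ (2 * (2 * D) ^ 4) := by
    rw [← pow_mul, mul_comm ((2 * D) ^ 4) 2]
    refine pow_le_pow_left₀ a3 (a2.trans ?_) _
    have : 4 * ((k : ℝ) / ε) ≤ 3276800 * k / ε := by
      rw [mul_div_assoc]
      linarith
    linarith
  rw [a4]
  have hb : 0 ≤ (((1 + (1 - (ε / 2) / k)) / (1 - (1 - (ε / 2) / (k : ℝ)))) ^ ((2 * D) ^ 4)) ^ 2 :=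
    by positivity
  set Q := (((1 + (1 - (ε / 2) / k)) / (1 - (1 - (ε / 2) / (k : ℝ)))) ^ ((2 * D) ^ 4)) ^ 2 with hQ
  have hkk : 3276800 * ((k : ℝ) / ε) ≤ Y := by
    have : 3276800 * ((k : ℝ) / ε) = 3276800 * k / ε := by ring
    linarith
  have step1 : 5 * ((5 * (k : ℝ) + 2 / (ε / 2) + 1) * (1024 * Q * (64 * (k / ε)))) ≤
      3276800 * (k / ε) * (k / ε) * Q := by
    have h1 : 0 ≤ 1024 * Q * (64 * ((k : ℝ) / ε)) := by positivity
    have h2 := mul_le_mul_of_nonneg_right a1 h1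
    have h3 : 5 * (10 * ((k : ℝ) / ε) * (1024 * Q * (64 * (k / ε)))) =
      3276800 * (k / ε) * (k / ε) * Q := by ring
    linarith
  have step2 : 3276800 * ((k : ℝ) / ε) * (k / ε) * Q ≤ Y * Y * Y ^ (2 * (2 * D) ^ 4) := by
    apply mul_le_mul _ a5 hb (by positivity)
    apply mul_le_mul hkk _ hke.le (by linarith)
    linarith
  have step3 : Y * Y * Y ^ (2 * (2 * D) ^ 4) ≤ Y ^ B := by
    have : Y * Y * Y ^ (2 * (2 * D) ^ 4) = Y ^ (2 * (2 * D) ^ 4 + 2) := by ring
    rw [this]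
    exact pow_le_pow_right₀ hY1 hB2
  linarith

end LowBAux

open LowBAux

theorem lower_bound (δ : ℝ) (hδ : 0 < δ) (hδ1 : δ < 1) (k : ℕ) (hk : 256 / δ ^ 2 ≤ 2 ^ k) (D : ℕ)
    (hD : 100 ≤ D) (hDδ : 64 / δ ≤ D) (B : ℕ) (hB1 : 3276800 * k ≤ B)
    (hB2 : 2 * (2 * D) ^ 4 + 2 ≤ B) (hB3 : 32 * k * D ≤ B) (hB4 : 1 / δ ^ 2 ≤ B)
    (hB5 : (2 * D) ^ 8 ≤ B)
    (N : ℕ) (hN : B ≤ N) (Ed : Finset (Fin N × Fin N)) (hEd : MaxDeg Ed D)
    (hm : D * N ≤ 2 * Ed.card) (Bd : Finset (Fin N × Fin N)) (hBd : Bd ⊆ Ed)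
    (hBd2 : Bd.card ^ 2 ≤ N) (hNS : NoShort (gr (Ed \ Bd)) (2 * Nat.log ((2 * D) ^ 8) N))
    (ε : ℝ) (hε : 0 < ε) (hε1 : ε < 1) :
    ∃ μ1 μ0 : ({p // p ∈ Ed} → Fin k → Bool) → ℝ, IsProb μ1 ∧ IsProb μ0 ∧
      (∀ c, μ1 c ≠ 0 → 1 - ε ≤ shiftVal (esrc Ed) (etgt Ed) k c) ∧
      (∀ c, μ0 c ≠ 0 → shiftVal (esrc Ed) (etgt Ed) k c ≤ δ) ∧
      ∀ (G : Type) [Fintype G] (h w : ℕ) (lv : G → ℕ)
        (val : G → ({p // p ∈ Ed} → Fin k → Bool) → Bool), 1 ≤ w →
        IsCirc (IsJunta w) lv val → (∀ g, lv g < h) → ∀ g,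
        |∑ c, μ1 c * br (val g c) - ∑ c, μ0 c * br (val g c)| ≤
          (((B : ℝ) / ε) ^ B * (w + Real.log (Fintype.card G * N))) ^ (5 * h) /
            (N : ℝ) ^ (ε / B) := by
  set Ed' : Finset (Fin N × Fin N) := Ed \ Bd with hEd'
  have hsub : Ed' ⊆ Ed := sdiff_subset
  have hsd : Ed \ Ed' = Bd := by rw [hEd', Finset.sdiff_sdiff_eq_self hBd]
  have hDR : (100 : ℝ) ≤ D := by exact_mod_cast hD
  have hbase : 1 < (2 * D) ^ 8 := Nat.one_lt_pow (by norm_num) (by omega)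
  have hN8 : (2 * D) ^ 8 ≤ N := hB5.trans hN
  have hr1 : 1 ≤ Nat.log ((2 * D) ^ 8) N := Nat.log_pos hbase hN8
  have hN1 : 1 ≤ N := by omega
  have hNR1 : (1 : ℝ) ≤ N := by exact_mod_cast hN1
  have hk9 : 9 ≤ k := by
    by_contra hcon
    have hk8 : k ≤ 8 := by omega
    have q1 : (2 : ℝ) ^ k ≤ 2 ^ 8 := pow_le_pow_right₀ (by norm_num) hk8
    have q2 : 256 < 256 / δ ^ 2 := by
      rw [lt_div_iff₀ (by positivity)]
      nlinarith
    norm_num at q1
    linarith
  have hkR : (9 : ℝ) ≤ k := by exact_mod_cast hk9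
  have hBk : (k : ℝ) ≤ B := by
    have : k ≤ B := by omega
    exact_mod_cast this
  have hB9 : (9 : ℝ) ≤ B := by linarith
  -- the number of bad edges
  set q : ℝ := Real.sqrt N with hq
  have hqq : q * q = N := Real.mul_self_sqrt (by linarith)
  have hq0 : 0 ≤ q := Real.sqrt_nonneg _
  have hq1 : 1 ≤ q := by
    by_contra hcon
    have : q * q < 1 := by nlinarith
    linarith
  have hb : (Bd.card : ℝ) ≤ q := by
    rw [hq]
    apply Real.le_sqrt_of_sq_le
    exact_mod_cast hBd2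
  have hb0 : (0 : ℝ) ≤ Bd.card := Nat.cast_nonneg _
  have hmR : (D : ℝ) * N ≤ 2 * Ed.card := by exact_mod_cast hm
  have hm50 : 50 * (N : ℝ) ≤ Ed.card := by nlinarith
  have hmpos : (0 : ℝ) < Ed.card := by linarith
  have hm' : (Ed'.card : ℝ) = Ed.card - Bd.card := by
    rw [hEd', card_sdiff_of_subset hBd, Nat.cast_sub (card_le_card hBd)]
  have hm'0 : (0 : ℝ) ≤ Ed'.card := Nat.cast_nonneg _
  have hqN : q ≤ N := by rw [← hqq]; nlinarith
  have h8 : 8 * (N : ℝ) ≤ δ / 2 * Ed'.card := by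
    have c1 : (D : ℝ) * N / 4 ≤ Ed'.card := by
      rw [hm']
      nlinarith
    have c2 : 64 ≤ δ * D := by
      have := mul_le_mul_of_nonneg_left hDδ hδ.le
      rwa [mul_div_cancel₀ _ hδ.ne'] at this
    have c3 : 64 * (N : ℝ) ≤ δ * D * N := mul_le_mul_of_nonneg_right c2 (by linarith)
    have c4 : δ / 2 * ((D : ℝ) * N / 4) ≤ δ / 2 * Ed'.card :=
      mul_le_mul_of_nonneg_left c1 (by linarith)
    nlinarith
  have hcardE : Fintype.card {p // p ∈ Ed'} = Ed'.card := Fintype.card_coe _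
  have hmN : Ed'.card ≤ N * N := by
    calc Ed'.card ≤ (univ : Finset (Fin N × Fin N)).card := card_le_card (subset_univ _)
      _ = N * N := by simp
  have hEdD : MaxDeg Ed' D := by
    refine ⟨fun i => (card_le_card (filter_subset_filter _ hsub)).trans (hEd.1 i),
      fun j => (card_le_card (filter_subset_filter _ hsub)).trans (hEd.2 j)⟩
  have hDle : D ≤ (2 * D) ^ 4 := by
    calc D ≤ 2 * D := by omega
      _ = (2 * D) ^ 1 := (pow_one _).symm
      _ ≤ (2 * D) ^ 4 := Nat.pow_le_pow_right (by omega) (by norm_num)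
  have hcore : ∀ e : ℝ, 0 < e → e < 1 → ∃ μ1 μ0 : ({p // p ∈ Ed'} → Fin k → Bool) → ℝ,
      IsProb μ1 ∧ IsProb μ0 ∧
      (∀ c, μ1 c ≠ 0 → 1 - e ≤ shiftVal (esrc Ed') (etgt Ed') k c) ∧
      (∀ c, μ0 c ≠ 0 → shiftVal (esrc Ed') (etgt Ed') k c ≤ δ / 2) ∧
      ∀ (G : Type) [Fintype G] (h w : ℕ) (lv : G → ℕ)
        (val : G → ({p // p ∈ Ed'} → Fin k → Bool) → Bool), 1 ≤ w →
        IsCirc (IsJunta w) lv val → (∀ g, lv g < h) → ∀ g,
        |∑ c, μ1 c * br (val g c) - ∑ c, μ0 c * br (val g c)| ≤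
          (5 * ((5 * k + 2 / e + 1) *
            (1024 * (((1 + (1 - e / k)) / (1 - (1 - e / k))) ^ ((2 * D) ^ 4)) ^ 2 *
              (32 / (e / k)))) *
              (w + Real.log (Fintype.card G * N))) ^ (5 * h) /
            (N : ℝ) ^ (e / (2 * k * Real.log ((2 * D) ^ 4 : ℕ))) := by
    intro e he he1
    refine Pool.Agent.P325ac.core_inst (esrc Ed') (etgt Ed') (δ / 2) e k ((2 * D) ^ 4)
      (Nat.log ((2 * D) ^ 8) N) N (by linarith) (by linarith) he he1 ?_ (by omega) ?_ hr1 hN1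
      ?_ ?_ ?_ ?_ ?_
    · have : 64 / (δ / 2) ^ 2 = 256 / δ ^ 2 := by field_simp; norm_num
      rw [this]
      exact hk
    · omega
    · have : ((2 * D) ^ 4) ^ 2 = (2 * D) ^ 8 := by rw [← pow_mul]
      rw [this]
      have h1 := Nat.lt_pow_succ_log_self hbase N
      rw [Nat.succ_eq_add_one] at h1
      exact lt_of_lt_of_le h1 (Nat.le_mul_of_pos_left _ (by norm_num))
    · intro e0
      obtain ⟨Bl, hBl⟩ := Pool.Agent.P325ac.ball_exists hr1 Ed' hEdD hNS e0
      exact ⟨Bl, fun f => (hBl f).trans hDle⟩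
    · rw [Fintype.card_sum, Fintype.card_fin]; ring
    · rw [hcardE]; exact h8
    · rw [hcardE]; exact hmN
  have hval0 : ∀ c' : {p // p ∈ Ed'} → Fin k → Bool,
      shiftVal (esrc Ed') (etgt Ed') k c' ≤ δ / 2 →
      shiftVal (esrc Ed) (etgt Ed) k (extI Ed Ed' c') ≤ δ := by
    intro c' hc'
    have h1 := extI_le Ed Ed' hsub c'
    rw [hsd] at h1
    have h2 : shiftVal (esrc Ed') (etgt Ed') k c' * Ed'.card ≤ δ / 2 * Ed.card := by
      calc _ ≤ δ / 2 * (Ed'.card : ℝ) := mul_le_mul_of_nonneg_right hc' hm'0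
        _ ≤ δ / 2 * Ed.card := by
          apply mul_le_mul_of_nonneg_left _ (by linarith)
          rw [hm']; linarith
    have h3 : q ≤ δ / 2 * Ed.card := by
      have c1 : 1 ≤ δ * q := by
        have c2 : 1 / δ ^ 2 ≤ N := hB4.trans (by exact_mod_cast hN)
        rw [div_le_iff₀ (by positivity)] at c2
        by_contra hcon
        have c3 : δ * q < 1 := not_le.mp hcon
        have c4 : (δ * q) * (δ * q) < 1 := by
          have : 0 ≤ δ * q := by positivity
          nlinarith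
        have c5 : (δ * q) * (δ * q) = N * δ ^ 2 := by rw [← hqq]; ring
        linarith
      have c6 : q ≤ δ * N := by
        rw [← hqq]
        have := mul_le_mul_of_nonneg_right c1 hq0
        linarith
      nlinarith
    have h4 : shiftVal (esrc Ed) (etgt Ed) k (extI Ed Ed' c') * Ed.card ≤ δ * Ed.card := by
      linarith
    exact le_of_mul_le_mul_right h4 hmpos
  by_cases hcase : 1 ≤ ε * q
  · obtain ⟨μ1, μ0, p1, p0, v1, v0, hb'⟩ := hcore (ε / 2) (by linarith) (by linarith)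
    obtain ⟨ν1, n1, s1, f1⟩ := push (extI (k := k) Ed Ed') μ1 p1
    obtain ⟨ν0, n0, s0, f0⟩ := push (extI (k := k) Ed Ed') μ0 p0
    refine ⟨ν1, ν0, n1, n0, ?_, ?_, ?_⟩
    · intro c hc
      obtain ⟨c', hc', rfl⟩ := s1 c hc
      have h1 := extI_ge Ed Ed' hsub c'
      have h2 := v1 c' hc'
      have h3 : (1 - ε / 2) * Ed'.card ≤
          shiftVal (esrc Ed) (etgt Ed) k (extI Ed Ed' c') * Ed.card :=
        (mul_le_mul_of_nonneg_right h2 hm'0).trans h1
      have h4 : q ≤ ε / 2 * Ed.card := by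
        have c1 : q ≤ ε * N := by
          rw [← hqq]
          have := mul_le_mul_of_nonneg_right hcase hq0
          linarith
        nlinarith
      have h5 : (1 - ε) * Ed.card ≤ (1 - ε / 2) * Ed'.card := by
        rw [hm']
        have : 0 ≤ ε / 2 * (Bd.card : ℝ) := by positivity
        nlinarith
      exact le_of_mul_le_mul_right (h5.trans h3) hmpos
    · intro c hc
      obtain ⟨c', hc', rfl⟩ := s0 c hc
      exact hval0 c' (v0 c' hc')
    · intro G _ h w lv val hw hc hlv g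
      rw [f1, f0]
      refine (hb' G h w lv (fun g c => val g (extI Ed Ed' c)) hw (extI_circ Ed Ed' hc) hlv
        g).trans ?_
      have hs1 : 1 ≤ Fintype.card G := Fintype.card_pos_iff.mpr ⟨g⟩
      have hsR : (1 : ℝ) ≤ Fintype.card G := by exact_mod_cast hs1
      have hlog : 0 ≤ Real.log (Fintype.card G * N) := Real.log_nonneg (by nlinarith)
      have hx : 0 ≤ (w : ℝ) + Real.log (Fintype.card G * N) := by positivity
      have hlogd : Real.log ((2 * D) ^ 4 : ℕ) ≤ 8 * D := by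
        push_cast
        rw [Real.log_pow]
        have := Real.log_le_sub_one_of_pos (show (0 : ℝ) < 2 * D by linarith)
        push_cast
        linarith
      have hlogd0 : 0 < Real.log ((2 * D) ^ 4 : ℕ) := by
        apply Real.log_pos
        have : 1 < (2 * D) ^ 4 := Nat.one_lt_pow (by norm_num) (by omega)
        exact_mod_cast this
      have hconst := const_le (k := k) (D := D) (B := B) (by omega) hB1 hB2 hε hε1
      have hexp : ε / B ≤ ε / 2 / (2 * k * Real.log ((2 * D) ^ 4 : ℕ)) := by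
        rw [div_div]
        apply div_le_div_of_nonneg_left hε.le (by positivity)
        have c1 : 2 * (2 * (k : ℝ) * Real.log ((2 * D) ^ 4 : ℕ)) ≤ 32 * k * D := by nlinarith
        have c2 : (32 * (k : ℝ) * D) ≤ B := by exact_mod_cast hB3
        linarith
      have hpw := Real.rpow_le_rpow_of_exponent_le hNR1 hexp
      have hpos : 0 < (N : ℝ) ^ (ε / B) := Real.rpow_pos_of_pos (by linarith) _
      apply div_le_div₀ (by positivity) _ hpos hpw
      apply pow_le_pow_left₀ _ (mul_le_mul_of_nonneg_right hconst hx)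
      apply mul_nonneg _ hx
      have e1 : 1 - (1 - ε / 2 / (k : ℝ)) = ε / 2 / k := by ring
      rw [e1]
      positivity
  · obtain ⟨μ1, μ0, p1, p0, v1, v0, hb'⟩ := hcore (1 / 2) (by norm_num) (by norm_num)
    obtain ⟨ν0, n0, s0, f0⟩ := push (extI (k := k) Ed Ed') μ0 p0
    have hE0 : (0 : ℝ) < Fintype.card {p // p ∈ Ed} := by
      rw [Fintype.card_coe]; exact hmpos
    refine ⟨fun c => if c = fun _ _ => false then 1 else 0, ν0, ⟨?_, ?_⟩, n0, ?_, ?_, ?_⟩
    · intro c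
      show (0 : ℝ) ≤ if c = fun _ _ => false then 1 else 0
      split_ifs <;> norm_num
    · rw [Finset.sum_ite_eq' univ (fun _ _ => false) (fun _ => (1 : ℝ)), if_pos (mem_univ _)]
    · intro c hc
      have hc0 : c = fun _ _ => false := by
        by_contra hcon
        exact hc (if_neg hcon)
      subst hc0
      have h1 : (1 : ℝ) ≤ shiftVal (esrc Ed) (etgt Ed) k (fun _ _ => false) := by
        unfold shiftVal
        refine le_trans ?_ (le_ciSup (Set.finite_range _).bddAbove (fun _ _ => false))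
        rw [Finset.filter_true_of_mem (fun e _ i => by simp), Finset.card_univ,
          div_self hE0.ne']
      linarith
    · intro c hc
      obtain ⟨c', hc', rfl⟩ := s0 c hc
      exact hval0 c' (v0 c' hc')
    · intro G _ h w lv val hw hc hlv g
      refine (diff_le_one _ _ ⟨?_, ?_⟩ n0 (val g)).trans ?_
      · intro c
        show (0 : ℝ) ≤ if c = fun _ _ => false then 1 else 0
        split_ifs <;> norm_num
      · rw [Finset.sum_ite_eq' univ (fun _ _ => false) (fun _ => (1 : ℝ)), if_pos (mem_univ _)]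
      have hh : 1 ≤ h := by
        have := hlv g
        omega
      have hs1 : 1 ≤ Fintype.card G := Fintype.card_pos_iff.mpr ⟨g⟩
      have hsR : (1 : ℝ) ≤ Fintype.card G := by exact_mod_cast hs1
      have hlog : 0 ≤ Real.log (Fintype.card G * N) := Real.log_nonneg (by nlinarith)
      have hwR : (1 : ℝ) ≤ w := by exact_mod_cast hw
      have hx : 1 ≤ (w : ℝ) + Real.log (Fintype.card G * N) := by linarith
      have hY : q ≤ (B : ℝ) / ε := by
        rw [le_div_iff₀ hε]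
        have : ε * q < 1 := not_le.mp hcase
        linarith
      have hY1 : 1 ≤ (B : ℝ) / ε := hq1.trans hY
      have hpos : 0 < (N : ℝ) ^ (ε / B) := Real.rpow_pos_of_pos (by linarith) _
      rw [le_div_iff₀ hpos, one_mul]
      have c1 : (N : ℝ) ^ (ε / B) ≤ N := by
        calc (N : ℝ) ^ (ε / B) ≤ (N : ℝ) ^ (1 : ℝ) := by
              apply Real.rpow_le_rpow_of_exponent_le hNR1
              rw [div_le_one (by linarith)]
              linarith
          _ = N := Real.rpow_one _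
      have c2 : (N : ℝ) ≤ ((B : ℝ) / ε) ^ B := by
        rw [← hqq]
        calc q * q ≤ ((B : ℝ) / ε) * ((B : ℝ) / ε) := mul_le_mul hY hY hq0 (by linarith)
          _ = ((B : ℝ) / ε) ^ 2 := by ring
          _ ≤ ((B : ℝ) / ε) ^ B := pow_le_pow_right₀ hY1 (by omega)
      have c3 : ((B : ℝ) / ε) ^ B ≤
          ((B : ℝ) / ε) ^ B * (w + Real.log (Fintype.card G * N)) := by
        have : 0 ≤ ((B : ℝ) / ε) ^ B := by positivity
        nlinarith
      have c4 : 1 ≤ ((B : ℝ) / ε) ^ B * (w + Real.log (Fintype.card G * N)) := by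
        linarith
      calc (N : ℝ) ^ (ε / B) ≤ N := c1
        _ ≤ ((B : ℝ) / ε) ^ B * (w + Real.log (Fintype.card G * N)) := c2.trans c3
        _ = (((B : ℝ) / ε) ^ B * (w + Real.log (Fintype.card G * N))) ^ 1 := (pow_one _).symm
        _ ≤ (((B : ℝ) / ε) ^ B * (w + Real.log (Fintype.card G * N))) ^ (5 * h) :=
          pow_le_pow_right₀ c4 (by omega)


end Pool.Agent.P325ad
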