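import Mathlib
import Pool.Agent.Lib.P325ad.Defs

/-!
# P325ad.Par: choice of the parameters of the circuits
-/

open Finset
open scoped BigOperators Classical

namespace Pool.Agent.P325ad

/-- The size of the circuits. -/
def csz (k m r h' L : ℕ) : ℕ :=
  1 + k * (1 + (k * m + 1) * (1 + (k * m + 1) *
    (((r + 2) * (r ^ h' + 1) ^ r) ^ h' * (1 + 2 ^ (k * L)))))

namespace ParAux

lemma csz_le (k m r h' L : ℕ) (hk : 1 ≤ k) :
    csz k m r h' L ≤ 16 * k * (k * m + 1) ^ 2 * ((r + 2) * (r ^ h' + 1) ^ r) ^ h' * 2 ^ (k * L) := by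
  unfold csz
  set P : ℕ := ((r + 2) * (r ^ h' + 1) ^ r) ^ h' with hP
  have hP1 : 1 ≤ P := Nat.one_le_iff_ne_zero.mpr (by positivity)
  set M : ℕ := k * m + 1 with hM
  have hM1 : 1 ≤ M := by omega
  set T : ℕ := 2 ^ (k * L) with hT
  have hT1 : 1 ≤ T := Nat.one_le_iff_ne_zero.mpr (by positivity)
  have h1 : P * (1 + T) ≤ 2 * (P * T) := by nlinarith
  have hPT : 1 ≤ P * T := Nat.one_le_iff_ne_zero.mpr (by positivity)
  have h2 : 1 + M * (P * (1 + T)) ≤ 4 * (M * (P * T)) - (M * (P * T)) := by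
    have h3 : M * (P * (1 + T)) ≤ M * (2 * (P * T)) := Nat.mul_le_mul_left _ h1
    have h4 : 1 ≤ M * (P * T) := Nat.one_le_iff_ne_zero.mpr (by positivity)
    have h5 : M * (2 * (P * T)) = 2 * (M * (P * T)) := by ring
    omega
  have h2' : 1 + M * (P * (1 + T)) ≤ 3 * (M * (P * T)) := by omega
  have h6 : 1 + M * (1 + M * (P * (1 + T))) ≤ 4 * (M * (M * (P * T))) := by
    have h3 : M * (1 + M * (P * (1 + T))) ≤ M * (3 * (M * (P * T))) := Nat.mul_le_mul_left _ h2'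
    have h4 : 1 ≤ M * (M * (P * T)) := Nat.one_le_iff_ne_zero.mpr (by positivity)
    have h5 : M * (3 * (M * (P * T))) = 3 * (M * (M * (P * T))) := by ring
    omega
  have h7 : 1 + k * (1 + M * (1 + M * (P * (1 + T)))) ≤ 5 * (k * (M * (M * (P * T)))) := by
    have h3 : k * (1 + M * (1 + M * (P * (1 + T)))) ≤ k * (4 * (M * (M * (P * T)))) :=
      Nat.mul_le_mul_left _ h6
    have h4 : 1 ≤ k * (M * (M * (P * T))) := Nat.one_le_iff_ne_zero.mpr (by positivity)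
    have h5 : k * (4 * (M * (M * (P * T)))) = 4 * (k * (M * (M * (P * T)))) := by ring
    omega
  refine h7.trans ?_
  have h8 : 16 * k * M ^ 2 * P * T = 16 * (k * (M * (M * (P * T)))) := by ring
  rw [h8]
  omega

lemma log_P (r h' : ℕ) (hr : 1 ≤ r) (hh : 1 ≤ h') :
    Real.log (((((r + 2) * (r ^ h' + 1) ^ r) ^ h' : ℕ)) : ℝ) ≤ 3 * (h' : ℝ) ^ 2 * (r : ℝ) ^ 2 := by
  have hr' : (1 : ℝ) ≤ r := by exact_mod_cast hr
  have hh' : (1 : ℝ) ≤ h' := by exact_mod_cast hh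
  push_cast
  rw [Real.log_pow, Real.log_mul (by positivity) (by positivity), Real.log_pow]
  have h1 : Real.log ((r : ℝ) + 2) ≤ 2 * (r : ℝ) ^ 2 := by
    have := Real.log_le_sub_one_of_pos (by positivity : (0 : ℝ) < (r : ℝ) + 2)
    nlinarith
  have h2 : Real.log ((r : ℝ) ^ h' + 1) ≤ h' * r := by
    have h3 : (r : ℝ) ^ h' + 1 ≤ 2 * (r : ℝ) ^ h' := by
      have := one_le_pow₀ hr' (n := h')
      linarith
    have h4 : Real.log ((r : ℝ) ^ h' + 1) ≤ Real.log (2 * (r : ℝ) ^ h') :=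
      Real.log_le_log (by positivity) h3
    rw [Real.log_mul (by norm_num) (by positivity), Real.log_pow] at h4
    have h5 : Real.log (r : ℝ) ≤ r - 1 := Real.log_le_sub_one_of_pos (by positivity)
    have h6 : Real.log 2 < 1 := by
      have := Real.log_two_lt_d9
      linarith
    have h7 : (h' : ℝ) * Real.log r ≤ h' * (r - 1) := mul_le_mul_of_nonneg_left h5 (by positivity)
    nlinarith
  have h8 : (r : ℝ) * Real.log ((r : ℝ) ^ h' + 1) ≤ h' * (r : ℝ) ^ 2 := by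
    have := mul_le_mul_of_nonneg_left h2 (by positivity : (0 : ℝ) ≤ r)
    nlinarith
  have h9 : Real.log ((r : ℝ) + 2) + r * Real.log ((r : ℝ) ^ h' + 1) ≤ 3 * h' * (r : ℝ) ^ 2 := by
    have : 2 * (r : ℝ) ^ 2 ≤ 2 * h' * (r : ℝ) ^ 2 := by nlinarith [sq_nonneg (r : ℝ)]
    nlinarith
  have h10 := mul_le_mul_of_nonneg_left h9 (by positivity : (0 : ℝ) ≤ h')
  nlinarith

end ParAux

open ParAux in
theorem params (k D : ℕ) (hk : 1 ≤ k) (hD : 1 ≤ D) (β : ℝ) (hβ : 0 < β) (hβ1 : β ≤ 1 / 2) :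
    ∃ B : ℕ, 1 ≤ B ∧ ∀ (N m h : ℕ) (ε : ℝ), 3 ≤ N → m ≤ D * N → 7 ≤ h → 0 ≤ ε → ε ≤ β / 2 →
      ∃ L r h' : ℕ, 1 ≤ L ∧ 2 * h' + 5 ≤ h ∧
        16 * ((2 * N : ℕ) : ℝ) * (1 - β) ^ L ≤ (1 - ε) ^ L ∧
        100 * Real.log (4 * ((k * m + 1 : ℕ) : ℝ)) ≤ ((1 - ε) ^ L) ^ 2 * (r : ℝ) ^ h' ∧
        Real.log (csz k m r h' L) ≤
          B * Real.log N + B * h ^ 2 * ((N : ℝ) ^ ε * Real.log N) ^ ((B : ℝ) / h) := by
  have hk' : (1 : ℝ) ≤ k := by exact_mod_cast hk
  have hD' : (1 : ℝ) ≤ D := by exact_mod_cast hD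
  set C1 : ℝ := 1 + Real.log (4 * ((k : ℝ) * D + 1)) with hC1
  have hC1' : 1 ≤ C1 := by
    have : 0 ≤ Real.log (4 * ((k : ℝ) * D + 1)) := Real.log_nonneg (by nlinarith)
    linarith
  set C : ℝ := 100 * Real.exp 17 * C1 with hC
  have hC' : 1 ≤ C := by
    have h1 : 1 ≤ Real.exp 17 := Real.one_le_exp (by norm_num)
    have h2 : 1 ≤ Real.exp 17 * C1 := by nlinarith
    rw [hC]
    nlinarith
  obtain ⟨B, hB⟩ := exists_nat_ge (16 * (k : ℝ) + 2 * C1 + k * (10 / β + 1) + 12 * C ^ 3 + 128 / β + 16)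
  have hb1 : 0 < 10 / β := by positivity
  have hb2 : 0 < 128 / β := by positivity
  have hb3 : 0 < k * (10 / β + 1) := by positivity
  have hb4 : 0 < 12 * C ^ 3 := by positivity
  have hBa : 16 * (k : ℝ) + 2 * C1 + k * (10 / β + 1) ≤ B := by linarith
  have hBb : 12 * C ^ 3 ≤ B := by linarith
  have hBc : 128 / β ≤ B := by linarith
  have hBd : (16 : ℝ) ≤ B := by linarith
  have hB1 : 1 ≤ B := by
    have : (1 : ℝ) ≤ B := by linarith
    exact_mod_cast this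
  refine ⟨B, hB1, fun N m h ε hN hm hh hε hεβ => ?_⟩
  have hN' : (3 : ℝ) ≤ N := by exact_mod_cast hN
  have hN0 : (0 : ℝ) < N := by linarith
  have hh7 : (7 : ℝ) ≤ h := by exact_mod_cast hh
  have hh0 : (0 : ℝ) < h := by linarith
  set l : ℝ := Real.log N with hl
  have hl1 : 1 ≤ l := by
    rw [hl, Real.le_log_iff_exp_le hN0]
    have := Real.exp_one_lt_d9
    linarith
  have hlog32 : Real.log (32 * N) ≤ l + 4 := by
    rw [Real.log_mul (by norm_num) hN0.ne']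
    have h1 : Real.log 32 = 5 * Real.log 2 := by
      rw [show (32 : ℝ) = 2 ^ 5 by norm_num, Real.log_pow]
      norm_num
    have := Real.log_two_lt_d9
    linarith
  have hlog32' : 0 < Real.log (32 * N) := Real.log_pos (by linarith)
  set L : ℕ := ⌈2 / β * Real.log (32 * N)⌉₊ with hL
  have hx0 : 0 < 2 / β * Real.log (32 * N) := by positivity
  have hL1 : 1 ≤ L := Nat.ceil_pos.mpr hx0
  have hLa : 2 / β * Real.log (32 * N) ≤ L := Nat.le_ceil _
  have hLb : (L : ℝ) ≤ 2 / β * Real.log (32 * N) + 1 := (Nat.ceil_lt_add_one hx0.le).le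
  have hLc : (L : ℝ) ≤ 2 / β * (l + 4) + 1 := by
    have := mul_le_mul_of_nonneg_left hlog32 (by positivity : 0 ≤ 2 / β)
    linarith
  set h' : ℕ := (h - 5) / 2 with hh'
  have hh'1 : 1 ≤ h' := by omega
  have hh'2 : 2 * h' + 5 ≤ h := by omega
  have hh'3 : h ≤ 8 * h' := by omega
  have hh'4 : h' ≤ h := by omega
  have hh'0 : (0 : ℝ) < h' := by exact_mod_cast hh'1
  -- the spectral condition
  have hε4 : ε ≤ 1 / 4 := by linarith
  have hcond1 : 16 * ((2 * N : ℕ) : ℝ) * (1 - β) ^ L ≤ (1 - ε) ^ L := by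
    have h1 : 1 - β ≤ (1 - ε) * Real.exp (-(β / 2)) := by
      have h2 := Real.add_one_le_exp (-(β / 2))
      have h3 : (1 - ε) * (-(β / 2) + 1) ≤ (1 - ε) * Real.exp (-(β / 2)) :=
        mul_le_mul_of_nonneg_left h2 (by linarith)
      nlinarith
    have h2 : (1 - β) ^ L ≤ ((1 - ε) * Real.exp (-(β / 2))) ^ L :=
      pow_le_pow_left₀ (by linarith) h1 L
    rw [mul_pow, ← Real.exp_nat_mul] at h2
    have h3 : Real.exp ((L : ℝ) * -(β / 2)) ≤ (32 * (N : ℝ))⁻¹ := by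
      have h4 : (32 * (N : ℝ))⁻¹ = Real.exp (-Real.log (32 * N)) := by
        rw [Real.exp_neg, Real.exp_log (by positivity)]
      rw [h4]
      apply Real.exp_le_exp.mpr
      have h5 : 2 / β * Real.log (32 * N) * (β / 2) ≤ L * (β / 2) :=
        mul_le_mul_of_nonneg_right hLa (by positivity)
      have h6 : 2 / β * Real.log (32 * N) * (β / 2) = Real.log (32 * N) := by
        field_simp
      rw [h6] at h5
      linarith
    have h7 : 0 ≤ (1 - ε) ^ L := pow_nonneg (by linarith) _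
    have h8 : (1 - β) ^ L ≤ (1 - ε) ^ L * (32 * (N : ℝ))⁻¹ :=
      h2.trans (mul_le_mul_of_nonneg_left h3 h7)
    push_cast
    calc 16 * (2 * (N : ℝ)) * (1 - β) ^ L ≤ 16 * (2 * (N : ℝ)) * ((1 - ε) ^ L * (32 * (N : ℝ))⁻¹) :=
          mul_le_mul_of_nonneg_left h8 (by positivity)
      _ = (1 - ε) ^ L := by
          field_simp
          ring
  -- the size of the bias
  have hb : Real.exp (-(17 + 8 * ε / β * l)) ≤ ((1 - ε) ^ L) ^ 2 := by
    have h1 : Real.exp (-(2 * ε)) ≤ 1 - ε := by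
      have h2 := Real.add_one_le_exp (2 * ε)
      have h3 : Real.exp (-(2 * ε)) * Real.exp (2 * ε) = 1 := by
        rw [← Real.exp_add]
        simp
      have h4 : 0 < Real.exp (-(2 * ε)) := Real.exp_pos _
      have h5 : Real.exp (-(2 * ε)) * (2 * ε + 1) ≤ 1 :=
        (mul_le_mul_of_nonneg_left h2 h4.le).trans h3.le
      have h6 : 1 ≤ (1 - ε) * (2 * ε + 1) := by nlinarith
      have h7 : 0 < 2 * ε + 1 := by linarith
      by_contra hcon
      push Not at hcon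
      have h8 : (1 - ε) * (2 * ε + 1) < Real.exp (-(2 * ε)) * (2 * ε + 1) :=
        mul_lt_mul_of_pos_right hcon h7
      linarith
    have h2 : Real.exp (-(2 * ε)) ^ (L * 2) ≤ (1 - ε) ^ (L * 2) :=
      pow_le_pow_left₀ (Real.exp_pos _).le h1 _
    rw [← pow_mul]
    refine le_trans ?_ h2
    rw [← Real.exp_nat_mul]
    apply Real.exp_le_exp.mpr
    push_cast
    have h3 : ε * L ≤ ε * (2 / β * (l + 4) + 1) := mul_le_mul_of_nonneg_left hLc hε
    have h4 : ε * (2 / β * (l + 4) + 1) = 2 * ε / β * l + 8 * (ε / β) + ε := by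
      field_simp
      ring
    have h5 : ε / β ≤ 1 / 2 := by
      rw [div_le_iff₀ hβ]
      linarith
    have h6 : 8 * ε / β * l = 4 * (2 * ε / β * l) := by ring
    rw [h6]
    nlinarith
  -- the number r
  set Q : ℝ := C * Real.exp (8 * ε / β * l) * l with hQ
  have hE1 : 1 ≤ Real.exp (8 * ε / β * l) := Real.one_le_exp (by positivity)
  have hQ1 : 1 ≤ Q := by
    have h1 : 1 ≤ C * Real.exp (8 * ε / β * l) := by nlinarith
    rw [hQ]
    nlinarith
  have hQ0 : 0 < Q := by linarith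
  set R : ℝ := Q ^ ((h' : ℝ)⁻¹) with hR
  have hR1 : 1 ≤ R := Real.one_le_rpow hQ1 (by positivity)
  set r : ℕ := ⌈R⌉₊ with hr
  have hRr : R ≤ r := Nat.le_ceil _
  have hrR : (r : ℝ) ≤ 2 * R := by
    have := (Nat.ceil_lt_add_one (by linarith : 0 ≤ R)).le
    linarith
  have hr1 : 1 ≤ r := by
    have : (1 : ℝ) ≤ r := hR1.trans hRr
    exact_mod_cast this
  have hrQ : Q ≤ (r : ℝ) ^ h' := by
    have h1 : R ^ h' = Q := Real.rpow_inv_natCast_pow hQ0.le (by omega)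
    rw [← h1]
    exact pow_le_pow_left₀ (by linarith) hRr _
  have hmR : ((k * m + 1 : ℕ) : ℝ) ≤ ((k : ℝ) * D + 1) * N := by
    have h1 : (m : ℝ) ≤ D * N := by exact_mod_cast hm
    push_cast
    nlinarith
  have hM0 : (1 : ℝ) ≤ ((k * m + 1 : ℕ) : ℝ) := by
    push_cast
    have : (0 : ℝ) ≤ (k : ℝ) * m := by positivity
    linarith
  have hlogM : Real.log (4 * ((k * m + 1 : ℕ) : ℝ)) ≤ C1 * l := by
    have h1 : Real.log (4 * ((k * m + 1 : ℕ) : ℝ)) ≤ Real.log (4 * ((k : ℝ) * D + 1) * N) := by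
      apply Real.log_le_log (by linarith)
      nlinarith
    rw [Real.log_mul (by positivity) hN0.ne'] at h1
    have h2 : 0 ≤ Real.log (4 * ((k : ℝ) * D + 1)) := Real.log_nonneg (by nlinarith)
    have h3 : Real.log (4 * ((k : ℝ) * D + 1)) ≤ Real.log (4 * ((k : ℝ) * D + 1)) * l :=
      le_mul_of_one_le_right h2 hl1
    rw [hC1]
    nlinarith
  have hcond2 : 100 * Real.log (4 * ((k * m + 1 : ℕ) : ℝ)) ≤ ((1 - ε) ^ L) ^ 2 * (r : ℝ) ^ h' := by
    have h1 : Real.exp (-(17 + 8 * ε / β * l)) * Q ≤ ((1 - ε) ^ L) ^ 2 * (r : ℝ) ^ h' :=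
      mul_le_mul hb hrQ hQ0.le (by positivity)
    have h2 : Real.exp (-(17 + 8 * ε / β * l)) * Q = 100 * C1 * l := by
      have h3 : Real.exp (-(17 + 8 * ε / β * l)) * (Real.exp 17 * Real.exp (8 * ε / β * l)) = 1 := by
        rw [← Real.exp_add, ← Real.exp_add]
        simp
      rw [hQ, hC]
      calc Real.exp (-(17 + 8 * ε / β * l)) * (100 * Real.exp 17 * C1 * Real.exp (8 * ε / β * l) * l)
          = 100 * C1 * l * (Real.exp (-(17 + 8 * ε / β * l)) *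
            (Real.exp 17 * Real.exp (8 * ε / β * l))) := by ring
        _ = 100 * C1 * l := by rw [h3, mul_one]
    rw [h2] at h1
    linarith
  refine ⟨L, r, h', hL1, hh'2, hcond1, hcond2, ?_⟩
  -- the size
  have hr0 : (0 : ℝ) < r := by exact_mod_cast hr1
  have hs1 : Real.log (csz k m r h' L) ≤ Real.log (16 * (k : ℝ)) + 2 * Real.log ((k * m + 1 : ℕ) : ℝ) +
      Real.log (((((r + 2) * (r ^ h' + 1) ^ r) ^ h' : ℕ)) : ℝ) + (k : ℝ) * L * Real.log 2 := by
    have h1 : ((csz k m r h' L : ℕ) : ℝ) ≤ 16 * (k : ℝ) * (((k * m + 1 : ℕ) : ℝ)) ^ 2 *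
        ((((r + 2) * (r ^ h' + 1) ^ r) ^ h' : ℕ) : ℝ) * 2 ^ (k * L) := by
      exact_mod_cast csz_le k m r h' L hk
    have h0 : (0 : ℝ) < ((csz k m r h' L : ℕ) : ℝ) := by
      have : 0 < csz k m r h' L := by
        unfold csz
        omega
      exact_mod_cast this
    have hM0' : (0 : ℝ) < ((k * m + 1 : ℕ) : ℝ) := by linarith
    have hP0 : (0 : ℝ) < ((((r + 2) * (r ^ h' + 1) ^ r) ^ h' : ℕ) : ℝ) := by
      push_cast
      positivity
    have h2 := Real.log_le_log h0 h1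
    rw [Real.log_mul (by positivity) (by positivity), Real.log_mul (by positivity) (by positivity),
      Real.log_mul (by positivity) (by positivity), Real.log_pow, Real.log_pow] at h2
    push_cast at h2 ⊢
    linarith
  have hs2 : Real.log (16 * (k : ℝ)) ≤ 16 * k * l := by
    have h1 := Real.log_le_sub_one_of_pos (by positivity : (0 : ℝ) < 16 * (k : ℝ))
    nlinarith
  have hs3 : 2 * Real.log ((k * m + 1 : ℕ) : ℝ) ≤ 2 * C1 * l := by
    have h1 : Real.log ((k * m + 1 : ℕ) : ℝ) ≤ Real.log (4 * ((k * m + 1 : ℕ) : ℝ)) :=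
      Real.log_le_log (by linarith) (by linarith)
    linarith
  have hs4 : (k : ℝ) * L * Real.log 2 ≤ k * (10 / β + 1) * l := by
    have h1 : Real.log 2 ≤ 1 := by
      have := Real.log_two_lt_d9
      linarith
    have h2 : (k : ℝ) * L * Real.log 2 ≤ k * L := by
      have : (0 : ℝ) ≤ (k : ℝ) * L := by positivity
      nlinarith
    have h3 : (L : ℝ) ≤ (10 / β + 1) * l := by
      have h4 : 2 / β * (l + 4) ≤ 2 / β * (5 * l) :=
        mul_le_mul_of_nonneg_left (by linarith) (by positivity)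
      have h5 : 2 / β * (5 * l) = 10 / β * l := by ring
      linarith
    have h6 : (k : ℝ) * L ≤ k * ((10 / β + 1) * l) := mul_le_mul_of_nonneg_left h3 (by positivity)
    linarith
  have hs5 := log_P r h' hr1 hh'1
  -- the main term
  have hNe : (N : ℝ) ^ ε = Real.exp (ε * l) := by
    rw [Real.rpow_def_of_pos hN0, mul_comm]
  have hNe1 : 1 ≤ (N : ℝ) ^ ε := Real.one_le_rpow (by linarith) hε
  have hr2 : (r : ℝ) ^ 2 ≤ 4 * (C ^ 3 * ((N : ℝ) ^ ε * l) ^ ((B : ℝ) / h)) := by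
    have h1 : (r : ℝ) ^ 2 ≤ (2 * R) ^ 2 := pow_le_pow_left₀ hr0.le hrR 2
    have h2 : R ^ 2 = Q ^ ((h' : ℝ)⁻¹ * 2) := by
      rw [hR, Real.rpow_mul hQ0.le, Real.rpow_two]
    have h3 : (h' : ℝ)⁻¹ * 2 ≤ 16 / h := by
      have h4 : (h : ℝ) ≤ 8 * h' := by exact_mod_cast hh'3
      rw [inv_mul_eq_div, div_le_div_iff₀ hh'0 hh0]
      linarith
    have h4 : Q ^ ((h' : ℝ)⁻¹ * 2) ≤ Q ^ (16 / (h : ℝ)) := Real.rpow_le_rpow_of_exponent_le hQ1 h3
    have h5 : Q ^ (16 / (h : ℝ)) = C ^ (16 / (h : ℝ)) * Real.exp (8 * ε / β * l) ^ (16 / (h : ℝ)) *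
        l ^ (16 / (h : ℝ)) := by
      rw [hQ, Real.mul_rpow (by positivity) (by positivity), Real.mul_rpow (by positivity) (by positivity)]
    have h6 : C ^ (16 / (h : ℝ)) ≤ C ^ 3 := by
      rw [← Real.rpow_natCast C 3]
      apply Real.rpow_le_rpow_of_exponent_le hC'
      rw [div_le_iff₀ hh0]
      push_cast
      linarith
    have h7 : Real.exp (8 * ε / β * l) ^ (16 / (h : ℝ)) ≤ ((N : ℝ) ^ ε) ^ ((B : ℝ) / h) := by
      have h8 : Real.exp (8 * ε / β * l) ^ (16 / (h : ℝ)) = ((N : ℝ) ^ ε) ^ (128 / β / h) := by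
        rw [hNe, ← Real.exp_mul, ← Real.exp_mul]
        congr 1
        field_simp
        ring
      rw [h8]
      apply Real.rpow_le_rpow_of_exponent_le hNe1
      exact div_le_div_of_nonneg_right hBc hh0.le
    have h9 : l ^ (16 / (h : ℝ)) ≤ l ^ ((B : ℝ) / h) :=
      Real.rpow_le_rpow_of_exponent_le hl1 (div_le_div_of_nonneg_right hBd hh0.le)
    have h10 : ((N : ℝ) ^ ε * l) ^ ((B : ℝ) / h) = ((N : ℝ) ^ ε) ^ ((B : ℝ) / h) * l ^ ((B : ℝ) / h) :=
      Real.mul_rpow (by positivity) (by positivity)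
    rw [h10]
    calc (r : ℝ) ^ 2 ≤ 4 * R ^ 2 := by nlinarith
      _ ≤ 4 * (C ^ (16 / (h : ℝ)) * Real.exp (8 * ε / β * l) ^ (16 / (h : ℝ)) *
          l ^ (16 / (h : ℝ))) := by
          rw [h2, ← h5]
          linarith
      _ ≤ 4 * (C ^ 3 * ((N : ℝ) ^ ε) ^ ((B : ℝ) / h) * l ^ ((B : ℝ) / h)) := by
          apply mul_le_mul_of_nonneg_left _ (by norm_num)
          apply mul_le_mul _ h9 (by positivity) (by positivity)
          exact mul_le_mul h6 h7 (by positivity) (by positivity)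
      _ = 4 * (C ^ 3 * (((N : ℝ) ^ ε) ^ ((B : ℝ) / h) * l ^ ((B : ℝ) / h))) := by ring
  set W : ℝ := ((N : ℝ) ^ ε * l) ^ ((B : ℝ) / h) with hW
  have hW0 : 0 ≤ W := by positivity
  have hs6 : 3 * (h' : ℝ) ^ 2 * (r : ℝ) ^ 2 ≤ B * h ^ 2 * W := by
    have h1 : (h' : ℝ) ^ 2 ≤ (h : ℝ) ^ 2 := pow_le_pow_left₀ hh'0.le (by exact_mod_cast hh'4) 2
    calc 3 * (h' : ℝ) ^ 2 * (r : ℝ) ^ 2 ≤ 3 * (h : ℝ) ^ 2 * (4 * (C ^ 3 * W)) := by
          apply mul_le_mul _ hr2 (by positivity) (by positivity)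
          linarith
      _ = (12 * C ^ 3) * ((h : ℝ) ^ 2 * W) := by ring
      _ ≤ B * ((h : ℝ) ^ 2 * W) := mul_le_mul_of_nonneg_right hBb (by positivity)
      _ = B * h ^ 2 * W := by ring
  have hs7 : 16 * (k : ℝ) * l + 2 * C1 * l + k * (10 / β + 1) * l ≤ B * l := by
    have := mul_le_mul_of_nonneg_right hBa (by linarith : 0 ≤ l)
    linarith
  linarith

end Pool.Agent.P325ad
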