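import Mathlib
import Pool.Agent.Lib.P325ad.Defs

/-!
# P325ad.No: instances of small value
-/

open Finset
open scoped BigOperators Classical

namespace Pool.Agent.P325ad

open Pool.Agent.P325ac (shiftVal sg)

variable {V E : Type} [Fintype V] [Fintype E]

namespace NoAux

theorem sg_cases (b : Bool) : (b = false ∧ sg b = 1) ∨ (b = true ∧ sg b = -1) := by
  cases b <;> simp [sg]

theorem abs_sub_sq (a b : ℝ) (c : Bool) : (|a| - |b|) ^ 2 ≤ (a - sg c * b) ^ 2 := by
  have h1 : |a| ^ 2 = a ^ 2 := sq_abs a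
  have h2 : |b| ^ 2 = b ^ 2 := sq_abs b
  have h3 : |a * b| = |a| * |b| := abs_mul a b
  have h4 := le_abs_self (a * b)
  have h5 := neg_abs_le (a * b)
  rcases sg_cases c with ⟨-, h⟩ | ⟨-, h⟩ <;> rw [h] <;> nlinarith

/-- the term of a violated edge -/
theorem viol (a b : ℝ) (c : Bool) (h : xor (decide (a < 0)) c ≠ decide (b < 0)) :
    |a| ^ 2 ≤ (a - sg c * b) ^ 2 := by
  rw [sq_abs]
  rcases sg_cases c with ⟨hc, hs⟩ | ⟨hc, hs⟩
  · rw [hs]
    rw [hc, Bool.xor_false] at h
    have h1 : a * b ≤ 0 := by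
      by_cases ha : a < 0 <;> by_cases hb : b < 0
      · simp [ha, hb] at h
      · exact mul_nonpos_of_nonpos_of_nonneg ha.le (not_lt.1 hb)
      · exact mul_nonpos_of_nonneg_of_nonpos (not_lt.1 ha) hb.le
      · simp [ha, hb] at h
    nlinarith [sq_nonneg b]
  · rw [hs]
    rw [hc, Bool.xor_true] at h
    have h1 : 0 ≤ a * b := by
      by_cases ha : a < 0 <;> by_cases hb : b < 0
      · exact mul_nonneg_of_nonpos_of_nonpos ha.le hb.le
      · simp [ha, hb] at h
      · simp [ha, hb] at h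
      · exact mul_nonneg (not_lt.1 ha) (not_lt.1 hb)
    nlinarith [sq_nonneg b]

theorem sum_deg (src tgt : E → V) : ∑ v, (deg src tgt v : ℝ) = 2 * Fintype.card E := by
  have h1 : ∀ f : E → V, ∑ v, ((univ.filter (fun e => f e = v)).card : ℝ) = Fintype.card E := by
    intro f
    have h := Finset.card_eq_sum_card_fiberwise (f := f) (s := univ) (t := univ)
      (fun e _ => mem_univ _)
    rw [card_univ] at h
    rw [h]
    push_cast
    rfl
  unfold deg
  push_cast
  rw [sum_add_distrib, h1, h1]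
  ring

/-- the number of edges -/
theorem card_ge (src tgt : E → V) (γ : ℝ) (hγ : 0 < γ) (hP : Poinc src tgt γ)
    (hV : 2 ≤ Fintype.card V) : γ * Fintype.card V / 4 ≤ Fintype.card E := by
  have hn : (2 : ℝ) ≤ Fintype.card V := by exact_mod_cast hV
  have hn0 : (0 : ℝ) < Fintype.card V := by linarith
  have key : ∀ u : V, γ * (1 - 1 / Fintype.card V) ≤ deg src tgt u := by
    intro u
    have h1 := hP (fun v => if v = u then 1 else 0)
    have h2 : ∑ v, (if v = u then (1 : ℝ) else 0) = 1 := by simp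
    rw [h2] at h1
    have h3 : ∑ v, ((if v = u then (1 : ℝ) else 0) - 1 / (Fintype.card V : ℝ)) ^ 2 =
        1 - 1 / (Fintype.card V : ℝ) := by
      have h4 : ∀ v, ((if v = u then (1 : ℝ) else 0) - 1 / (Fintype.card V : ℝ)) ^ 2 =
          (if v = u then (1 : ℝ) else 0) * (1 - 2 / (Fintype.card V : ℝ)) +
            (1 / (Fintype.card V : ℝ)) ^ 2 := by
        intro v
        split_ifs <;> ring
      rw [sum_congr rfl (fun v _ => h4 v), sum_add_distrib, ← sum_mul, h2, sum_const, card_univ,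
        nsmul_eq_mul]
      field_simp
      ring
    rw [h3] at h1
    refine h1.trans ?_
    unfold deg
    push_cast
    have h5 : ∀ f : E → V, ((univ.filter (fun e => f e = u)).card : ℝ) =
        ∑ e, if f e = u then (1 : ℝ) else 0 := by
      intro f
      rw [Finset.card_filter]
      push_cast
      rfl
    rw [h5, h5, ← sum_add_distrib]
    refine sum_le_sum (fun e _ => ?_)
    split_ifs <;> norm_num
  have h1 : ∑ u : V, γ * (1 - 1 / (Fintype.card V : ℝ)) ≤ ∑ u : V, (deg src tgt u : ℝ) :=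
    sum_le_sum (fun u _ => key u)
  rw [sum_const, card_univ, nsmul_eq_mul, sum_deg] at h1
  have h2 : (Fintype.card V : ℝ) * (γ * (1 - 1 / (Fintype.card V : ℝ))) =
      γ * (Fintype.card V - 1) := by
    field_simp
  rw [h2] at h1
  have h3 : γ * (Fintype.card V / 2) ≤ γ * ((Fintype.card V : ℝ) - 1) :=
    mul_le_mul_of_nonneg_left (by linarith) hγ.le
  linarith

/-- the violated edges of one layer -/
theorem layer (src tgt : E → V) (D : ℕ) (hdeg : ∀ v, deg src tgt v ≤ D) (γ : ℝ) (hγ : 0 < γ)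
    (hP : Poinc src tgt γ) (hV : 2 ≤ Fintype.card V) (c : E → Bool) (x : V → ℝ) (η : ℝ)
    (hη : 2 * η ≤ γ)
    (hx : quad src tgt (fun e => sg (c e)) x < η * ∑ v, x v ^ 2) :
    ((univ.filter (fun e => xor (decide (x (src e) < 0)) (c e) ≠ decide (x (tgt e) < 0))).card : ℝ) <
      8 * η * Fintype.card V * (1 + D / γ) := by
  have hn : (2 : ℝ) ≤ Fintype.card V := by exact_mod_cast hV
  have hn0 : (0 : ℝ) < Fintype.card V := by linarith
  obtain ⟨S, hS⟩ : ∃ S, S = ∑ v, x v ^ 2 := ⟨_, rfl⟩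
  rw [← hS] at hx
  have hq0 : 0 ≤ quad src tgt (fun e => sg (c e)) x := sum_nonneg (fun e _ => sq_nonneg _)
  have hS0 : 0 ≤ S := by rw [hS]; exact sum_nonneg (fun v _ => sq_nonneg _)
  have hηS : 0 < η * S := lt_of_le_of_lt hq0 hx
  have hSp : 0 < S := by
    rcases hS0.lt_or_eq with h | h
    · exact h
    · rw [← h, mul_zero] at hηS
      exact absurd hηS (lt_irrefl _)
  have hηp : 0 < η := (pos_iff_pos_of_mul_pos hηS).2 hSp
  obtain ⟨m, hm⟩ : ∃ m, m = (∑ v, |x v|) / Fintype.card V := ⟨_, rfl⟩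
  have hm0 : 0 ≤ m := by rw [hm]; positivity
  obtain ⟨W, hW⟩ : ∃ W, W = ∑ v, (|x v| - m) ^ 2 := ⟨_, rfl⟩
  have hP1 : γ * W ≤ quad src tgt (fun e => sg (c e)) x := by
    have h1 := hP (fun v => |x v|)
    rw [← hm, ← hW] at h1
    refine h1.trans (sum_le_sum (fun e _ => abs_sub_sq _ _ _))
  have hSW : S = Fintype.card V * m ^ 2 + W := by
    have h1 : ∑ v, |x v| = Fintype.card V * m := by
      rw [hm]
      field_simp
    have h2 : ∀ v, (|x v| - m) ^ 2 = x v ^ 2 - 2 * m * |x v| + m ^ 2 := by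
      intro v
      have := sq_abs (x v)
      nlinarith
    rw [hW, sum_congr rfl (fun v _ => h2 v), sum_add_distrib, sum_sub_distrib, ← hS, ← mul_sum, h1,
      sum_const, card_univ, nsmul_eq_mul]
    ring
  have hWS : W ≤ S / 2 := by
    have h1 : γ * W ≤ η * S := (hP1.trans hx.le)
    have h2 : η * S ≤ γ / 2 * S := mul_le_mul_of_nonneg_right (by linarith) hS0
    have h3 : γ * W ≤ γ * (S / 2) := by linarith
    exact le_of_mul_le_mul_left h3 hγ
  have hS2 : S ≤ 2 * (Fintype.card V * m ^ 2) := by linarith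
  have hm2 : 0 < m ^ 2 := by
    by_contra h
    have h1 : m ^ 2 = 0 := le_antisymm (not_lt.1 h) (sq_nonneg m)
    rw [h1, mul_zero, mul_zero] at hS2
    linarith
  -- the set of vertices with small value
  obtain ⟨L, hL⟩ : ∃ L : Finset V, L = univ.filter (fun v => |x v| < m / 2) := ⟨_, rfl⟩
  have hLc : (L.card : ℝ) * (m ^ 2 / 4) ≤ W := by
    have h1 : (L.card : ℝ) * (m ^ 2 / 4) = ∑ v ∈ L, m ^ 2 / 4 := by
      rw [sum_const, nsmul_eq_mul]
    rw [h1, hW]
    calc ∑ v ∈ L, m ^ 2 / 4 ≤ ∑ v ∈ L, (|x v| - m) ^ 2 := by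
          refine sum_le_sum (fun v hv => ?_)
          rw [hL, mem_filter] at hv
          have h2 := hv.2
          nlinarith
      _ ≤ _ := sum_le_sum_of_subset_of_nonneg (subset_univ _) (fun v _ _ => sq_nonneg _)
  -- split of the violated edges
  obtain ⟨B, hB⟩ : ∃ B : Finset E, B = univ.filter
    (fun e => xor (decide (x (src e) < 0)) (c e) ≠ decide (x (tgt e) < 0)) := ⟨_, rfl⟩
  rw [← hB]
  have hB1 : ((B.filter (fun e => ¬ |x (src e)| < m / 2)).card : ℝ) * (m ^ 2 / 4) ≤
      quad src tgt (fun e => sg (c e)) x := by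
    have h1 : ((B.filter (fun e => ¬ |x (src e)| < m / 2)).card : ℝ) * (m ^ 2 / 4) =
        ∑ e ∈ B.filter (fun e => ¬ |x (src e)| < m / 2), m ^ 2 / 4 := by
      rw [sum_const, nsmul_eq_mul]
    rw [h1]
    calc ∑ e ∈ B.filter (fun e => ¬ |x (src e)| < m / 2), m ^ 2 / 4 ≤
        ∑ e ∈ B.filter (fun e => ¬ |x (src e)| < m / 2),
          (x (src e) - sg (c e) * x (tgt e)) ^ 2 := by
          refine sum_le_sum (fun e he => ?_)
          rw [mem_filter, hB, mem_filter] at he
          have h2 := viol _ _ _ he.1.2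
          have h3 := not_lt.1 he.2
          have h4 : m ^ 2 / 4 ≤ |x (src e)| ^ 2 := by
            have h5 : (m / 2) ^ 2 ≤ |x (src e)| ^ 2 := pow_le_pow_left₀ (by linarith) h3 2
            nlinarith
          exact h4.trans h2
      _ ≤ _ := sum_le_sum_of_subset_of_nonneg (subset_univ _) (fun v _ _ => sq_nonneg _)
  have hB2 : ((B.filter (fun e => |x (src e)| < m / 2)).card : ℝ) ≤ D * L.card := by
    have h1 : (B.filter (fun e => |x (src e)| < m / 2)).card ≤
        (univ.filter (fun e => src e ∈ L)).card := by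
      refine card_le_card (fun e he => ?_)
      rw [mem_filter] at he
      rw [mem_filter, hL, mem_filter]
      exact ⟨mem_univ _, mem_univ _, he.2⟩
    have h2 : (univ.filter (fun e => src e ∈ L)).card ≤ D * L.card := by
      have h3 := Finset.card_eq_sum_card_fiberwise (f := src)
        (s := univ.filter (fun e => src e ∈ L)) (t := L)
        (fun e he => by simpa using he)
      rw [h3]
      calc ∑ v ∈ L, ((univ.filter (fun e => src e ∈ L)).filter (fun e => src e = v)).card
          ≤ ∑ v ∈ L, D := by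
            refine sum_le_sum (fun v _ => ?_)
            refine le_trans (card_le_card ?_) ((Nat.le_add_right _ _).trans (hdeg v))
            intro e he
            rw [mem_filter] at he
            rw [mem_filter]
            exact ⟨mem_univ _, he.2⟩
        _ = D * L.card := by rw [sum_const, smul_eq_mul, mul_comm]
    exact_mod_cast h1.trans h2
  have hBs : (B.card : ℝ) = ((B.filter (fun e => |x (src e)| < m / 2)).card : ℝ) +
      ((B.filter (fun e => ¬ |x (src e)| < m / 2)).card : ℝ) := by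
    exact_mod_cast (Finset.card_filter_add_card_filter_not (s := B) (fun e => |x (src e)| < m / 2)).symm
  have hfin : (B.card : ℝ) * (m ^ 2 / 4) < η * S * (1 + D / γ) := by
    have h1 : (D : ℝ) * L.card * (m ^ 2 / 4) ≤ D * (η * S / γ) := by
      have h2 : (L.card : ℝ) * (m ^ 2 / 4) ≤ η * S / γ := by
        rw [le_div_iff₀ hγ]
        have h3 : γ * ((L.card : ℝ) * (m ^ 2 / 4)) ≤ γ * W := mul_le_mul_of_nonneg_left hLc hγ.le
        linarith [hP1.trans hx.le]
      calc (D : ℝ) * L.card * (m ^ 2 / 4) = D * ((L.card : ℝ) * (m ^ 2 / 4)) := by ring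
        _ ≤ _ := mul_le_mul_of_nonneg_left h2 (Nat.cast_nonneg _)
    have h4 : ((B.filter (fun e => |x (src e)| < m / 2)).card : ℝ) * (m ^ 2 / 4) ≤
        D * L.card * (m ^ 2 / 4) := mul_le_mul_of_nonneg_right hB2 (by positivity)
    have h5 : η * S * (1 + D / γ) = η * S + D * (η * S / γ) := by ring
    rw [hBs, add_mul, h5]
    linarith
  have h6 : η * S * (1 + D / γ) ≤ 8 * η * Fintype.card V * (1 + D / γ) * (m ^ 2 / 4) := by
    have h7 : η * S ≤ η * (2 * (Fintype.card V * m ^ 2)) := mul_le_mul_of_nonneg_left hS2 hηp.le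
    have h8 : (0 : ℝ) ≤ 1 + D / γ := by positivity
    calc η * S * (1 + D / γ) ≤ η * (2 * (Fintype.card V * m ^ 2)) * (1 + D / γ) :=
          mul_le_mul_of_nonneg_right h7 h8
      _ = _ := by ring
  exact lt_of_mul_lt_mul_right (hfin.trans_le h6) (by positivity)

end NoAux

theorem no_quad {k : ℕ} (hk : 1 ≤ k) (src tgt : E → V) (D : ℕ) (hD : 1 ≤ D)
    (hdeg : ∀ v, deg src tgt v ≤ D) (γ : ℝ) (hγ : 0 < γ) (hP : Poinc src tgt γ)
    (hV : 2 ≤ Fintype.card V) (c : E → Fin k → Bool) (δ : ℝ) (hδ0 : 0 ≤ δ) (hδ1 : δ < 1)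
    (h : shiftVal src tgt k c ≤ δ) :
    ∃ i : Fin k, ∀ x : V → ℝ,
      (1 - δ) * γ ^ 2 / (32 * k * (γ + D)) * ∑ v, x v ^ 2 ≤ quad src tgt (lsg c i) x := by
  by_contra hno
  push Not at hno
  choose x hx using hno
  have hn : (2 : ℝ) ≤ Fintype.card V := by exact_mod_cast hV
  have hk0 : (1 : ℝ) ≤ k := by exact_mod_cast hk
  have hD0 : (1 : ℝ) ≤ D := by exact_mod_cast hD
  obtain ⟨η, hη⟩ : ∃ η, η = (1 - δ) * γ ^ 2 / (32 * k * (γ + D)) := ⟨_, rfl⟩
  rw [← hη] at hx
  have hη2 : 2 * η ≤ γ := by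
    rw [hη]
    have h1 : (1 - δ) * γ ^ 2 / (32 * k * (γ + D)) ≤ γ / 2 := by
      rw [div_le_iff₀ (by positivity)]
      have h2 : (1 - δ) * γ ^ 2 ≤ 1 * γ ^ 2 := mul_le_mul_of_nonneg_right (by linarith) (sq_nonneg γ)
      have h3 : γ / 2 * (32 * k * (γ + D)) = 16 * (k * (γ * (γ + D))) := by ring
      rw [h3]
      have h4 : γ * (γ + D) ≤ k * (γ * (γ + D)) := by
        have : 0 ≤ γ * (γ + D) := by positivity
        nlinarith
      nlinarith
    linarith
  have hlay : ∀ i, ((univ.filter (fun e => xor (decide (x i (src e) < 0)) (c e i) ≠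
      decide (x i (tgt e) < 0))).card : ℝ) < 8 * η * Fintype.card V * (1 + D / γ) := fun i =>
    NoAux.layer src tgt D hdeg γ hγ hP hV (fun e => c e i) (x i) η hη2 (hx i)
  obtain ⟨z, hz⟩ : ∃ z : V → Fin k → Bool, z = fun v i => decide (x i v < 0) := ⟨_, rfl⟩
  have hE := NoAux.card_ge src tgt γ hγ hP hV
  have hE0 : (0 : ℝ) < Fintype.card E := by
    have : 0 < γ * Fintype.card V / 4 := by positivity
    linarith
  have hbad : ((univ.filter (fun e => ¬ ∀ i, xor (z (src e) i) (c e i) = z (tgt e) i)).card : ℝ) <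
      (1 - δ) * Fintype.card E := by
    have h1 : (univ.filter (fun e => ¬ ∀ i, xor (z (src e) i) (c e i) = z (tgt e) i)) ⊆
        (univ : Finset (Fin k)).biUnion (fun i => univ.filter (fun e =>
          xor (decide (x i (src e) < 0)) (c e i) ≠ decide (x i (tgt e) < 0))) := by
      intro e he
      rw [mem_filter] at he
      have h2 := he.2
      push Not at h2
      obtain ⟨i, hi⟩ := h2
      rw [mem_biUnion]
      refine ⟨i, mem_univ _, ?_⟩
      rw [mem_filter]
      refine ⟨mem_univ _, ?_⟩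
      rw [hz] at hi
      exact hi
    have h2 : ((univ.filter (fun e => ¬ ∀ i, xor (z (src e) i) (c e i) = z (tgt e) i)).card : ℝ) ≤
        ∑ i : Fin k, ((univ.filter (fun e => xor (decide (x i (src e) < 0)) (c e i) ≠
          decide (x i (tgt e) < 0))).card : ℝ) := by
      exact_mod_cast (card_le_card h1).trans card_biUnion_le
    have h3 : ∑ i : Fin k, ((univ.filter (fun e => xor (decide (x i (src e) < 0)) (c e i) ≠
          decide (x i (tgt e) < 0))).card : ℝ) < ∑ i : Fin k,
        8 * η * Fintype.card V * (1 + D / γ) := by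
      refine sum_lt_sum_of_nonempty ?_ (fun i _ => hlay i)
      rw [univ_nonempty_iff]
      exact ⟨⟨0, hk⟩⟩
    rw [sum_const, card_univ, Fintype.card_fin, nsmul_eq_mul] at h3
    have h4 : (k : ℝ) * (8 * η * Fintype.card V * (1 + D / γ)) =
        (1 - δ) * (γ * Fintype.card V / 4) := by
      rw [hη]
      have hk1 : (k : ℝ) ≠ 0 := by linarith
      have hγ1 : γ ≠ 0 := hγ.ne'
      have hγD : γ + D ≠ 0 := by positivity
      field_simp
      ring
    have h5 : (1 - δ) * (γ * Fintype.card V / 4) ≤ (1 - δ) * Fintype.card E :=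
      mul_le_mul_of_nonneg_left hE (by linarith)
    linarith
  have hgood : δ * Fintype.card E <
      ((univ.filter (fun e => ∀ i, xor (z (src e) i) (c e i) = z (tgt e) i)).card : ℝ) := by
    have h1 := Finset.card_filter_add_card_filter_not (s := (univ : Finset E))
      (fun e => ∀ i, xor (z (src e) i) (c e i) = z (tgt e) i)
    rw [card_univ] at h1
    have h2 : (((univ.filter (fun e => ∀ i, xor (z (src e) i) (c e i) = z (tgt e) i)).card : ℝ)) +
      ((univ.filter (fun e => ¬ ∀ i, xor (z (src e) i) (c e i) = z (tgt e) i)).card : ℝ) =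
        Fintype.card E := by exact_mod_cast h1
    linarith
  have hle : ((univ.filter (fun e => ∀ i, xor (z (src e) i) (c e i) = z (tgt e) i)).card : ℝ) /
      Fintype.card E ≤ shiftVal src tgt k c := by
    unfold shiftVal
    exact le_ciSup (f := fun z : V → Fin k → Bool =>
      ((univ.filter (fun e => ∀ i, xor (z (src e) i) (c e i) = z (tgt e) i)).card : ℝ) /
        Fintype.card E) (Set.finite_range _).bddAbove z
  have hlt : δ < ((univ.filter (fun e => ∀ i, xor (z (src e) i) (c e i) = z (tgt e) i)).card : ℝ) /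
      Fintype.card E := by
    rw [lt_div_iff₀ hE0]
    exact hgood
  linarith

end Pool.Agent.P325ad
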