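import Mathlib
import Pool.Agent.Lib.P325ad.Defs

/-!
# P325ad.Opr: the quadratic form of the transition matrix
-/

open Finset
open scoped BigOperators Classical

namespace Pool.Agent.P325ad

variable {V E : Type} [Fintype V] [Fintype E]

namespace OprAux

/-- reversal of a step -/
def rev (V E : Type) : V ⊕ (E × Bool) ≃ V ⊕ (E × Bool) :=
  Equiv.sumCongr (Equiv.refl V) (Equiv.prodCongr (Equiv.refl E) Equiv.boolNot)

theorem rev_aS (src tgt : E → V) (a : V ⊕ (E × Bool)) :
    aS src tgt (rev V E a) = aT src tgt a := by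
  rcases a with v | ⟨e, b⟩
  · rfl
  · cases b <;> rfl

theorem rev_aT (src tgt : E → V) (a : V ⊕ (E × Bool)) :
    aT src tgt (rev V E a) = aS src tgt a := by
  rcases a with v | ⟨e, b⟩
  · rfl
  · cases b <;> rfl

theorem rev_aw (src tgt : E → V) (D : ℕ) (a : V ⊕ (E × Bool)) :
    aw src tgt D (rev V E a) = aw src tgt D a := by
  rcases a with v | ⟨e, b⟩
  · rfl
  · cases b <;> rfl

theorem rev_asg (s : E → ℝ) (a : V ⊕ (E × Bool)) :
    asg s (rev V E a) = asg s a := by
  rcases a with v | ⟨e, b⟩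
  · rfl
  · cases b <;> rfl

theorem quad_sum (src tgt : E → V) (D : ℕ) (s : E → ℝ) (x y : V → ℝ) :
    ∑ u, x u * ∑ v, TM src tgt D s u v * y v =
      ∑ a, aw src tgt D a * asg s a * (x (aS src tgt a) * y (aT src tgt a)) := by
  have h1 : ∀ u, x u * ∑ v, TM src tgt D s u v * y v =
      ∑ a, x u * ∑ v, (if aS src tgt a = u ∧ aT src tgt a = v then
        aw src tgt D a * asg s a else 0) * y v := by
    intro u
    rw [← Finset.mul_sum]
    congr 1
    rw [Finset.sum_comm]
    refine Finset.sum_congr rfl (fun v _ => ?_)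
    rw [TM, Finset.sum_mul]
  rw [Finset.sum_congr rfl (fun u _ => h1 u), Finset.sum_comm]
  refine Finset.sum_congr rfl (fun a _ => ?_)
  rw [Finset.sum_eq_single (aS src tgt a)]
  · rw [Finset.sum_eq_single (aT src tgt a)]
    · rw [if_pos ⟨rfl, rfl⟩]
      ring
    · intro v _ hv
      rw [if_neg (fun h => hv h.2.symm), zero_mul]
    · intro h
      exact absurd (Finset.mem_univ _) h
  · intro u _ hu
    have h2 : ∑ v, (if aS src tgt a = u ∧ aT src tgt a = v then
        aw src tgt D a * asg s a else 0) * y v = 0 := by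
      refine Finset.sum_eq_zero (fun v _ => ?_)
      rw [if_neg (fun h => hu h.1.symm), zero_mul]
    rw [h2, mul_zero]
  · intro h
    exact absurd (Finset.mem_univ _) h

theorem card_sum (p : E → V) (f : V → ℝ) :
    ∑ v, ((univ.filter (fun e => p e = v)).card : ℝ) * f v = ∑ e, f (p e) := by
  have h1 : ∀ v, ((univ.filter (fun e => p e = v)).card : ℝ) * f v =
      ∑ e, if p e = v then f v else 0 := by
    intro v
    rw [← Finset.sum_filter, Finset.sum_const, nsmul_eq_mul]
  rw [Finset.sum_congr rfl (fun v _ => h1 v), Finset.sum_comm]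
  refine Finset.sum_congr rfl (fun e _ => ?_)
  rw [Finset.sum_ite_eq]
  simp

theorem deg_sum (src tgt : E → V) (f : V → ℝ) :
    ∑ v, (deg src tgt v : ℝ) * f v = ∑ e, (f (src e) + f (tgt e)) := by
  rw [Finset.sum_add_distrib, ← card_sum src f, ← card_sum tgt f, ← Finset.sum_add_distrib]
  refine Finset.sum_congr rfl (fun v _ => ?_)
  rw [deg]
  push_cast
  ring

end OprAux

open OprAux

theorem TM_symm (src tgt : E → V) (D : ℕ) (s : E → ℝ) :
    (TM src tgt D s).transpose = TM src tgt D s := by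
  ext u v
  rw [Matrix.transpose_apply, TM, TM]
  refine Fintype.sum_equiv (rev V E) _ _ (fun a => ?_)
  rw [rev_aS, rev_aT, rev_aw, rev_asg]
  by_cases h : aS src tgt a = v ∧ aT src tgt a = u
  · rw [if_pos h, if_pos ⟨h.2, h.1⟩]
  · rw [if_neg h, if_neg (fun h' => h ⟨h'.2, h'.1⟩)]

theorem TM_quad (src tgt : E → V) (D : ℕ) (hD : 1 ≤ D) (s : E → ℝ)
    (hs : ∀ e, s e = 1 ∨ s e = -1) (x : V → ℝ) :
    x ⬝ᵥ (TM src tgt D s).mulVec x = x ⬝ᵥ x - quad src tgt s x / (2 * D) := by
  have hD' : (2 * (D : ℝ)) ≠ 0 := by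
    have : (1 : ℝ) ≤ D := by exact_mod_cast hD
    positivity
  have h1 : x ⬝ᵥ (TM src tgt D s).mulVec x =
      ∑ a, aw src tgt D a * asg s a * (x (aS src tgt a) * x (aT src tgt a)) := by
    rw [← quad_sum]
    rfl
  have h2 : x ⬝ᵥ x = ∑ v, x v * x v := rfl
  have h3 : quad src tgt s x = ∑ e, (x (src e) * x (src e) + x (tgt e) * x (tgt e)) -
      2 * ∑ e, s e * (x (src e) * x (tgt e)) := by
    rw [quad, Finset.mul_sum, ← Finset.sum_sub_distrib]
    refine Finset.sum_congr rfl (fun e _ => ?_)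
    rcases hs e with h | h <;> rw [h] <;> ring
  have h4 := deg_sum src tgt (fun v => x v * x v)
  rw [h1, h2, h3, Fintype.sum_sum_type, Fintype.sum_prod_type]
  simp only [Fintype.sum_bool, aw, asg, aS, aT]
  have h5 : ∑ v, (1 - (deg src tgt v : ℝ) / (2 * D)) * 1 * (x v * x v) =
      ∑ v, x v * x v - (∑ v, (deg src tgt v : ℝ) * (x v * x v)) / (2 * D) := by
    rw [Finset.sum_div, ← Finset.sum_sub_distrib]
    refine Finset.sum_congr rfl (fun v _ => ?_)
    ring
  have h6 : ∑ e, (1 / (2 * (D : ℝ)) * s e * (x (src e) * x (tgt e)) +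
      1 / (2 * (D : ℝ)) * s e * (x (tgt e) * x (src e))) =
      (2 * ∑ e, s e * (x (src e) * x (tgt e))) / (2 * D) := by
    rw [Finset.mul_sum, Finset.sum_div]
    refine Finset.sum_congr rfl (fun e _ => ?_)
    ring
  rw [h5, h6, h4]
  ring

theorem TM_pos (src tgt : E → V) (D : ℕ) (hD : 1 ≤ D) (hdeg : ∀ v, deg src tgt v ≤ D)
    (s : E → ℝ) (hs : ∀ e, s e = 1 ∨ s e = -1) (x : V → ℝ) :
    0 ≤ x ⬝ᵥ (TM src tgt D s).mulVec x := by
  rw [TM_quad src tgt D hD s hs x]
  have hD' : (0 : ℝ) < 2 * D := by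
    have : (1 : ℝ) ≤ D := by exact_mod_cast hD
    linarith
  have h1 : quad src tgt s x ≤ 2 * ∑ e, (x (src e) * x (src e) + x (tgt e) * x (tgt e)) := by
    rw [quad, Finset.mul_sum]
    refine Finset.sum_le_sum (fun e _ => ?_)
    rcases hs e with h | h <;> rw [h]
    · nlinarith [sq_nonneg (x (src e) + x (tgt e))]
    · nlinarith [sq_nonneg (x (src e) - x (tgt e))]
  have h2 := deg_sum src tgt (fun v => x v * x v)
  have h3 : ∑ v, (deg src tgt v : ℝ) * (x v * x v) ≤ D * (x ⬝ᵥ x) := by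
    have : x ⬝ᵥ x = ∑ v, x v * x v := rfl
    rw [this, Finset.mul_sum]
    refine Finset.sum_le_sum (fun v _ => ?_)
    have h4 : (deg src tgt v : ℝ) ≤ D := by exact_mod_cast hdeg v
    exact mul_le_mul_of_nonneg_right h4 (mul_self_nonneg _)
  rw [h2] at h3
  rw [sub_nonneg, div_le_iff₀ hD']
  linarith

theorem TM_one (src tgt : E → V) (D : ℕ) (hD : 1 ≤ D) :
    (TM src tgt D (fun _ => 1)).mulVec (fun _ => 1) = fun _ => 1 := by
  have hD' : (2 * (D : ℝ)) ≠ 0 := by
    have : (1 : ℝ) ≤ D := by exact_mod_cast hD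
    positivity
  funext u
  obtain ⟨f, hf1, hf0⟩ : ∃ f : V → ℝ, f u = 1 ∧ ∀ v, v ≠ u → f v = 0 :=
    ⟨fun v => if v = u then 1 else 0, if_pos rfl, fun v hv => if_neg hv⟩
  have h1 := quad_sum src tgt D (fun _ => 1) f (fun _ => 1)
  have h2 : ∑ v, f v * ∑ v', TM src tgt D (fun _ => 1) v v' * (fun _ => (1 : ℝ)) v' =
      (TM src tgt D (fun _ => 1)).mulVec (fun _ => 1) u := by
    rw [Finset.sum_eq_single u]
    · rw [hf1, one_mul]
      rfl
    · intro v _ hv
      rw [hf0 v hv, zero_mul]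
    · intro h
      exact absurd (Finset.mem_univ _) h
  rw [← h2, h1, Fintype.sum_sum_type, Fintype.sum_prod_type]
  simp only [Fintype.sum_bool, aw, asg, aS, mul_one]
  have h3 := deg_sum src tgt f
  have h5 : ∑ v, (1 - (deg src tgt v : ℝ) / (2 * D)) * f v =
      1 - (∑ v, (deg src tgt v : ℝ) * f v) / (2 * D) := by
    rw [Finset.sum_eq_single u, Finset.sum_eq_single u]
    · rw [hf1]
      ring
    · intro v _ hv
      rw [hf0 v hv, mul_zero]
    · intro h
      exact absurd (Finset.mem_univ _) h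
    · intro v _ hv
      rw [hf0 v hv, mul_zero]
    · intro h
      exact absurd (Finset.mem_univ _) h
  have h6 : ∑ e, (1 / (2 * (D : ℝ)) * f (src e) + 1 / (2 * (D : ℝ)) * f (tgt e)) =
      (∑ e, (f (src e) + f (tgt e))) / (2 * D) := by
    rw [Finset.sum_div]
    refine Finset.sum_congr rfl (fun e _ => ?_)
    ring
  rw [h5, h6, h3]
  ring

end Pool.Agent.P325ad
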