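import Mathlib
import Pool.Agent.Lib.P325ad.Defs

/-!
# P325ad.Spec: traces of powers of positive matrices
-/

open Finset
open scoped BigOperators Classical

namespace Pool.Agent.P325ad

namespace SpecAux

open Matrix

theorem spec {V : Type} [Fintype V] (T : Matrix V V ℝ) (hT : T.transpose = T) :
    ∃ (W : Matrix V V ℝ) (l : V → ℝ), W * W.transpose = 1 ∧ W.transpose * W = 1 ∧
      T = W * Matrix.diagonal l * W.transpose := by
  have hA : T.IsHermitian := by
    rw [Matrix.IsHermitian, Matrix.conjTranspose_eq_transpose_of_trivial]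
    exact hT
  refine ⟨(hA.eigenvectorUnitary : Matrix V V ℝ), hA.eigenvalues, ?_, ?_, ?_⟩
  · have := Unitary.coe_mul_star_self hA.eigenvectorUnitary
    rw [Unitary.coe_star, Matrix.star_eq_conjTranspose,
      Matrix.conjTranspose_eq_transpose_of_trivial] at this
    exact this
  · have := Unitary.coe_star_mul_self hA.eigenvectorUnitary
    rw [Matrix.star_eq_conjTranspose, Matrix.conjTranspose_eq_transpose_of_trivial] at this
    exact this
  · have := hA.spectral_theorem
    rw [Unitary.conjStarAlgAut_apply, Matrix.star_eq_conjTranspose,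
      Matrix.conjTranspose_eq_transpose_of_trivial] at this
    exact this

theorem pow_eq {V : Type} [Fintype V] (W : Matrix V V ℝ) (l : V → ℝ)
    (h1 : W * W.transpose = 1) (h2 : W.transpose * W = 1) (L : ℕ) :
    (W * Matrix.diagonal l * W.transpose) ^ L =
      W * Matrix.diagonal (fun v => l v ^ L) * W.transpose := by
  induction L with
  | zero => simp [h1]
  | succ L ih =>
    rw [pow_succ, ih]
    have : W * Matrix.diagonal (fun v => l v ^ L) * W.transpose *
        (W * Matrix.diagonal l * W.transpose) =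
        W * (Matrix.diagonal (fun v => l v ^ L) * (W.transpose * W) * Matrix.diagonal l) *
          W.transpose := by
      simp only [Matrix.mul_assoc]
    rw [this, h2, Matrix.mul_one, Matrix.diagonal_mul_diagonal]
    simp only [pow_succ]

theorem tr_eq {V : Type} [Fintype V] (W : Matrix V V ℝ) (l : V → ℝ)
    (h1 : W * W.transpose = 1) (h2 : W.transpose * W = 1) (L : ℕ) :
    ((W * Matrix.diagonal l * W.transpose) ^ L).trace = ∑ v, l v ^ L := by
  rw [pow_eq W l h1 h2, Matrix.trace_mul_comm, ← Matrix.mul_assoc, h2, Matrix.one_mul,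
    Matrix.trace_diagonal]

theorem quad_eq {V : Type} [Fintype V] (W : Matrix V V ℝ) (l : V → ℝ) (x : V → ℝ) :
    x ⬝ᵥ (W * Matrix.diagonal l * W.transpose).mulVec x =
      ∑ v, l v * (W.transpose.mulVec x v) ^ 2 := by
  rw [← Matrix.mulVec_mulVec, ← Matrix.mulVec_mulVec, Matrix.dotProduct_mulVec,
    ← Matrix.mulVec_transpose]
  simp only [dotProduct, Matrix.mulVec_diagonal]
  refine Finset.sum_congr rfl fun v _ => ?_
  ring

theorem sq_eq {V : Type} [Fintype V] (W : Matrix V V ℝ) (h1 : W * W.transpose = 1) (x : V → ℝ) :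
    x ⬝ᵥ x = ∑ v, (W.transpose.mulVec x v) ^ 2 := by
  have : x = W.mulVec (W.transpose.mulVec x) := by
    rw [Matrix.mulVec_mulVec, h1, Matrix.one_mulVec]
  conv_lhs => rw [this]
  rw [Matrix.dotProduct_mulVec, ← Matrix.mulVec_transpose, ← this]
  simp only [dotProduct]
  refine Finset.sum_congr rfl fun v _ => ?_
  ring

/-- the eigenvector -/
theorem ray {V : Type} [Fintype V] (W : Matrix V V ℝ) (l : V → ℝ)
    (h1 : W * W.transpose = 1) (h2 : W.transpose * W = 1) (v : V) :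
    ∃ x : V → ℝ, x ⬝ᵥ x = 1 ∧ x ⬝ᵥ (W * Matrix.diagonal l * W.transpose).mulVec x = l v := by
  refine ⟨W.mulVec (Pi.single v 1), ?_, ?_⟩
  · rw [sq_eq W h1, Matrix.mulVec_mulVec, h2, Matrix.one_mulVec]
    simp [Pi.single_apply]
  · rw [quad_eq, Matrix.mulVec_mulVec, h2, Matrix.one_mulVec]
    simp [Pi.single_apply]

end SpecAux

theorem tr_ge {V : Type} [Fintype V] (T : Matrix V V ℝ) (hT : T.transpose = T)
    (h0 : ∀ x : V → ℝ, 0 ≤ x ⬝ᵥ T.mulVec x) (x : V → ℝ) (hx : 0 < x ⬝ᵥ x) (a : ℝ) (ha : 0 ≤ a)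
    (h : a * (x ⬝ᵥ x) ≤ x ⬝ᵥ T.mulVec x) (L : ℕ) : a ^ L ≤ (T ^ L).trace := by
  obtain ⟨W, l, h1, h2, rfl⟩ := SpecAux.spec T hT
  rw [SpecAux.tr_eq W l h1 h2]
  have hl : ∀ v, 0 ≤ l v := fun v => by
    obtain ⟨y, -, hy⟩ := SpecAux.ray W l h1 h2 v
    rw [← hy]
    exact h0 y
  have hex : ∃ v, a ≤ l v := by
    by_contra hcon
    simp only [not_exists, not_le] at hcon
    rw [SpecAux.quad_eq, SpecAux.sq_eq W h1] at h
    rw [SpecAux.sq_eq W h1] at hx
    rw [Finset.mul_sum] at h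
    obtain ⟨v, hv⟩ : ∃ v, (W.transpose.mulVec x v) ≠ 0 := by
      by_contra hall
      simp only [not_exists, not_not] at hall
      rw [Finset.sum_eq_zero (fun v _ => by rw [hall v]; norm_num)] at hx
      exact lt_irrefl _ hx
    have : ∑ v, l v * (W.transpose.mulVec x v) ^ 2 < ∑ v, a * (W.transpose.mulVec x v) ^ 2 := by
      refine Finset.sum_lt_sum (fun w _ => ?_) ⟨v, Finset.mem_univ _, ?_⟩
      · exact mul_le_mul_of_nonneg_right (hcon w).le (sq_nonneg _)
      · exact mul_lt_mul_of_pos_right (hcon v) (by positivity)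
    exact absurd h (not_le.mpr this)
  obtain ⟨v, hv⟩ := hex
  calc a ^ L ≤ l v ^ L := pow_le_pow_left₀ ha hv L
    _ ≤ ∑ v, l v ^ L := Finset.single_le_sum (f := fun v => l v ^ L)
        (fun w _ => pow_nonneg (hl w) L) (Finset.mem_univ v)

theorem tr_le {V : Type} [Fintype V] (T : Matrix V V ℝ) (hT : T.transpose = T)
    (h0 : ∀ x : V → ℝ, 0 ≤ x ⬝ᵥ T.mulVec x) (b : ℝ)
    (h : ∀ x : V → ℝ, x ⬝ᵥ T.mulVec x ≤ b * (x ⬝ᵥ x)) (L : ℕ) :
    (T ^ L).trace ≤ Fintype.card V * b ^ L := by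
  obtain ⟨W, l, h1, h2, rfl⟩ := SpecAux.spec T hT
  rw [SpecAux.tr_eq W l h1 h2]
  have hl : ∀ v, 0 ≤ l v ∧ l v ≤ b := fun v => by
    obtain ⟨y, hy1, hy⟩ := SpecAux.ray W l h1 h2 v
    rw [← hy]
    refine ⟨h0 y, ?_⟩
    have := h y
    rwa [hy1, mul_one] at this
  calc ∑ v, l v ^ L ≤ ∑ _v : V, b ^ L :=
        Finset.sum_le_sum fun v _ => pow_le_pow_left₀ (hl v).1 (hl v).2 L
    _ = Fintype.card V * b ^ L := by
        rw [Finset.sum_const, Finset.card_univ, nsmul_eq_mul]

theorem tr_one {V : Type} [Fintype V] [Nonempty V] (T : Matrix V V ℝ) (hT : T.transpose = T)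
    (h0 : ∀ x : V → ℝ, 0 ≤ x ⬝ᵥ T.mulVec x) (h1 : T.mulVec (fun _ => 1) = fun _ => 1) (b : ℝ)
    (hb : 0 ≤ b) (h : ∀ x : V → ℝ, ∑ v, x v = 0 → x ⬝ᵥ T.mulVec x ≤ b * (x ⬝ᵥ x)) (L : ℕ)
    (hL : 1 ≤ L) : 1 ≤ (T ^ L).trace ∧ (T ^ L).trace ≤ 1 + Fintype.card V * b ^ L := by
  set n : ℝ := ((Fintype.card V : ℕ) : ℝ) with hn
  have hn0 : 0 < n := by rw [hn]; exact_mod_cast Fintype.card_pos
  set J : Matrix V V ℝ := Matrix.of (fun _ _ => 1 / n) with hJ
  -- algebra of `J`
  have hJJ : J * J = J := by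
    ext i j
    simp only [hJ, Matrix.mul_apply, Matrix.of_apply, Finset.sum_const, Finset.card_univ,
      nsmul_eq_mul]
    rw [← hn]
    field_simp
  have hTJ : T * J = J := by
    ext i j
    have := congrFun h1 i
    simp only [Matrix.mulVec, dotProduct, mul_one] at this
    simp only [hJ, Matrix.mul_apply, Matrix.of_apply]
    rw [← Finset.sum_mul, this, one_mul]
  have hJt : J.transpose = J := by
    ext i j
    simp [hJ]
  have hJT : J * T = J := by
    have := congrArg Matrix.transpose hTJ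
    rwa [Matrix.transpose_mul, hJt, hT] at this
  have hpow : ∀ m : ℕ, (T - J) ^ (m + 1) = T ^ (m + 1) - J ∧ T ^ (m + 1) * J = J := by
    intro m
    induction m with
    | zero => simp [hTJ]
    | succ m ih =>
      refine ⟨?_, ?_⟩
      · rw [pow_succ, ih.1, Matrix.sub_mul, Matrix.mul_sub, Matrix.mul_sub, ih.2, hJT, hJJ,
          ← pow_succ]
        simp
      · rw [pow_succ, Matrix.mul_assoc, hTJ, ih.2]
  have htr : (T ^ L).trace = ((T - J) ^ L).trace + 1 := by
    obtain ⟨m, rfl⟩ : ∃ m, L = m + 1 := ⟨L - 1, by omega⟩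
    rw [(hpow m).1, Matrix.trace_sub]
    have : J.trace = 1 := by
      simp only [hJ, Matrix.trace, Matrix.diag_apply, Matrix.of_apply, Finset.sum_const,
        Finset.card_univ, nsmul_eq_mul]
      rw [← hn]
      field_simp
    rw [this]
    ring
  have hsym : (T - J).transpose = T - J := by
    rw [Matrix.transpose_sub, hT, hJt]
  -- the quadratic form
  have hq : ∀ x : V → ℝ, ∃ y : V → ℝ, ∑ v, y v = 0 ∧
      x ⬝ᵥ (T - J).mulVec x = y ⬝ᵥ T.mulVec y ∧ y ⬝ᵥ y ≤ x ⬝ᵥ x := by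
    intro x
    set μ : ℝ := (∑ u, x u) / n with hμ
    have hs : ∑ u, x u = n * μ := by rw [hμ]; field_simp
    have hxy : x = (fun v => x v - μ) + μ • (fun _ => (1 : ℝ)) := by
      funext v
      simp
    set y : V → ℝ := fun v => x v - μ with hy
    have hy0 : ∑ v, y v = 0 := by
      simp only [hy, Finset.sum_sub_distrib, Finset.sum_const, Finset.card_univ, nsmul_eq_mul]
      rw [← hn, hs]
      ring
    have hone : (fun _ : V => (1 : ℝ)) ⬝ᵥ (fun _ => (1 : ℝ)) = n := by
      simp [dotProduct, hn]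
    have hy1 : y ⬝ᵥ (fun _ => (1 : ℝ)) = 0 := by
      simpa [dotProduct] using hy0
    have hy1' : (fun _ : V => (1 : ℝ)) ⬝ᵥ y = 0 := by
      rw [dotProduct_comm]; exact hy1
    have hty : (fun _ : V => (1 : ℝ)) ⬝ᵥ T.mulVec y = 0 := by
      rw [Matrix.dotProduct_mulVec, ← Matrix.mulVec_transpose, hT, h1, hy1']
    have hJx : J.mulVec x = μ • (fun _ => (1 : ℝ)) := by
      funext v
      simp only [Matrix.mulVec, dotProduct, hJ, Matrix.of_apply, Pi.smul_apply, smul_eq_mul,
        mul_one]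
      rw [← Finset.mul_sum, hs]
      field_simp
    refine ⟨y, hy0, ?_, ?_⟩
    · rw [Matrix.sub_mulVec, dotProduct_sub, hJx]
      conv_lhs => rw [hxy]
      rw [Matrix.mulVec_add, Matrix.mulVec_smul, h1]
      simp only [add_dotProduct, dotProduct_add, smul_dotProduct, dotProduct_smul, hone, hy1,
        hty, smul_eq_mul]
      ring
    · conv_rhs => rw [hxy]
      simp only [add_dotProduct, dotProduct_add, smul_dotProduct, dotProduct_smul, hone, hy1,
        hy1', smul_eq_mul]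
      have : 0 ≤ μ * (μ * n) := by
        have := mul_nonneg (mul_self_nonneg μ) hn0.le
        nlinarith
      linarith
  have hpos : ∀ x : V → ℝ, 0 ≤ x ⬝ᵥ (T - J).mulVec x := by
    intro x
    obtain ⟨y, -, hy, -⟩ := hq x
    rw [hy]
    exact h0 y
  have hle : ∀ x : V → ℝ, x ⬝ᵥ (T - J).mulVec x ≤ b * (x ⬝ᵥ x) := by
    intro x
    obtain ⟨y, hy0, hy, hyx⟩ := hq x
    rw [hy]
    exact (h y hy0).trans (mul_le_mul_of_nonneg_left hyx hb)
  rw [htr]
  constructor
  · have : 0 ≤ ((T - J) ^ L).trace := by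
      obtain ⟨W, l, g1, g2, hW⟩ := SpecAux.spec (T - J) hsym
      rw [hW] at hpos ⊢
      rw [SpecAux.tr_eq W l g1 g2]
      refine Finset.sum_nonneg fun v _ => ?_
      obtain ⟨y, -, hy⟩ := SpecAux.ray W l g1 g2 v
      rw [← hy]
      exact pow_nonneg (hpos y) L
    linarith
  · have := tr_le (T - J) hsym hpos b hle L
    rw [← hn] at this
    linarith

end Pool.Agent.P325ad
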