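import Mathlib
import Pool.Agent.Lib.P325ad.Defs

/-!
# P325ad.Yes: instances of large value
-/

open Finset
open scoped BigOperators Classical

namespace Pool.Agent.P325ad

open Pool.Agent.P325ac (shiftVal)

variable {V E : Type} [Fintype V] [Fintype E]

namespace YesAux

open Pool.Agent.P325ac (sg)

theorem term_zero (a b c : Bool) (h : xor a b = c) : (sg a - sg b * sg c) ^ 2 = 0 := by
  subst h
  cases a <;> cases b <;> norm_num [sg]

theorem term_le (a b c : Bool) : (sg a - sg b * sg c) ^ 2 ≤ 4 := by
  cases a <;> cases b <;> cases c <;> norm_num [sg]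

end YesAux

theorem yes_quad {k : ℕ} (src tgt : E → V) (c : E → Fin k → Bool) (ε : ℝ)
    (h : 1 - ε ≤ shiftVal src tgt k c) (i : Fin k) :
    ∃ x : V → ℝ, (∀ v, x v = 1 ∨ x v = -1) ∧
      quad src tgt (lsg c i) x ≤ 4 * ε * Fintype.card E := by
  obtain ⟨z, hz⟩ := exists_eq_ciSup_of_finite (f := fun z : V → Fin k → Bool =>
    ((univ.filter (fun e => ∀ i, xor (z (src e) i) (c e i) = z (tgt e) i)).card : ℝ) /
      Fintype.card E)
  have h1 : 1 - ε ≤ ((univ.filter (fun e => ∀ i, xor (z (src e) i) (c e i) = z (tgt e) i)).card : ℝ) /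
      Fintype.card E := by
    refine h.trans (le_of_eq ?_)
    unfold shiftVal
    exact hz.symm
  refine ⟨fun v => Pool.Agent.P325ac.sg (z v i), fun v => ?_, ?_⟩
  · cases hv : z v i
    · exact Or.inl (by simp [Pool.Agent.P325ac.sg, hv])
    · exact Or.inr (by simp [Pool.Agent.P325ac.sg, hv])
  · rcases Nat.eq_zero_or_pos (Fintype.card E) with h0 | hpos
    · have : IsEmpty E := Fintype.card_eq_zero_iff.mp h0
      unfold quad
      simp
    · have hE : (0 : ℝ) < Fintype.card E := by exact_mod_cast hpos
      rw [le_div_iff₀ hE] at h1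
      have h2 : quad src tgt (lsg c i) (fun v => Pool.Agent.P325ac.sg (z v i)) ≤
          ∑ e : E, (4 * (1 - if (∀ i, xor (z (src e) i) (c e i) = z (tgt e) i) then (1 : ℝ) else 0)) := by
        unfold quad lsg
        refine Finset.sum_le_sum fun e _ => ?_
        by_cases he : ∀ i, xor (z (src e) i) (c e i) = z (tgt e) i
        · rw [if_pos he]
          have := YesAux.term_zero _ _ _ (he i)
          linarith
        · rw [if_neg he]
          have := YesAux.term_le (z (src e) i) (c e i) (z (tgt e) i)
          linarith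
      have h3 : ∑ e : E, (4 * (1 - if (∀ i, xor (z (src e) i) (c e i) = z (tgt e) i) then (1 : ℝ) else 0)) =
          4 * (Fintype.card E -
            ((univ.filter (fun e => ∀ i, xor (z (src e) i) (c e i) = z (tgt e) i)).card : ℝ)) := by
        rw [← Finset.mul_sum, Finset.sum_sub_distrib, Finset.sum_boole]
        simp
      linarith

end Pool.Agent.P325ad
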