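import Mathlib
import Pool.Agent.Lib.P325ad.Defs
import Pool.Agent.Lib.P325ad.Spec
import Pool.Agent.Lib.P325ad.Opr
import Pool.Agent.Lib.P325ad.Yes
import Pool.Agent.Lib.P325ad.No

/-!
# P325ad.Trb: bounds for the traces
-/

open Finset
open scoped BigOperators Classical

namespace Pool.Agent.P325ad

open Pool.Agent.P325ac (shiftVal sg)

variable {V E : Type} [Fintype V] [Fintype E]

/-- The spectral gap of instances of value at most `δ`. -/
noncomputable def bet (γ δ : ℝ) (k D : ℕ) : ℝ := (1 - δ) * γ ^ 2 / (64 * k * D * (γ + D))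

namespace TrbAux

theorem lsg_pm {k : ℕ} (c : E → Fin k → Bool) (i : Fin k) (e : E) :
    lsg c i e = 1 ∨ lsg c i e = -1 := by
  unfold lsg sg
  split_ifs
  · exact Or.inr rfl
  · exact Or.inl rfl

theorem sum_deg (src tgt : E → V) : ∑ v, (deg src tgt v : ℝ) = 2 * Fintype.card E := by
  have h1 : ∀ f : E → V, ∑ v, ((univ.filter (fun e => f e = v)).card : ℝ) = Fintype.card E := by
    intro f
    rw [← Nat.cast_sum, ← Finset.card_eq_sum_card_fiberwise (fun e _ => mem_univ (f e)),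
      Finset.card_univ]
  unfold deg
  push_cast
  rw [Finset.sum_add_distrib, h1, h1]
  ring

theorem two_card (src tgt : E → V) (D : ℕ) (hdeg : ∀ v, deg src tgt v ≤ D) :
    2 * (Fintype.card E : ℝ) ≤ D * Fintype.card V := by
  rw [← sum_deg src tgt]
  calc ∑ v, (deg src tgt v : ℝ) ≤ ∑ _v : V, (D : ℝ) :=
        Finset.sum_le_sum fun v _ => by exact_mod_cast hdeg v
    _ = D * Fintype.card V := by rw [Finset.sum_const, Finset.card_univ, nsmul_eq_mul]; ring

end TrbAux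

open TrbAux

theorem tr_yes {k : ℕ} [Nonempty V] (src tgt : E → V) (D : ℕ) (hD : 1 ≤ D)
    (hdeg : ∀ v, deg src tgt v ≤ D) (c : E → Fin k → Bool) (ε : ℝ) (hε0 : 0 ≤ ε) (hε1 : ε ≤ 1)
    (h : 1 - ε ≤ shiftVal src tgt k c) (i : Fin k) (L : ℕ) :
    (1 - ε) ^ L ≤ (TM src tgt D (lsg c i) ^ L).trace := by
  obtain ⟨x, hx, hq⟩ := yes_quad src tgt c ε h i
  have hxx : x ⬝ᵥ x = Fintype.card V := by
    unfold dotProduct
    rw [Finset.sum_congr rfl (g := fun _ => (1 : ℝ))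
      (fun v _ => by rcases hx v with h1 | h1 <;> rw [h1] <;> norm_num)]
    rw [Finset.sum_const, Finset.card_univ, nsmul_eq_mul, mul_one]
  have hn : (0 : ℝ) < Fintype.card V := by exact_mod_cast Fintype.card_pos
  have hDR : (1 : ℝ) ≤ D := by exact_mod_cast hD
  refine tr_ge _ (TM_symm src tgt D _) (TM_pos src tgt D hD hdeg _ (lsg_pm c i)) x
    (by rw [hxx]; exact hn) (1 - ε) (by linarith) ?_ L
  rw [TM_quad src tgt D hD _ (lsg_pm c i), hxx]
  have h2 := two_card src tgt D hdeg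
  have h3 : quad src tgt (lsg c i) x / (2 * D) ≤ ε * Fintype.card V := by
    rw [div_le_iff₀ (by linarith)]
    have : 4 * ε * Fintype.card E ≤ 2 * ε * (D * Fintype.card V) := by
      have := mul_le_mul_of_nonneg_left h2 (by linarith : (0 : ℝ) ≤ 2 * ε)
      linarith
    linarith
  linarith

theorem tr_no {k : ℕ} (hk : 1 ≤ k) (src tgt : E → V) (D : ℕ) (hD : 1 ≤ D)
    (hdeg : ∀ v, deg src tgt v ≤ D) (γ : ℝ) (hγ : 0 < γ) (hP : Poinc src tgt γ)
    (hV : 2 ≤ Fintype.card V) (c : E → Fin k → Bool) (δ : ℝ) (hδ0 : 0 ≤ δ) (hδ1 : δ < 1)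
    (h : shiftVal src tgt k c ≤ δ) (L : ℕ) :
    ∃ i : Fin k, (TM src tgt D (lsg c i) ^ L).trace ≤ Fintype.card V * (1 - bet γ δ k D) ^ L := by
  obtain ⟨i, hi⟩ := no_quad hk src tgt D hD hdeg γ hγ hP hV c δ hδ0 hδ1 h
  refine ⟨i, tr_le _ (TM_symm src tgt D _) (TM_pos src tgt D hD hdeg _ (lsg_pm c i)) _ ?_ L⟩
  intro x
  rw [TM_quad src tgt D hD _ (lsg_pm c i)]
  have hxx : x ⬝ᵥ x = ∑ v, x v ^ 2 := by
    unfold dotProduct
    exact Finset.sum_congr rfl fun v _ => by ring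
  have hDR : (1 : ℝ) ≤ D := by exact_mod_cast hD
  have hkR : (1 : ℝ) ≤ k := by exact_mod_cast hk
  have h1 := div_le_div_of_nonneg_right (hi x) (by linarith : (0 : ℝ) ≤ 2 * D)
  have h2 : (1 - δ) * γ ^ 2 / (32 * k * (γ + D)) * ∑ v, x v ^ 2 / (2 * D) =
      bet γ δ k D * ∑ v, x v ^ 2 := by
    rw [← Finset.sum_div]
    unfold bet
    have : (γ + D : ℝ) ≠ 0 := by positivity
    have : (k : ℝ) ≠ 0 := by positivity
    have : (D : ℝ) ≠ 0 := by positivity
    field_simp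
    ring
  have h3 : (1 - δ) * γ ^ 2 / (32 * k * (γ + D)) * (∑ v, x v ^ 2) / (2 * D) =
      bet γ δ k D * ∑ v, x v ^ 2 := by
    rw [← h2, ← Finset.sum_div]
    ring
  rw [h3] at h1
  rw [hxx]
  linarith

theorem tr_unit (src tgt : E → V) (D : ℕ) (hD : 1 ≤ D)
    (hdeg : ∀ v, deg src tgt v ≤ D) (γ : ℝ) (hP : Poinc src tgt γ)
    (hV : 2 ≤ Fintype.card V) (L : ℕ) (hL : 1 ≤ L) :
    0 ≤ 1 - γ / (2 * D) ∧ 1 ≤ (TM src tgt D (fun _ => 1) ^ L).trace ∧
      (TM src tgt D (fun _ => 1) ^ L).trace ≤ 1 + Fintype.card V * (1 - γ / (2 * D)) ^ L := by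
  have hne : Nonempty V := Fintype.card_pos_iff.mp (by omega)
  have hDR : (1 : ℝ) ≤ D := by exact_mod_cast hD
  have hpos := TM_pos src tgt D hD hdeg (fun _ => 1) (fun _ => Or.inl rfl)
  have hb : ∀ x : V → ℝ, ∑ v, x v = 0 →
      x ⬝ᵥ (TM src tgt D (fun _ => 1)).mulVec x ≤ (1 - γ / (2 * D)) * (x ⬝ᵥ x) := by
    intro x hx
    rw [TM_quad src tgt D hD _ (fun _ => Or.inl rfl)]
    have h1 := hP x
    rw [hx, zero_div] at h1
    simp only [sub_zero] at h1
    have hxx : x ⬝ᵥ x = ∑ v, x v ^ 2 := by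
      unfold dotProduct
      exact Finset.sum_congr rfl fun v _ => by ring
    have h2 : quad src tgt (fun _ => 1) x = ∑ e, (x (src e) - x (tgt e)) ^ 2 := by
      unfold quad
      exact Finset.sum_congr rfl fun e _ => by ring
    rw [h2, hxx]
    have h3 := div_le_div_of_nonneg_right h1 (by linarith : (0 : ℝ) ≤ 2 * D)
    have h4 : γ * (∑ v, x v ^ 2) / (2 * D) = γ / (2 * D) * ∑ v, x v ^ 2 := by ring
    linarith
  have hb0 : 0 ≤ 1 - γ / (2 * D) := by
    obtain ⟨u, w, huw⟩ := Fintype.exists_pair_of_one_lt_card (by omega : 1 < Fintype.card V)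
    set x : V → ℝ := fun v => (if v = u then 1 else 0) - (if v = w then 1 else 0) with hx
    have hs : ∑ v, x v = 0 := by
      rw [hx]
      simp [Finset.sum_sub_distrib]
    have h1 := hb x hs
    have h2 := hpos x
    have h3 : 0 < x ⬝ᵥ x := by
      unfold dotProduct
      refine Finset.sum_pos' (fun v _ => mul_self_nonneg _) ⟨u, mem_univ u, ?_⟩
      have : x u = 1 := by
        rw [hx]
        simp [huw]
      rw [this]
      norm_num
    by_contra hcon
    have : (1 - γ / (2 * D)) * (x ⬝ᵥ x) < 0 := mul_neg_of_neg_of_pos (by linarith) h3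
    linarith
  exact ⟨hb0, tr_one _ (TM_symm src tgt D _) hpos (TM_one src tgt D hD) _ hb0 hb L hL⟩

end Pool.Agent.P325ad
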