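import Mathlib
import Pool.Agent.Lib.P325ad.Defs

/-!
# P325ad.Wlk: powers of the transition matrix are sums over walks
-/

open Finset
open scoped BigOperators Classical

namespace Pool.Agent.P325ad

variable {V E : Type} [Fintype V] [Fintype E]

theorem TM_pow (src tgt : E → V) (D : ℕ) (s : E → ℝ) (L : ℕ) (u v : V) :
    (TM src tgt D s ^ L) u v =
      ∑ a : Fin L → V ⊕ (E × Bool), ww src tgt D L a u v * ∏ i, asg s (a i) := by
  induction L generalizing u with
  | zero =>
    rw [pow_zero, Matrix.one_apply, Fintype.sum_unique]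
    simp [ww]
  | succ L ih =>
    rw [pow_succ', Matrix.mul_apply]
    have hR : ∑ a : Fin (L + 1) → V ⊕ (E × Bool), ww src tgt D (L + 1) a u v *
          ∏ i, asg s (a i) =
        ∑ a0 : V ⊕ (E × Bool), ∑ a : Fin L → V ⊕ (E × Bool),
          (if aS src tgt a0 = u then
            aw src tgt D a0 * ww src tgt D L a (aT src tgt a0) v else 0) *
          (asg s a0 * ∏ i, asg s (a i)) := by
      rw [← Fintype.sum_prod_type']
      refine (Fintype.sum_equiv (Fin.consEquiv (fun _ : Fin (L + 1) => V ⊕ (E × Bool))) _ _
        (fun p => ?_)).symm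
      have ht : Fin.tail ((Fin.consEquiv (fun _ : Fin (L + 1) => V ⊕ (E × Bool))) p) = p.2 := by
        funext i
        simp only [Fin.tail, Fin.consEquiv_apply, Fin.cons_succ]
      rw [Fin.prod_univ_succ]
      simp only [ww]
      rw [ht]
      simp only [Fin.consEquiv_apply, Fin.cons_zero, Fin.cons_succ]
    rw [hR]
    have hL : ∀ w : V, TM src tgt D s u w * (TM src tgt D s ^ L) w v =
        ∑ a0 : V ⊕ (E × Bool), if aT src tgt a0 = w then
          (if aS src tgt a0 = u then aw src tgt D a0 * asg s a0 else 0) *
            (TM src tgt D s ^ L) w v else 0 := by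
      intro w
      unfold TM
      rw [Finset.sum_mul]
      refine Finset.sum_congr rfl fun a0 _ => ?_
      by_cases h1 : aS src tgt a0 = u <;> by_cases h2 : aT src tgt a0 = w <;> simp [h1, h2]
    rw [Finset.sum_congr rfl fun w _ => hL w, Finset.sum_comm]
    refine Finset.sum_congr rfl fun a0 _ => ?_
    rw [Finset.sum_ite_eq Finset.univ (aT src tgt a0), if_pos (Finset.mem_univ _), ih,
      Finset.mul_sum]
    refine Finset.sum_congr rfl fun a _ => ?_
    by_cases h1 : aS src tgt a0 = u
    · rw [if_pos h1, if_pos h1]
      ring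
    · rw [if_neg h1, if_neg h1, zero_mul, zero_mul]

theorem ww_nonneg (src tgt : E → V) (D : ℕ) (hdeg : ∀ v, deg src tgt v ≤ D) (L : ℕ)
    (a : Fin L → V ⊕ (E × Bool)) (u v : V) : 0 ≤ ww src tgt D L a u v := by
  induction L generalizing u with
  | zero =>
    unfold ww
    split <;> norm_num
  | succ L ih =>
    unfold ww
    split
    · refine mul_nonneg ?_ (ih _ _)
      rcases a 0 with w | p
      · show (0 : ℝ) ≤ 1 - deg src tgt w / (2 * D)
        rw [sub_nonneg]
        rcases Nat.eq_zero_or_pos D with hD | hD
        · subst hD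
          simp
        · have h1 : (deg src tgt w : ℝ) ≤ D := by exact_mod_cast hdeg w
          have h2 : (0 : ℝ) < D := by exact_mod_cast hD
          rw [div_le_one (by positivity)]
          linarith
      · show (0 : ℝ) ≤ 1 / (2 * D)
        positivity
    · exact le_rfl

end Pool.Agent.P325ad
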