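import Mathlib
import Pool.Agent.Lib.P325ad.Defs
import Pool.Agent.Lib.P325ad.Wlk

/-!
# P325ad.Tst: the sign of a closed walk as a test
-/

open Finset
open scoped BigOperators Classical

namespace Pool.Agent.P325ad

open Pool.Agent.P325ac (IsProb br IsJunta)

variable {V E : Type} [Fintype V] [Fintype E]

/-- The sign of the sequence `a` of steps in the layer `i` of the instance `c` is `1`. -/
noncomputable def tst {k L : ℕ} (i : Fin k) (a : Fin L → V ⊕ (E × Bool)) (c : E → Fin k → Bool) :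
    Bool :=
  decide (∏ j, asg (lsg c i) (a j) = 1)

namespace TstAux

/-- The edges of a step. -/
noncomputable def stepE (a : V ⊕ (E × Bool)) : Finset E :=
  match a with
  | Sum.inl _ => ∅
  | Sum.inr p => {p.1}

theorem stepE_card (a : V ⊕ (E × Bool)) : (stepE a).card ≤ 1 := by
  rcases a with v | p
  · simp [stepE]
  · simp [stepE]

theorem asg_one (a : V ⊕ (E × Bool)) : asg (fun _ : E => (1 : ℝ)) a = 1 := by
  rcases a with v | p <;> rfl

theorem asg_sign {k : ℕ} (c : E → Fin k → Bool) (i : Fin k) (a : V ⊕ (E × Bool)) :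
    asg (lsg c i) a = 1 ∨ asg (lsg c i) a = -1 := by
  rcases a with v | p
  · exact Or.inl rfl
  · show lsg c i p.1 = 1 ∨ lsg c i p.1 = -1
    unfold lsg Pool.Agent.P325ac.sg
    split_ifs
    · exact Or.inr rfl
    · exact Or.inl rfl

theorem prod_sign {k L : ℕ} (c : E → Fin k → Bool) (i : Fin k) (a : Fin L → V ⊕ (E × Bool)) :
    (∏ j, asg (lsg c i) (a j)) = 1 ∨ (∏ j, asg (lsg c i) (a j)) = -1 := by
  refine Finset.prod_induction _ (fun x : ℝ => x = 1 ∨ x = -1) ?_ (Or.inl rfl)
    (fun j _ => asg_sign c i (a j))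
  rintro x y (rfl | rfl) (rfl | rfl) <;> norm_num

theorem trace_eq (src tgt : E → V) (D L : ℕ) (s : E → ℝ) :
    (TM src tgt D s ^ L).trace =
      ∑ o : V × (Fin L → V ⊕ (E × Bool)), ww src tgt D L o.2 o.1 o.1 * ∏ j, asg s (o.2 j) := by
  rw [Fintype.sum_prod_type]
  unfold Matrix.trace
  refine Finset.sum_congr rfl fun v _ => ?_
  rw [Matrix.diag_apply, TM_pow]

theorem trace_one (src tgt : E → V) (D L : ℕ) :
    (TM src tgt D (fun _ => 1) ^ L).trace =
      ∑ o : V × (Fin L → V ⊕ (E × Bool)), ww src tgt D L o.2 o.1 o.1 := by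
  rw [trace_eq]
  refine Finset.sum_congr rfl fun o _ => ?_
  rw [Finset.prod_congr rfl (fun j _ => asg_one (o.2 j)), Finset.prod_const_one, mul_one]

end TstAux

open TstAux

theorem tst_junta {k L : ℕ} (i : Fin k) (a : Fin L → V ⊕ (E × Bool)) : IsJunta L (tst i a) := by
  refine ⟨Finset.univ.biUnion (fun j => stepE (a j)), ?_, ?_⟩
  · refine Finset.card_biUnion_le.trans ?_
    refine (Finset.sum_le_sum (fun j _ => stepE_card (a j))).trans ?_
    simp
  · intro c c' h
    unfold tst
    have hp : ∏ j, asg (lsg c i) (a j) = ∏ j, asg (lsg c' i) (a j) := by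
      refine Finset.prod_congr rfl fun j _ => ?_
      have hj : ∀ e ∈ stepE (a j), c e = c' e := fun e he =>
        h e (Finset.mem_biUnion.2 ⟨j, Finset.mem_univ _, he⟩)
      rcases hq : a j with v | p
      · rfl
      · rw [hq] at hj
        have he : c p.1 = c' p.1 := hj p.1 (by simp [stepE])
        show lsg c i p.1 = lsg c' i p.1
        unfold lsg
        rw [he]
    rw [hp]

/-- The probability of a closed walk. -/
noncomputable def wp (src tgt : E → V) (D L : ℕ) (o : V × (Fin L → V ⊕ (E × Bool))) : ℝ :=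
  ww src tgt D L o.2 o.1 o.1 / (TM src tgt D (fun _ => 1) ^ L).trace

theorem wp_prob (src tgt : E → V) (D L : ℕ) (hdeg : ∀ v, deg src tgt v ≤ D)
    (hZ : 0 < (TM src tgt D (fun _ => 1) ^ L).trace) : IsProb (wp src tgt D L) := by
  refine ⟨fun o => div_nonneg (ww_nonneg src tgt D hdeg L _ _ _) hZ.le, ?_⟩
  unfold wp
  rw [← Finset.sum_div, ← trace_one, div_self hZ.ne']

theorem tst_prob {k : ℕ} (src tgt : E → V) (D L : ℕ)
    (hZ : 0 < (TM src tgt D (fun _ => 1) ^ L).trace) (c : E → Fin k → Bool) (i : Fin k) :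
    ∑ o, wp src tgt D L o * br (tst i o.2 c) =
      (1 + (TM src tgt D (lsg c i) ^ L).trace / (TM src tgt D (fun _ => 1) ^ L).trace) / 2 := by
  have h1 : ∀ o : V × (Fin L → V ⊕ (E × Bool)), wp src tgt D L o * br (tst i o.2 c) =
      (ww src tgt D L o.2 o.1 o.1 / (TM src tgt D (fun _ => 1) ^ L).trace +
        ww src tgt D L o.2 o.1 o.1 * (∏ j, asg (lsg c i) (o.2 j)) /
          (TM src tgt D (fun _ => 1) ^ L).trace) / 2 := by
    intro o
    unfold wp tst br
    rcases prod_sign c i o.2 with h | h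
    · rw [h, if_pos (by simp)]
      ring
    · rw [h, if_neg (by norm_num)]
      ring
  rw [Finset.sum_congr rfl fun o _ => h1 o, ← Finset.sum_div, Finset.sum_add_distrib,
    ← Finset.sum_div, ← Finset.sum_div, ← trace_one, ← trace_eq, div_self hZ.ne']

end Pool.Agent.P325ad
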