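import Mathlib
import Pool.Agent.Lib.P325ad.Defs
import Pool.Agent.Lib.P325ad.Apx
import Pool.Agent.Lib.P325ad.CKb
import Pool.Agent.Lib.P325ad.CKc
import Pool.Agent.Lib.P325ad.Tst
import Pool.Agent.Lib.P325ad.Trb
import Pool.Agent.Lib.P325ad.Par

/-!
# P325ad.Upp: the circuits on a graph with a Poincaré inequality
-/

open Finset
open scoped BigOperators Classical

namespace Pool.Agent.P325ad

open Pool.Agent.P325ac (IsProb br shiftVal IsJunta IsCirc)

variable {V E : Type} [Fintype V] [Fintype E]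

namespace UppAux

theorem junta_neg {X A : Type} {w : ℕ} {f : (X → A) → Bool} (h : IsJunta w f) :
    IsJunta w (fun x => !(f x)) := by
  obtain ⟨S, hS, hf⟩ := h
  exact ⟨S, hS, fun c c' hc => congrArg (fun b => !b) (hf c c' hc)⟩

theorem junta_false {X A : Type} {w : ℕ} : IsJunta w (fun _ : X → A => false) :=
  ⟨∅, by simp, fun _ _ _ => rfl⟩

theorem bet_le {γ δ : ℝ} {k D : ℕ} (hk : 1 ≤ k) (hD : 1 ≤ D) (hγ : 0 < γ) (hδ0 : 0 ≤ δ)
    (hδ1 : δ < 1) : 0 < bet γ δ k D ∧ bet γ δ k D ≤ γ / (2 * D) := by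
  have hDR : (1 : ℝ) ≤ D := by exact_mod_cast hD
  have hkR : (1 : ℝ) ≤ k := by exact_mod_cast hk
  have h1 : 0 < 1 - δ := by linarith
  unfold bet
  refine ⟨by positivity, ?_⟩
  rw [div_le_div_iff₀ (by positivity) (by positivity)]
  have h2 : (1 - δ) * γ ^ 2 * (2 * D) ≤ 1 * γ ^ 2 * (2 * D) := by
    apply mul_le_mul_of_nonneg_right _ (by linarith)
    apply mul_le_mul_of_nonneg_right _ (by positivity)
    linarith
  refine h2.trans ?_
  have h3 : γ ^ 2 * D ≤ γ * (k * D * (γ + D)) := by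
    have h4 : γ * D ≤ k * D * (γ + D) := by
      have h5 : γ * D ≤ 1 * D * (γ + D) := by nlinarith
      have h6 : 1 * D * (γ + D) ≤ k * D * (γ + D) := by
        apply mul_le_mul_of_nonneg_right _ (by positivity)
        apply mul_le_mul_of_nonneg_right hkR (by linarith)
      linarith
    calc γ ^ 2 * D = γ * (γ * D) := by ring
      _ ≤ γ * (k * D * (γ + D)) := mul_le_mul_of_nonneg_left h4 hγ.le
  have h7 : 0 ≤ γ * (k * D * (γ + D)) := by positivity
  nlinarith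

end UppAux

open UppAux

theorem upper_core {k : ℕ} (hk : 1 ≤ k) (src tgt : E → V) (D : ℕ) (hD : 1 ≤ D)
    (hdeg : ∀ v, deg src tgt v ≤ D) (γ : ℝ) (hγ : 0 < γ) (hP : Poinc src tgt γ)
    (hV : 2 ≤ Fintype.card V) (δ ε : ℝ) (hδ0 : 0 ≤ δ) (hδ1 : δ < 1) (hε0 : 0 ≤ ε) (hε1 : ε < 1)
    (L r h' : ℕ) (hL1 : 1 ≤ L)
    (hL : 16 * (Fintype.card V : ℝ) * (1 - bet γ δ k D) ^ L ≤ (1 - ε) ^ L)
    (hM : 100 * Real.log (4 * ((k * Fintype.card E + 1 : ℕ) : ℝ)) ≤
      ((1 - ε) ^ L) ^ 2 * (r : ℝ) ^ h') :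
    ∃ f : (E → Fin k → Bool) → Bool,
      CK (IsJunta 1) (2 * h' + 5) (csz k (Fintype.card E) r h' L) f ∧
        (∀ c, 1 - ε ≤ shiftVal src tgt k c → f c = true) ∧
        (∀ c, shiftVal src tgt k c ≤ δ → f c = false) := by
  have hne : Nonempty V := Fintype.card_pos_iff.mp (by omega)
  obtain ⟨hβ0, hβγ⟩ := bet_le (γ := γ) (δ := δ) hk hD hγ hδ0 hδ1
  obtain ⟨hg0, hZ1, hZ2⟩ := tr_unit src tgt D hD hdeg γ hP hV L hL1
  set β := bet γ δ k D with hβ
  set b0 := (1 - ε) ^ L with hb0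
  set Z := (TM src tgt D (fun _ => 1) ^ L).trace with hZ
  set n : ℝ := (Fintype.card V : ℝ) with hn
  have hnpos : 0 < n := by rw [hn]; exact_mod_cast Fintype.card_pos
  have hb0pos : 0 < b0 := by rw [hb0]; exact pow_pos (by linarith) _
  have hb01 : b0 ≤ 1 := by rw [hb0]; exact pow_le_one₀ (by linarith) (by linarith)
  have hnβ : n * (1 - β) ^ L ≤ b0 / 16 := by linarith
  have hZ3 : Z ≤ 17 / 16 := by
    have h1 : (1 - γ / (2 * D)) ^ L ≤ (1 - β) ^ L := pow_le_pow_left₀ hg0 (by linarith) L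
    have h2 : n * (1 - γ / (2 * D)) ^ L ≤ n * (1 - β) ^ L := mul_le_mul_of_nonneg_left h1 hnpos.le
    linarith
  have hZpos : 0 < Z := by linarith
  set m : ℕ := Fintype.card E with hm
  set J : ℕ := k * m + 1 with hJ
  have hX : Fintype.card (E → Fin k → Bool) < 2 ^ J := by
    have h1 : Fintype.card (E → Fin k → Bool) = 2 ^ (k * m) := by
      rw [Fintype.card_fun, Fintype.card_fun, Fintype.card_bool, Fintype.card_fin, ← pow_mul]
    rw [h1, hJ]
    exact Nat.pow_lt_pow_right (by norm_num) (by omega)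
  have hM' : 4 * Real.log (4 * (J : ℝ)) ≤ (b0 / 5) ^ 2 * ((r ^ h' : ℕ) : ℝ) := by
    push_cast
    have : (b0 / 5) ^ 2 * (r : ℝ) ^ h' = b0 ^ 2 * (r : ℝ) ^ h' / 25 := by ring
    rw [this, le_div_iff₀ (by norm_num)]
    linarith
  have happ := fun i : Fin k => approx (wp src tgt D L) (wp_prob src tgt D L hdeg hZpos)
    (fun (o : V × (Fin L → V ⊕ (E × Bool))) (c : E → Fin k → Bool) => tst i o.2 c)
    (1 / 2 + b0 / 4) (b0 / 5) (by linarith) (by linarith) (by linarith) (by linarith)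
    (r ^ h') J (by omega) hX hM'
  choose ω hω1 hω2 using happ
  set P : ℕ → Prop := fun x => (1 / 2 + b0 / 4) * ((r ^ h' : ℕ) : ℝ) ≤ (x : ℝ) with hPdef
  have hck : ∀ i : Fin k, ∀ a b : Fin J, CK (IsJunta 1) (2 + 2 * h')
      (((r + 2) * (r ^ h' + 1) ^ r) ^ h' * (1 + 2 ^ (k * L)))
      (fun c : E → Fin k → Bool => decide (P (cnt (fun l => tst i (ω i a b l).2) c))) := by
    intro i a b
    exact ck_count (IsJunta L) (fun f hf => junta_neg hf) junta_false 2 (1 + 2 ^ (k * L))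
      (Nat.le_add_right 1 _) (fun f hf => ck_junta f hf) r (r ^ h') h' le_rfl
      (fun l => tst i (ω i a b l).2) (fun l => tst_junta i _) P
  have hfin := ck_and _ (fun i : Fin k => ck_or _ (fun a : Fin J => ck_and _ (fun b : Fin J =>
    hck i a b)))
  refine ⟨_, hfin.mono (by omega) ?_, ?_, ?_⟩
  · unfold csz
    simp only [Fintype.card_fin]
    exact le_rfl
  · intro c hc
    simp only [decide_eq_true_eq]
    intro i
    have h1 := tr_yes src tgt D hD hdeg c ε hε0 hε1.le hc i L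
    have h2 := tst_prob src tgt D L hZpos c i
    obtain ⟨a, ha⟩ := hω1 i c (by
      rw [h2]
      have h3 : b0 / (17 / 16) ≤ (TM src tgt D (lsg c i) ^ L).trace / Z := by
        calc b0 / (17 / 16) ≤ b0 / Z := div_le_div_of_nonneg_left hb0pos.le hZpos hZ3
          _ ≤ _ := div_le_div_of_nonneg_right h1 hZpos.le
      linarith)
    exact ⟨a, fun b => ha b⟩
  · intro c hc
    rw [decide_eq_false_iff_not]
    intro hall
    obtain ⟨i, hi⟩ := tr_no hk src tgt D hD hdeg γ hγ hP hV c δ hδ0 hδ1 hc L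
    have h2 := tst_prob src tgt D L hZpos c i
    have h3 : (TM src tgt D (lsg c i) ^ L).trace / Z ≤ b0 / 16 := by
      rw [div_le_iff₀ hZpos]
      have : b0 / 16 * 1 ≤ b0 / 16 * Z := mul_le_mul_of_nonneg_left hZ1 (by linarith)
      linarith
    have h4 := hall i
    simp only [decide_eq_true_eq] at h4
    obtain ⟨a, ha⟩ := h4
    obtain ⟨b, hb⟩ := hω2 i c (by rw [h2]; linarith) a
    have := ha b
    rw [hPdef] at this
    linarith

end Pool.Agent.P325ad
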