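import Mathlib
import Pool.Agent.Lib.P325ad.Defs
import Pool.Agent.Lib.P325ad.Host
import Pool.Agent.Lib.P325ad.LowB
import Pool.Agent.Lib.P325ad.Upp

/-!
# P325ad.Main: the depth `h` complexity of gap unique games, both bounds
-/

open Finset
open scoped BigOperators

namespace Pool.Agent.P325ad

open Pool.Agent.P325ac (IsProb br esrc etgt MaxDeg shiftVal IsJunta IsCirc gr NoShort)

namespace MainAux

theorem card_le_of_maxDeg {N D : ℕ} {Ed : Finset (Fin N × Fin N)} (h : MaxDeg Ed D) :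
    Ed.card ≤ D * N := by
  rw [card_eq_sum_card_fiberwise (f := fun p : Fin N × Fin N => p.1) (t := univ)
    (fun p _ => mem_univ _)]
  calc ∑ b, (Ed.filter (fun p => p.1 = b)).card ≤ ∑ _b : Fin N, D := sum_le_sum fun b _ => h.1 b
    _ = D * N := by rw [sum_const, card_univ, Fintype.card_fin, smul_eq_mul, mul_comm]

/-- Monotonicity of the upper bound in `B`. -/
theorem upper_mono {A B : ℕ} (hAB : A ≤ B) {N h : ℕ} (hN : 3 ≤ N) {ε : ℝ} (hε : 0 ≤ ε) :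
    A * Real.log N + A * h ^ 2 * ((N : ℝ) ^ ε * Real.log N) ^ ((A : ℝ) / h) ≤
      B * Real.log N + B * h ^ 2 * ((N : ℝ) ^ ε * Real.log N) ^ ((B : ℝ) / h) := by
  have hNR : (3 : ℝ) ≤ N := by exact_mod_cast hN
  have hlog : 1 ≤ Real.log N := by
    rw [Real.le_log_iff_exp_le (by linarith)]
    have := Real.exp_one_lt_d9
    linarith
  have hABR : (A : ℝ) ≤ B := by exact_mod_cast hAB
  have hpow : 1 ≤ (N : ℝ) ^ ε := Real.one_le_rpow (by linarith) hε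
  have hbase : 1 ≤ (N : ℝ) ^ ε * Real.log N := by nlinarith
  have h1 : ((N : ℝ) ^ ε * Real.log N) ^ ((A : ℝ) / h) ≤
      ((N : ℝ) ^ ε * Real.log N) ^ ((B : ℝ) / h) :=
    Real.rpow_le_rpow_of_exponent_le hbase (div_le_div_of_nonneg_right hABR (Nat.cast_nonneg h))
  have h2 : 0 ≤ ((N : ℝ) ^ ε * Real.log N) ^ ((A : ℝ) / h) :=
    Real.rpow_nonneg (by linarith) _
  have h3 : (A : ℝ) * Real.log N ≤ B * Real.log N :=
    mul_le_mul_of_nonneg_right hABR (by linarith)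
  have h4 : (A : ℝ) * h ^ 2 ≤ B * h ^ 2 := mul_le_mul_of_nonneg_right hABR (by positivity)
  have h5 : (A : ℝ) * h ^ 2 * ((N : ℝ) ^ ε * Real.log N) ^ ((A : ℝ) / h) ≤
      B * h ^ 2 * ((N : ℝ) ^ ε * Real.log N) ^ ((B : ℝ) / h) :=
    mul_le_mul h4 h1 h2 (by positivity)
  linarith

end MainAux

open MainAux

theorem two_sided (δ : ℝ) (hδ : 0 < δ) (hδ1 : δ < 1) (k : ℕ) (hk : 256 / δ ^ 2 ≤ 2 ^ k) :
    ∃ (D B : ℕ) (Ed : (N : ℕ) → Finset (Fin N × Fin N)), 1 ≤ B ∧ (∀ N, MaxDeg (Ed N) D) ∧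
      ∀ N : ℕ, B ≤ N →
        (∀ ε : ℝ, 0 < ε → ε < 1 → ∃ μ1 μ0 : ({p // p ∈ Ed N} → Fin k → Bool) → ℝ,
          IsProb μ1 ∧ IsProb μ0 ∧
          (∀ c, μ1 c ≠ 0 → 1 - ε ≤ shiftVal (esrc (Ed N)) (etgt (Ed N)) k c) ∧
          (∀ c, μ0 c ≠ 0 → shiftVal (esrc (Ed N)) (etgt (Ed N)) k c ≤ δ) ∧
          ∀ (G : Type) [Fintype G] (h w : ℕ) (lv : G → ℕ)
            (val : G → ({p // p ∈ Ed N} → Fin k → Bool) → Bool), 1 ≤ w →
            IsCirc (IsJunta w) lv val → (∀ g, lv g < h) → ∀ g,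
            |∑ c, μ1 c * br (val g c) - ∑ c, μ0 c * br (val g c)| ≤
              (((B : ℝ) / ε) ^ B * (w + Real.log (Fintype.card G * N))) ^ (5 * h) /
                (N : ℝ) ^ (ε / B)) ∧
        (∀ (ε : ℝ) (h : ℕ), 0 ≤ ε → ε ≤ 1 / B → 7 ≤ h →
          ∃ (G : Type) (_ : Fintype G) (lv : G → ℕ)
            (val : G → ({p // p ∈ Ed N} → Fin k → Bool) → Bool) (g : G),
            IsCirc (IsJunta 1) lv val ∧ (∀ g', lv g' < h) ∧
            Real.log (Fintype.card G) ≤ B * Real.log N +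
              B * h ^ 2 * ((N : ℝ) ^ ε * Real.log N) ^ ((B : ℝ) / h) ∧
            (∀ c, 1 - ε ≤ shiftVal (esrc (Ed N)) (etgt (Ed N)) k c → val g c = true) ∧
            (∀ c, shiftVal (esrc (Ed N)) (etgt (Ed N)) k c ≤ δ → val g c = false)) := by
  have hk1 : 1 ≤ k := by
    by_contra hcon
    have hk0 : k = 0 := by omega
    rw [hk0, pow_zero] at hk
    have : 256 < 256 / δ ^ 2 := by
      rw [lt_div_iff₀ (by positivity)]
      nlinarith
    linarith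
  set D : ℕ := max 100 ⌈64 / δ⌉₊ with hDdef
  have hD : 100 ≤ D := le_max_left _ _
  have hDδ : 64 / δ ≤ D := by
    calc 64 / δ ≤ (⌈64 / δ⌉₊ : ℝ) := Nat.le_ceil _
      _ ≤ D := by exact_mod_cast le_max_right _ _
  have hDR : (100 : ℝ) ≤ D := by exact_mod_cast hD
  set γ : ℝ := 1 / (2 * (D : ℝ) ^ 3) with hγdef
  have hγ : 0 < γ := by rw [hγdef]; positivity
  obtain ⟨hβ0, hβγ⟩ := UppAux.bet_le (γ := γ) (δ := δ) hk1 (by omega : 1 ≤ D) hγ hδ.le hδ1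
  set β := bet γ δ k D with hβdef
  have hβ1 : β ≤ 1 / 2 := by
    refine hβγ.trans ?_
    rw [div_le_div_iff₀ (by linarith) (by norm_num), hγdef]
    have : 1 / (2 * (D : ℝ) ^ 3) ≤ 1 := by
      rw [div_le_one (by positivity)]
      have : (1 : ℝ) ≤ (D : ℝ) ^ 3 := one_le_pow₀ (by linarith)
      linarith
    linarith
  obtain ⟨A, hA1, hA⟩ := params k D hk1 (by omega) β hβ0 hβ1
  set B : ℕ := A + 3276800 * k + (2 * (2 * D) ^ 4 + 2) + 32 * k * D + ⌈1 / δ ^ 2⌉₊ +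
    (2 * D) ^ 8 + ⌈2 / β⌉₊ with hBdef
  have hAB : A ≤ B := by omega
  have hB1 : 3276800 * k ≤ B := by omega
  have hB2 : 2 * (2 * D) ^ 4 + 2 ≤ B := by omega
  have hB3 : 32 * k * D ≤ B := by omega
  have hB4' : ⌈1 / δ ^ 2⌉₊ ≤ B := by omega
  have hB5 : (2 * D) ^ 8 ≤ B := by omega
  have hB6' : ⌈2 / β⌉₊ ≤ B := by omega
  have hB4 : 1 / δ ^ 2 ≤ B := (Nat.le_ceil _).trans (by exact_mod_cast hB4')
  have hB6 : 2 / β ≤ B := (Nat.le_ceil _).trans (by exact_mod_cast hB6')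
  have hex : ∀ N : ℕ, ∃ Ed : Finset (Fin N × Fin N), MaxDeg Ed D ∧ ((2 * D) ^ 8 ≤ N →
      Poinc (esrc Ed) (etgt Ed) γ ∧ D * N ≤ 2 * Ed.card ∧
      ∃ Bd ⊆ Ed, Bd.card ^ 2 ≤ N ∧
        NoShort (gr (Ed \ Bd)) (2 * Nat.log ((2 * D) ^ 8) N)) := by
    intro N
    by_cases hN : (2 * D) ^ 8 ≤ N
    · obtain ⟨Ed, h1, h2, h3, h4⟩ := hosts D hD N hN
      exact ⟨Ed, h1, fun _ => ⟨h2, h3, h4⟩⟩
    · exact ⟨∅, ⟨fun i => by simp, fun j => by simp⟩, fun h => absurd h hN⟩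
  choose Ed hEd1 hEd2 using hex
  refine ⟨D, B, Ed, by omega, hEd1, ?_⟩
  intro N hN
  obtain ⟨hP, hm, Bd, hBd, hBd2, hNS⟩ := hEd2 N (hB5.trans hN)
  have hN3 : 3 ≤ N := by
    have : 3 ≤ (2 * D) ^ 8 := by
      calc 3 ≤ 2 * D := by omega
        _ = (2 * D) ^ 1 := (pow_one _).symm
        _ ≤ (2 * D) ^ 8 := Nat.pow_le_pow_right (by omega) (by norm_num)
    omega
  refine ⟨fun ε hε hε1 => lower_bound δ hδ hδ1 k hk D hD hDδ B hB1 hB2 hB3 hB4 hB5 N hN (Ed N)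
    (hEd1 N) hm Bd hBd hBd2 hNS ε hε hε1, ?_⟩
  intro ε h hε hεB h7
  have hBpos : (0 : ℝ) < B := by
    have : 0 < 2 / β := by positivity
    linarith
  have hεβ : ε ≤ β / 2 := by
    refine hεB.trans ?_
    rw [div_le_div_iff₀ hBpos (by norm_num)]
    rw [div_le_iff₀ hβ0] at hB6
    linarith
  have hmle : Fintype.card {p // p ∈ Ed N} ≤ D * N := by
    rw [Fintype.card_coe]
    exact card_le_of_maxDeg (hEd1 N)
  obtain ⟨L, r, h', hL1, hh, hL, hM, hsz⟩ := hA N (Fintype.card {p // p ∈ Ed N}) h ε hN3 hmle h7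
    hε hεβ
  have hcV : Fintype.card (Fin N ⊕ Fin N) = 2 * N := by
    rw [Fintype.card_sum, Fintype.card_fin]; ring
  obtain ⟨f, hf, hf1, hf0⟩ := upper_core (k := k) hk1 (esrc (Ed N)) (etgt (Ed N)) D (by omega)
    (HostAux.deg_le (hEd1 N)) γ hγ hP (by rw [hcV]; omega) δ ε hδ.le hδ1 hε
    (by linarith) L r h' hL1 (by rw [hcV]; exact hL) hM
  obtain ⟨G, iG, lv, val, g, c1, c2, c3, c4⟩ := hf.circ (by omega) (by unfold csz; omega)
  refine ⟨G, iG, lv, val, g, c1, fun g' => lt_of_lt_of_le (c2 g') hh, ?_, ?_, ?_⟩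
  · have hG : 1 ≤ Fintype.card G := Fintype.card_pos_iff.mpr ⟨g⟩
    have hGR : (0 : ℝ) < Fintype.card G := by exact_mod_cast hG
    calc Real.log (Fintype.card G) ≤ Real.log (csz k (Fintype.card {p // p ∈ Ed N}) r h' L) :=
          Real.log_le_log hGR (by exact_mod_cast c3)
      _ ≤ _ := hsz
      _ ≤ _ := upper_mono hAB hN3 hε
  · intro c hc
    rw [c4]
    exact hf1 c hc
  · intro c hc
    rw [c4]
    exact hf0 c hc

end Pool.Agent.P325ad
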